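import Pool.Agent.Helper455.Engel.Words

namespace Pool.Agent.Helper455.Engel

/-- The free unital ring on two letters. -/
abbrev U := FreeAlgebra ℤ Bool

/-- first letter -/
noncomputable def X : U := FreeAlgebra.ι ℤ true
/-- second letter -/
noncomputable def Y : U := FreeAlgebra.ι ℤ false

/-- evaluation at a pair of elements -/
noncomputable def ev {V : Type*} [Ring V] (a b : V) : U →ₐ[ℤ] V :=
  FreeAlgebra.lift ℤ (fun i => bif i then a else b)

section
variable {V : Type*} [Ring V]

@[simp] theorem ev_X (a b : V) : ev a b X = a := by simp [ev, X]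
@[simp] theorem ev_Y (a b : V) : ev a b Y = b := by simp [ev, Y]

theorem U_induction {C : U → Prop} (h0 : ∀ m : ℤ, C (m : U)) (hX : C X) (hY : C Y)
    (hadd : ∀ a b, C a → C b → C (a + b)) (hmul : ∀ a b, C a → C b → C (a * b)) (a : U) : C a := by
  refine FreeAlgebra.induction ℤ Bool (motive := C) ?_ ?_ hmul hadd a
  · intro r; simpa using h0 r
  · intro x
    cases x with
    | true => exact hX
    | false => exact hY

theorem map_ev {W : Type*} [Ring W] (φ : V →+* W) (a b : V) (f : U) :
    φ (ev a b f) = ev (φ a) (φ b) f := by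
  induction f using U_induction with
  | h0 m => simp
  | hX => simp
  | hY => simp
  | hadd p q hp hq => simp [hp, hq]
  | hmul p q hp hq => simp [hp, hq]

theorem ev_eng (a b : V) (n : ℕ) : ev a b (eng X Y n) = eng a b n := by
  induction n with
  | zero => simp [eng_zero]
  | succ n ih => simp [eng_succ, ih]

/-- the additive span of words containing the first letter twice -/
noncomputable def I2 : AddSubgroup U :=
  AddSubgroup.closure {u | ∃ p q r : U, u = p * X * q * X * r}

theorem I2_left {g : U} (hg : g ∈ I2) (u : U) : u * g ∈ I2 := by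
  induction hg using AddSubgroup.closure_induction with
  | mem x hx =>
    obtain ⟨p, q, r, rfl⟩ := hx
    exact AddSubgroup.subset_closure ⟨u * p, q, r, by simp only [mul_assoc]⟩
  | zero => rw [mul_zero]; exact zero_mem _
  | add x y _ _ hx hy => rw [mul_add]; exact add_mem hx hy
  | neg x _ hx => rw [mul_neg]; exact neg_mem hx

theorem I2_right {g : U} (hg : g ∈ I2) (u : U) : g * u ∈ I2 := by
  induction hg using AddSubgroup.closure_induction with
  | mem x hx =>
    obtain ⟨p, q, r, rfl⟩ := hx
    exact AddSubgroup.subset_closure ⟨p, q, r * u, by simp only [mul_assoc]⟩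
  | zero => rw [zero_mul]; exact zero_mem _
  | add x y _ _ hx hy => rw [add_mul]; exact add_mem hx hy
  | neg x _ hx => rw [neg_mul]; exact neg_mem hx

theorem ev_I2 {z y : V} (hz : ∀ q : U, z * ev z y q * z = 0) {g : U} (hg : g ∈ I2) :
    ev z y g = 0 := by
  induction hg using AddSubgroup.closure_induction with
  | mem x hx =>
    obtain ⟨p, q, r, rfl⟩ := hx
    simp only [map_mul, ev_X]
    have := hz q
    calc ev z y p * z * ev z y q * z * ev z y r
        = ev z y p * (z * ev z y q * z) * ev z y r := by simp only [mul_assoc]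
      _ = 0 := by rw [this]; simp
  | zero => simp
  | add x y _ _ hx hy => rw [map_add, hx, hy, add_zero]
  | neg x _ hx => rw [map_neg, hx, neg_zero]

theorem ev_I2_wrw {w r : V} (hw : w * w = 0) {g : U} (hg : g ∈ I2) : ev w (r * w) g = 0 := by
  apply ev_I2 _ hg
  have key : ∀ q : U, ∃ m : ℤ, ev w (r * w) q * w = m • w := by
    intro q
    induction q using U_induction with
    | h0 m => exact ⟨m, by simp⟩
    | hX => exact ⟨0, by simp [hw]⟩
    | hY => exact ⟨0, by simp [mul_assoc, hw]⟩
    | hadd p q hp hq =>
      obtain ⟨m, hm⟩ := hp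
      obtain ⟨n, hn⟩ := hq
      exact ⟨m + n, by rw [map_add, add_mul, hm, hn, add_smul]⟩
    | hmul p q hp hq =>
      obtain ⟨m, hm⟩ := hp
      obtain ⟨n, hn⟩ := hq
      exact ⟨n * m, by rw [map_mul, mul_assoc, hn, mul_smul_comm, hm, mul_smul]⟩
  intro q
  obtain ⟨m, hm⟩ := key q
  rw [mul_assoc, hm, mul_smul_comm, hw, smul_zero]

theorem eng_wrw {w r : V} (hw : w * w = 0) (n : ℕ) : eng w (r * w) n = w * (r * w) ^ n := by
  induction n with
  | zero => simp [eng_zero]
  | succ n ih =>
    rw [eng_succ, ih, mul_assoc r w, ← mul_assoc w w, hw]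
    simp [pow_succ, mul_assoc]

/-- commuting scalars come out of the first argument -/
theorem eng_central (γ a b : V) (h1 : ∀ v, γ * v = v * γ) (n : ℕ) :
    eng (γ * a) b n = γ * eng a b n := by
  induction n with
  | zero => rfl
  | succ n ih =>
    rw [eng_succ, eng_succ, ih, mul_sub, ← mul_assoc b, ← h1 b]
    simp only [mul_assoc]

end

/-! ### coefficient functions -/

/-- multiplication of a word function by a letter on the left -/
def pre (i : Bool) (f : List Bool → ℤ) : List Bool → ℤ
  | [] => 0
  | [j] => if j = i then f [] else 0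
  | j :: k :: w => pre i (fun v => f (j :: v)) (k :: w)

theorem evN_pre {V : Type*} [Ring V] (i : Bool) (N : ℕ) (f : List Bool → ℤ) (b : Bool → V) :
    evN (N + 1) (pre i f) b = b i * evN N f b := by
  induction N generalizing f with
  | zero =>
    rw [evN_succ]
    cases i <;> simp [pre, evN_zero', (Int.cast_commute _ _).eq]
  | succ N ih =>
    rw [evN_succ]
    have h1 : ∀ j, evN (N + 1) (fun w => pre i f (j :: w)) b
        = (if j = i then (f [] : V) else 0) + b i * evN N (fun v => f (j :: v)) b := by
      intro j
      rw [← ih (fun v => f (j :: v))]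
      have h2 : evN (N + 1) (fun w => pre i f (j :: w)) b
          = evN (N + 1) (fun w => (if w = [] then (if j = i then f [] else 0) else 0)
              + pre i (fun v => f (j :: v)) w) b := by
        refine evN_congr _ _ _ b fun w _ => ?_
        cases w with
        | nil => simp [pre]
        | cons k w => simp [pre]
      rw [h2, evN_add]
      congr 1
      rw [evN_stable 0 (N + 1) (by omega) _ b]
      · rw [evN_zero']
        by_cases hj : j = i <;> simp [hj]
      · intro w hw
        have : w ≠ [] := by rintro rfl; simp at hw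
        simp [this]
    simp only [h1, pre, Int.cast_zero, zero_add, add_mul, Finset.sum_add_distrib]
    rw [evN_succ N f, mul_add, Finset.mul_sum]
    congr 1
    · rw [Finset.sum_eq_single i]
      · simp [(Int.cast_commute _ _).eq]
      · intro j _ hj; simp [hj]
      · simp
    · refine Finset.sum_congr rfl fun j _ => ?_
      rw [mul_assoc]

theorem evN_raise {V : Type*} [Ring V] (N M : ℕ) (h : N ≤ M) (f : List Bool → ℤ) (b : Bool → V) :
    evN M (fun w => if w.length ≤ N then f w else 0) b = evN N f b := by
  rw [evN_stable N M h]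
  · refine evN_congr _ _ _ b fun w hw => ?_
    simp [hw]
  · intro w hw
    have : ¬ w.length ≤ N := by omega
    simp [this]

universe u

/-- every element of the free algebra is given by a coefficient function -/
theorem exists_coeff (H : U) : ∃ (N : ℕ) (c : List Bool → ℤ), ∀ (V : Type u) [Ring V] (a b : V),
    ev a b H = evN N c (fun i => bif i then a else b) := by
  suffices key : ∀ (H : U) (N : ℕ) (c : List Bool → ℤ), ∃ (N' : ℕ) (c' : List Bool → ℤ),
      ∀ (V : Type u) [Ring V] (a b : V),
      ev a b H * evN N c (fun i => bif i then a else b)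
        = evN N' c' (fun i => bif i then a else b) by
    obtain ⟨N, c, h⟩ := key H 0 (fun _ => 1)
    refine ⟨N, c, fun V _ a b => ?_⟩
    rw [← h V a b, evN_zero']
    simp
  intro H
  induction H using U_induction with
  | h0 m =>
    intro N c
    refine ⟨N, fun w => m * c w, fun V _ a b => ?_⟩
    rw [evN_mul_left_int]; simp
  | hX =>
    intro N c
    refine ⟨N + 1, pre true c, fun V _ a b => ?_⟩
    rw [evN_pre]; simp
  | hY =>
    intro N c
    refine ⟨N + 1, pre false c, fun V _ a b => ?_⟩
    rw [evN_pre]; simp
  | hadd p q hp hq =>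
    intro N c
    obtain ⟨N1, c1, h1⟩ := hp N c
    obtain ⟨N2, c2, h2⟩ := hq N c
    refine ⟨max N1 N2, fun w => (if w.length ≤ N1 then c1 w else 0)
      + (if w.length ≤ N2 then c2 w else 0), fun V _ a b => ?_⟩
    rw [evN_add, evN_raise _ _ (le_max_left _ _), evN_raise _ _ (le_max_right _ _), map_add,
      add_mul, h1, h2]
  | hmul p q hp hq =>
    intro N c
    obtain ⟨N2, c2, h2⟩ := hq N c
    obtain ⟨N1, c1, h1⟩ := hp N2 c2
    refine ⟨N1, c1, fun V _ a b => ?_⟩
    rw [map_mul, mul_assoc, h2, h1]

open Matrix in
/-- nontriviality of the coefficient function of `[x,_n y] - g` -/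
theorem coeff_ne (n : ℕ) (g : U) (hg : g ∈ I2) (N : ℕ) (c : List Bool → ℤ)
    (hc : ∀ (V : Type u) [Ring V] (a b : V),
      ev a b (eng X Y n - g) = evN N c (fun i => bif i then a else b))
    (V : Type u) [Ring V] [Nontrivial V] : ∃ w : List Bool, w.length ≤ N ∧ (c w : V) ≠ 0 := by
  by_contra hcon
  push Not at hcon
  let z : Matrix (Fin 2) (Fin 2) V := !![0, 1; 0, 0]
  let y : Matrix (Fin 2) (Fin 2) V := !![0, 0; 0, 1]
  have h1 := hc (Matrix (Fin 2) (Fin 2) V) z y
  rw [evN_eq_zero] at h1
  · have hlow : ∀ q : U, (ev z y q) 1 0 = 0 := by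
      intro q
      induction q using U_induction with
      | h0 m =>
        rw [map_intCast, ← Matrix.diagonal_intCast]
        simp
      | hX => simp [z]
      | hY => simp [y]
      | hadd p q hp hq => simp [hp, hq]
      | hmul p q hp hq => simp [Matrix.mul_apply, Fin.sum_univ_two, hp, hq]
    have hzM : ∀ M : Matrix (Fin 2) (Fin 2) V, M 1 0 = 0 → z * M * z = 0 := by
      intro M hM
      ext i j
      fin_cases i <;> fin_cases j <;>
        simp [z, Matrix.mul_apply, Matrix.vecMul, dotProduct, Fin.sum_univ_two, hM]
    have h2 : ev z y g = 0 := ev_I2 (fun q => hzM _ (hlow q)) hg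
    have h3 : ∀ m, eng z y m = z := by
      intro m
      induction m with
      | zero => rfl
      | succ m ih =>
        rw [eng_succ, ih]
        ext i j
        fin_cases i <;> fin_cases j <;> simp [z, y]
    rw [map_sub, h2, ev_eng, h3, sub_zero] at h1
    have h4 := congrFun (congrFun h1 0) 1
    simp [z] at h4
  · intro w hw
    rw [← Matrix.diagonal_intCast, hcon w hw]
    simp

end Pool.Agent.Helper455.Engel
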