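import Pool.Agent.Helper455.Engel.Basic

namespace Pool.Agent.Helper455.Engel

open Ideal

theorem int_jacobson : IsJacobsonRing ℤ := by
  rw [isJacobsonRing_iff_prime_eq]
  intro P hP
  by_cases hbot : P = ⊥
  · subst hbot
    refine le_antisymm ?_ Ideal.le_jacobson
    intro x hx
    rw [Ideal.mem_bot]
    by_contra hx0
    obtain ⟨p, hp1, hp⟩ := Nat.exists_infinite_primes (x.natAbs + 1)
    have hmax : (Ideal.span {(p : ℤ)}).IsMaximal :=
      PrincipalIdealRing.isMaximal_of_irreducible (Nat.prime_iff_prime_int.1 hp).irreducible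
    have h1 : x ∈ Ideal.span {(p : ℤ)} := by
      have := Ideal.mem_sInf.1 hx
      exact this ⟨bot_le, hmax⟩
    rw [Ideal.mem_span_singleton] at h1
    have h2 := Int.natAbs_dvd_natAbs.2 h1
    rw [Int.natAbs_natCast] at h2
    have h3 := Nat.le_of_dvd (Int.natAbs_pos.2 hx0) h2
    omega
  · have hmax : P.IsMaximal := hP.isMaximal hbot
    exact Ideal.jacobson_eq_self_of_isMaximal

theorem finite_field_of_fg (k : Type*) [Field k] [Algebra.FiniteType ℤ k] : Finite k := by
  have := int_jacobson
  have hfin : Module.Finite ℤ k := finite_of_finite_type_of_isJacobsonRing ℤ k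
  have hint : Algebra.IsIntegral ℤ k := inferInstance
  have hninj : ¬ Function.Injective (algebraMap ℤ k) := by
    intro hinj
    have := isField_of_isIntegral_of_isField hinj (Field.toIsField k)
    exact Int.not_isField this
  obtain ⟨n, hn, hn0⟩ : ∃ n : ℤ, (n : k) = 0 ∧ n ≠ 0 := by
    by_contra hcon
    push Not at hcon
    apply hninj
    rw [injective_iff_map_eq_zero]
    intro a ha
    exact hcon a (by simpa using ha)
  apply Module.finite_of_fg_torsion
  intro x
  exact ⟨⟨n, mem_nonZeroDivisors_of_ne_zero hn0⟩, by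
    show n • x = 0
    rw [zsmul_eq_mul, hn, zero_mul]⟩

theorem finite_field_of_surj {C k : Type*} [CommRing C] [Algebra ℤ C] [Algebra.FiniteType ℤ C]
    [Field k] (f : C →+* k) (hf : Function.Surjective f) : Finite k := by
  let f' : C →ₐ[ℤ] k := { f with commutes' := fun n => by simp }
  have : Algebra.FiniteType ℤ k := Algebra.FiniteType.of_surjective f' hf
  exact finite_field_of_fg k

/-- The residue field of the operator algebra. -/
theorem alpha_field {V : Type} [Ring V] (y z : V) (hn : ∀ n, eng z y n ≠ 0) :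
    ∃ (k : Type) (_ : Field k) (_ : Finite k) (C : Subalgebra ℤ (Module.End ℤ V)) (π : C →+* k)
      (hL : LinearMap.mulLeft ℤ y ∈ C) (hR : LinearMap.mulRight ℤ y ∈ C),
      C = Algebra.adjoin ℤ {LinearMap.mulLeft ℤ y, LinearMap.mulRight ℤ y} ∧
      (∀ c : C, (c : Module.End ℤ V) z = 0 → π c = 0) ∧ π ⟨_, hL⟩ ≠ π ⟨_, hR⟩ := by
  classical
  let L : Module.End ℤ V := LinearMap.mulLeft ℤ y
  let R : Module.End ℤ V := LinearMap.mulRight ℤ y
  have hLR : L * R = R * L := by
    ext v
    show y * (v * y) = (y * v) * y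
    rw [mul_assoc]
  have hcomm : ∀ a ∈ ({L, R} : Set (Module.End ℤ V)), ∀ b ∈ ({L, R} : Set (Module.End ℤ V)),
      a * b = b * a := by
    rintro a (rfl | rfl) b (rfl | rfl)
    · rfl
    · exact hLR
    · exact hLR.symm
    · rfl
  let C := Algebra.adjoin ℤ ({L, R} : Set (Module.End ℤ V))
  have hisc : IsMulCommutative C := Algebra.isMulCommutative_adjoin ℤ hcomm
  let _ : CommRing C := { (inferInstance : Ring C) with mul_comm := hisc.is_comm.comm }
  have hft : Algebra.FiniteType ℤ C := by
    rw [← Subalgebra.fg_iff_finiteType]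
    exact ⟨{L, R}, by simp [C]⟩
  have hjac : IsJacobsonRing C := by
    have := int_jacobson
    exact isJacobsonRing_of_finiteType (A := ℤ)
  have hLm : L ∈ C := Algebra.subset_adjoin (by simp)
  have hRm : R ∈ C := Algebra.subset_adjoin (by simp)
  let Lc : C := ⟨L, hLm⟩
  let Rc : C := ⟨R, hRm⟩
  let ann : Ideal C :=
    { carrier := {c | (c : Module.End ℤ V) z = 0}
      add_mem' := fun {a b} ha hb => by
        show (a : Module.End ℤ V) z + (b : Module.End ℤ V) z = 0
        rw [show (a : Module.End ℤ V) z = 0 from ha, show (b : Module.End ℤ V) z = 0 from hb,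
          add_zero]
      zero_mem' := rfl
      smul_mem' := fun c a ha => by
        show (c : Module.End ℤ V) ((a : Module.End ℤ V) z) = 0
        rw [show (a : Module.End ℤ V) z = 0 from ha, map_zero] }
  have hθpow : ∀ n : ℕ, (((Rc - Lc) ^ n : C) : Module.End ℤ V) z = eng z y n := by
    intro n
    induction n with
    | zero => rfl
    | succ n ih =>
      rw [pow_succ']
      show R ((((Rc - Lc) ^ n : C) : Module.End ℤ V) z) - L ((((Rc - Lc) ^ n : C) : Module.End ℤ V) z)
        = _
      rw [ih]; rfl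
  have hθ : Rc - Lc ∉ ann.jacobson := by
    rw [← Ideal.radical_eq_jacobson]
    rintro ⟨n, hn'⟩
    apply hn n
    rw [← hθpow n]
    exact hn'
  obtain ⟨M, ⟨hannM, hM⟩, hθM⟩ : ∃ M : Ideal C, (ann ≤ M ∧ M.IsMaximal) ∧ Rc - Lc ∉ M := by
    by_contra hcon
    push Not at hcon
    apply hθ
    rw [Ideal.jacobson, Ideal.mem_sInf]
    intro J hJ
    exact hcon J hJ
  let fk : Field (C ⧸ M) := Ideal.Quotient.field M
  have hfink : Finite (C ⧸ M) :=
    @finite_field_of_surj C (C ⧸ M) _ _ _ fk (Ideal.Quotient.mk M) Ideal.Quotient.mk_surjective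
  refine ⟨C ⧸ M, fk, hfink, C, Ideal.Quotient.mk M, hLm, hRm, rfl, ?_, ?_⟩
  · intro c hc
    exact Ideal.Quotient.eq_zero_iff_mem.2 (hannM hc)
  · intro h
    apply hθM
    rw [← Ideal.Quotient.eq_zero_iff_mem, map_sub]
    exact sub_eq_zero.2 h.symm

theorem mat_aux {k : Type*} [CommRing k] {a b c a' b' c' : k} (h1 : a = a') (h2 : b = b')
    (h3 : c = c') : (!![a, b; 0, c] : Matrix (Fin 2) (Fin 2) k) = !![a', b'; 0, c'] := by
  rw [h1, h2, h3]

theorem mat_add {k : Type*} [CommRing k] (a b c a' b' c' : k) :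
    (!![a, b; 0, c] : Matrix (Fin 2) (Fin 2) k) + !![a', b'; 0, c']
      = !![a + a', b + b'; 0, c + c'] := by
  ext i j
  fin_cases i <;> fin_cases j <;> simp

theorem mat_neg {k : Type*} [CommRing k] (a b c : k) :
    -(!![a, b; 0, c] : Matrix (Fin 2) (Fin 2) k) = !![-a, -b; 0, -c] := by
  ext i j
  fin_cases i <;> fin_cases j <;> simp

theorem mat_mul {k : Type*} [CommRing k] (a b c a' b' c' : k) :
    (!![a, b; 0, c] : Matrix (Fin 2) (Fin 2) k) * !![a', b'; 0, c']
      = !![a * a', a * b' + b * c'; 0, c * c'] := by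
  ext i j
  fin_cases i <;> fin_cases j <;> simp [Matrix.mul_apply, Fin.sum_univ_two]

theorem mat_zero {k : Type*} [CommRing k] :
    (!![0, 0; 0, 0] : Matrix (Fin 2) (Fin 2) k) = 0 := by
  ext i j
  fin_cases i <;> fin_cases j <;> rfl

open Matrix in
/-- The (α)-lemma. -/
theorem alpha {V : Type} [Ring V] (y z : V) (hz : ∀ v, z * v * z = 0)
    (hn : ∀ n, eng z y n ≠ 0) :
    ∃ (k : Type) (_ : Field k) (_ : Finite k) (α β : k), α ≠ β ∧
      ∀ t : Term,
        (∀ v : ℕ → V, (∀ i, v i ∈ NonUnitalSubring.closure {y, z}) → t.eval v = 0) →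
        ∀ w : ℕ → Matrix (Fin 2) (Fin 2) k,
          (∀ i, w i ∈ NonUnitalSubring.closure {!![α, 0; 0, β], !![0, 1; 0, 0]}) →
          t.eval w = 0 := by
  classical
  obtain ⟨k, ik, ifk, C, π, hL, hR, hC, hann, hne⟩ := alpha_field y z hn
  refine ⟨k, ik, ifk, π ⟨_, hL⟩, π ⟨_, hR⟩, hne, ?_⟩
  set Lc : C := ⟨_, hL⟩ with hLc
  set Rc : C := ⟨_, hR⟩ with hRc
  -- vanishing products
  have hkey1 : ∀ c ∈ C, ∀ u : V, (∀ s, z * s * u = 0) → ∀ s, z * s * (c u) = 0 := by
    intro c hc
    rw [hC] at hc
    induction hc using Algebra.adjoin_induction with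
    | mem c hc =>
      intro u hu s
      rcases hc with rfl | rfl
      · show z * s * (y * u) = 0
        rw [← mul_assoc, mul_assoc z s y]; exact hu _
      · show z * s * (u * y) = 0
        rw [← mul_assoc, hu, zero_mul]
    | algebraMap r =>
      intro u hu s
      rw [Module.algebraMap_end_apply, mul_smul_comm, hu, smul_zero]
    | add a b _ _ ha hb =>
      intro u hu s
      rw [LinearMap.add_apply, mul_add, ha u hu, hb u hu, add_zero]
    | mul a b _ _ ha hb =>
      intro u hu s
      exact ha (b u) (hb u hu) s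
  have hkey2 : ∀ c ∈ C, ∀ e u : V, (∀ s, u * s * e = 0) → ∀ s, (c u) * s * e = 0 := by
    intro c hc
    rw [hC] at hc
    induction hc using Algebra.adjoin_induction with
    | mem c hc =>
      intro e u hu s
      rcases hc with rfl | rfl
      · show y * u * s * e = 0
        rw [mul_assoc y u s, mul_assoc y, hu, mul_zero]
      · show u * y * s * e = 0
        rw [mul_assoc u y s]; exact hu _
    | algebraMap r =>
      intro e u hu s
      rw [Module.algebraMap_end_apply, smul_mul_assoc, smul_mul_assoc, hu, smul_zero]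
    | add a b _ _ ha hb =>
      intro e u hu s
      rw [LinearMap.add_apply, add_mul, add_mul, ha e u hu, hb e u hu, add_zero]
    | mul a b _ _ ha hb =>
      intro e u hu s
      exact ha e (b u) (hb e u hu) s
  have hzz : ∀ c c' : C, (c : Module.End ℤ V) z * (c' : Module.End ℤ V) z = 0 := by
    intro c c'
    have h1 := hkey1 c' c'.2 z (fun s => hz s)
    have h2 := hkey2 c c.2 _ z h1 1
    rwa [mul_one] at h2
  let Ym : Matrix (Fin 2) (Fin 2) k := !![π Lc, 0; 0, π Rc]
  let Zm : Matrix (Fin 2) (Fin 2) k := !![0, 1; 0, 0]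
  let P : NonUnitalSubring (V × Matrix (Fin 2) (Fin 2) k) :=
    NonUnitalSubring.closure {(y, Ym), (z, Zm)}
  have hPQ : ∀ x ∈ P, ∃ (u : V) (l r c : C), (l : Module.End ℤ V) = LinearMap.mulLeft ℤ u ∧
      (r : Module.End ℤ V) = LinearMap.mulRight ℤ u ∧ u * y = y * u ∧
      x.1 = u + (c : Module.End ℤ V) z ∧ x.2 = !![π l, π c; 0, π r] := by
    intro x hx
    induction hx using NonUnitalSubring.closure_induction with
    | mem x hx =>
      rcases hx with rfl | rfl
      · refine ⟨y, Lc, Rc, 0, rfl, rfl, rfl, ?_, ?_⟩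
        · show y = y + 0
          rw [add_zero]
        · rw [map_zero]
      · refine ⟨0, 0, 0, 1, ?_, ?_, by simp, ?_, ?_⟩
        · rw [LinearMap.mulLeft_zero_eq_zero]; rfl
        · rw [LinearMap.mulRight_zero_eq_zero]; rfl
        · show z = 0 + z
          rw [zero_add]
        · rw [map_zero, map_one]
    | zero =>
      refine ⟨0, 0, 0, 0, ?_, ?_, by simp, ?_, ?_⟩
      · rw [LinearMap.mulLeft_zero_eq_zero]; rfl
      · rw [LinearMap.mulRight_zero_eq_zero]; rfl
      · show (0 : V) = 0 + 0
        rw [add_zero]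
      · rw [map_zero]; exact mat_zero.symm
    | add x x' _ _ hx hx' =>
      obtain ⟨u, l, r, c, hl, hr, huy, hb, hM⟩ := hx
      obtain ⟨u', l', r', c', hl', hr', huy', hb', hM'⟩ := hx'
      refine ⟨u + u', l + l', r + r', c + c', ?_, ?_, ?_, ?_, ?_⟩
      · show (l : Module.End ℤ V) + l' = _
        rw [hl, hl']; ext v; exact (add_mul u u' v).symm
      · show (r : Module.End ℤ V) + r' = _
        rw [hr, hr']; ext v; exact (mul_add v u u').symm
      · rw [add_mul, mul_add, huy, huy']
      · show x.1 + x'.1 = u + u' + ((c : Module.End ℤ V) z + (c' : Module.End ℤ V) z)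
        rw [hb, hb']; abel
      · show x.2 + x'.2 = _
        rw [hM, hM', mat_add, map_add, map_add, map_add]
    | neg x _ hx =>
      obtain ⟨u, l, r, c, hl, hr, huy, hb, hM⟩ := hx
      refine ⟨-u, -l, -r, -c, ?_, ?_, ?_, ?_, ?_⟩
      · show -(l : Module.End ℤ V) = _
        rw [hl]; ext v; exact (neg_mul u v).symm
      · show -(r : Module.End ℤ V) = _
        rw [hr]; ext v; exact (mul_neg v u).symm
      · rw [neg_mul, mul_neg, huy]
      · show -x.1 = -u + -((c : Module.End ℤ V) z)
        rw [hb]; abel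
      · show -x.2 = _
        rw [hM, mat_neg, map_neg, map_neg, map_neg]
    | mul x x' _ _ hx hx' =>
      obtain ⟨u, l, r, c, hl, hr, huy, hb, hM⟩ := hx
      obtain ⟨u', l', r', c', hl', hr', huy', hb', hM'⟩ := hx'
      refine ⟨u * u', l * l', r' * r, l * c' + r' * c, ?_, ?_, ?_, ?_, ?_⟩
      · show (l : Module.End ℤ V) * l' = _
        rw [hl, hl']; ext v; exact (mul_assoc u u' v).symm
      · show (r' : Module.End ℤ V) * r = _
        rw [hr, hr']; ext v; exact (mul_assoc v u u')
      · rw [mul_assoc, huy', ← mul_assoc, huy, mul_assoc]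
      · show x.1 * x'.1 = u * u' + ((l : Module.End ℤ V) ((c' : Module.End ℤ V) z)
          + (r' : Module.End ℤ V) ((c : Module.End ℤ V) z))
        rw [hb, hb', hl, hr', LinearMap.mulLeft_apply, LinearMap.mulRight_apply, add_mul,
          mul_add, mul_add, hzz, add_zero]
        abel
      · show x.2 * x'.2 = _
        rw [hM, hM', mat_mul]
        refine mat_aux ?_ ?_ ?_
        · rw [map_mul]
        · rw [map_add, map_mul, map_mul, mul_comm (π r')]
        · rw [map_mul, mul_comm]
  have hP0 : ∀ x ∈ P, x.1 = 0 → x.2 = 0 := by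
    intro x hx hx0
    obtain ⟨u, l, r, c, hl, hr, huy, hb, hM'⟩ := hPQ x hx
    rw [hx0] at hb
    have hu : u = -((c : Module.End ℤ V) z) := eq_neg_of_add_eq_zero_left hb.symm
    have huu : u * u = 0 := by rw [hu, neg_mul_neg, hzz]
    have hl2 : l * l = 0 := by
      apply Subtype.ext
      show (l : Module.End ℤ V) * l = 0
      rw [hl]; ext v
      show u * (u * v) = 0
      rw [← mul_assoc, huu, zero_mul]
    have hr2 : r * r = 0 := by
      apply Subtype.ext
      show (r : Module.End ℤ V) * r = 0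
      rw [hr]; ext v
      show (v * u) * u = 0
      rw [mul_assoc, huu, mul_zero]
    have hπl : π l = 0 := by
      have := congrArg π hl2
      rw [map_mul, map_zero] at this
      exact mul_self_eq_zero.1 this
    have hπr : π r = 0 := by
      have := congrArg π hr2
      rw [map_mul, map_zero] at this
      exact mul_self_eq_zero.1 this
    have hc : π ((Rc - Lc) * c) = 0 := by
      apply hann
      have h1 : (c : Module.End ℤ V) z = -u := by rw [hu, neg_neg]
      show LinearMap.mulRight ℤ y ((c : Module.End ℤ V) z)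
        - LinearMap.mulLeft ℤ y ((c : Module.End ℤ V) z) = 0
      rw [h1]
      show (-u) * y - y * (-u) = 0
      rw [neg_mul, mul_neg, huy]; abel
    have hπc : π c = 0 := by
      rw [map_mul, map_sub] at hc
      rcases mul_eq_zero.1 hc with h | h
      · exact absurd (sub_eq_zero.1 h).symm hne
      · exact h
    rw [hM', hπl, hπr, hπc]
    exact mat_zero
  intro t ht w hw
  have hlift : ∀ m ∈ NonUnitalSubring.closure {Ym, Zm}, ∃ b, (b, m) ∈ P := by
    intro m hm
    induction hm using NonUnitalSubring.closure_induction with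
    | mem m hm =>
      rcases hm with rfl | rfl
      · exact ⟨y, NonUnitalSubring.subset_closure (by simp)⟩
      · exact ⟨z, NonUnitalSubring.subset_closure (by simp)⟩
    | zero => exact ⟨0, zero_mem P⟩
    | add m m' _ _ h h' =>
      obtain ⟨b, hb⟩ := h
      obtain ⟨b', hb'⟩ := h'
      exact ⟨b + b', add_mem hb hb'⟩
    | neg m _ h =>
      obtain ⟨b, hb⟩ := h
      exact ⟨-b, neg_mem hb⟩
    | mul m m' _ _ h h' =>
      obtain ⟨b, hb⟩ := h
      obtain ⟨b', hb'⟩ := h'
      exact ⟨b * b', mul_mem hb hb'⟩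
  have hfst : ∀ x ∈ P, x.1 ∈ NonUnitalSubring.closure {y, z} := by
    intro x hx
    induction hx using NonUnitalSubring.closure_induction with
    | mem x hx =>
      rcases hx with rfl | rfl
      · exact NonUnitalSubring.subset_closure (by simp)
      · exact NonUnitalSubring.subset_closure (by simp)
    | zero => exact zero_mem _
    | add m m' _ _ h h' => exact add_mem h h'
    | neg m _ h => exact neg_mem h
    | mul m m' _ _ h h' => exact mul_mem h h'
  choose b hb using fun i => hlift (w i) (hw i)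
  have h1 : t.eval (fun i => (b i, w i)) ∈ P := eval_mem P _ hb t
  have h2 := hP0 _ h1
  have h3 : (t.eval (fun i => (b i, w i))).1 = t.eval b :=
    map_eval (NonUnitalRingHom.fst V (Matrix (Fin 2) (Fin 2) k)) _ t
  have h4 : (t.eval (fun i => (b i, w i))).2 = t.eval w :=
    map_eval (NonUnitalRingHom.snd V (Matrix (Fin 2) (Fin 2) k)) _ t
  rw [h3, h4] at h2
  exact h2 (ht b fun i => hfst _ (hb i))

end Pool.Agent.Helper455.Engel
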