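import Pool.Agent.Helper455.Engel.Defs

namespace Pool.Agent.Helper455.Engel

theorem eng_zero {A : Type*} [NonUnitalRing A] (x y : A) : eng x y 0 = x := rfl

theorem eng_succ {A : Type*} [NonUnitalRing A] (x y : A) (n : ℕ) :
    eng x y (n + 1) = eng x y n * y - y * eng x y n := rfl

theorem eng_add {A : Type*} [NonUnitalRing A] (x y : A) (m n : ℕ) :
    eng x y (m + n) = eng (eng x y m) y n := by
  induction n with
  | zero => rfl
  | succ n ih => rw [← Nat.add_assoc, eng_succ, ih, eng_succ]

theorem map_eng {A B : Type*} [NonUnitalRing A] [NonUnitalRing B] (f : A →ₙ+* B) (x y : A)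
    (n : ℕ) : f (eng x y n) = eng (f x) (f y) n := by
  induction n with
  | zero => rfl
  | succ n ih => simp only [eng_succ, map_sub, map_mul, ih]

section
variable {A B : Type*} [NonUnitalRing A] [NonUnitalRing B]

theorem map_eval (f : A →ₙ+* B) (v : ℕ → A) (t : Term) :
    f (t.eval v) = t.eval (fun i => f (v i)) := by
  induction t with
  | var i => rfl
  | zero => exact map_zero f
  | add s t hs ht => simp only [Term.eval, map_add, hs, ht]
  | neg s hs => simp only [Term.eval, map_neg, hs]
  | mul s t hs ht => simp only [Term.eval, map_mul, hs, ht]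

theorem eval_mem (S : NonUnitalSubring A) (v : ℕ → A) (hv : ∀ i, v i ∈ S) (t : Term) :
    t.eval v ∈ S := by
  induction t with
  | var i => exact hv i
  | zero => exact zero_mem S
  | add s t hs ht => exact add_mem hs ht
  | neg s hs => exact neg_mem hs
  | mul s t hs ht => exact mul_mem hs ht

theorem Sat.of_injective {t : Term} (h : Sat B t) (f : A →ₙ+* B) (hf : Function.Injective f) :
    Sat A t := by
  intro v
  apply hf
  rw [map_eval, map_zero]
  exact h _

theorem Sat.of_surjective {t : Term} (h : Sat A t) (f : A →ₙ+* B)
    (hf : Function.Surjective f) : Sat B t := by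
  intro v
  choose w hw using hf
  have : v = fun i => f (w (v i)) := by ext i; rw [hw]
  rw [this, ← map_eval f (fun i => w (v i)), h, map_zero]

theorem InVar.of_injective {Γ : Set Term} (h : InVar Γ B) (f : A →ₙ+* B)
    (hf : Function.Injective f) : InVar Γ A := fun t ht => (h t ht).of_injective f hf

theorem InVar.of_surjective {Γ : Set Term} (h : InVar Γ A) (f : A →ₙ+* B)
    (hf : Function.Surjective f) : InVar Γ B := fun t ht => (h t ht).of_surjective f hf

end

end Pool.Agent.Helper455.Engel
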