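import Pool.Agent.Helper455.Engel.Good

namespace Pool.Agent.Helper455.Engel

/-- No two nonzero ideals have zero intersection. -/
def Unif (A : Type*) [NonUnitalRing A] : Prop :=
  ∀ I J : AddSubgroup A, IsIdA I → IsIdA J → I ⊓ J = ⊥ → I = ⊥ ∨ J = ⊥

section core
variable {A : Type} [NonUnitalRing A] (M : AddSubgroup A) (hM : IsIdA M)

/-- left multiplication on an ideal -/
def lM (s : A) : AddMonoid.End M where
  toFun x := ⟨s * x, hM.1 s x x.2⟩
  map_zero' := Subtype.ext (mul_zero s)
  map_add' x y := Subtype.ext (mul_add s x y)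

/-- right multiplication on an ideal -/
def rM (s : A) : AddMonoid.End M where
  toFun x := ⟨x * s, hM.2 s x x.2⟩
  map_zero' := Subtype.ext (zero_mul s)
  map_add' x y := Subtype.ext (add_mul (x : A) y s)

theorem lM_apply (s : A) (x : M) : ((lM M hM s x : M) : A) = s * x := rfl
theorem rM_apply (s : A) (x : M) : ((rM M hM s x : M) : A) = x * s := rfl

include hM in
theorem card_le_core [Finite A] (p e m : ℕ) (hp : p.Prime) (hm : 1 ≤ m) (hq : m + 1 = p ^ e)
    (hU : Unif A) (hne : M ≠ ⊥)
    (hchar : ∀ x : A, p • x = 0)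
    (h1 : ∀ s t : A, ∀ x ∈ M, (s * t - t * s) * x = 0 ∧ x * (s * t - t * s) = 0)
    (h2 : ∀ s : A, ∀ x ∈ M, (pw s m - s) * x = 0 ∧ x * (pw s m - s) = 0) :
    Nat.card M ≤ m + 1 ∧ ∃ (E : Type) (_ : AddCommGroup E) (_ : Finite E), Nat.card E ≤ m + 1 ∧
      ∃ f : A →+ E × E, ∀ s, f s = 0 → ∀ x ∈ M, s * x = 0 ∧ x * s = 0 := by
  classical
  obtain ⟨w, hw0⟩ : ∃ w : M, w ≠ 0 := by
    by_contra hcon
    push Not at hcon
    apply hne
    rw [eq_bot_iff]
    intro x hx
    have := hcon ⟨x, hx⟩
    exact congrArg Subtype.val this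
  have hntM : Nontrivial M := ⟨⟨w, 0, hw0⟩⟩
  let R := AddMonoid.End M
  have hntR : Nontrivial R := ⟨⟨1, 0, fun h => hw0 (by
    have := congrArg (fun f : R => f w) h
    exact this)⟩⟩
  have hfinR : Finite R :=
    Finite.of_injective (fun f : M →+ M => (f : M → M)) DFunLike.coe_injective
  have hpR : (p : R) = 0 := by
    ext x
    show (((p : R) x : M) : A) = 0
    have h3 : (p : R) x = p • x := by
      rw [← nsmul_one]; rfl
    rw [h3]
    exact hchar x
  have hcharR : CharP R p := by
    obtain ⟨c, hc⟩ := CharP.exists R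
    have hcp : c ∣ p := (CharP.cast_eq_zero_iff R c p).1 hpR
    rcases (Nat.dvd_prime hp).1 hcp with h | h
    · exact absurd h (CharP.char_ne_one R c)
    · rw [← h]; exact hc
  have hfact : Fact p.Prime := ⟨hp⟩
  let S : Set R := Set.range (lM M hM) ∪ Set.range (rM M hM)
  have hcommS : ∀ a ∈ S, ∀ b ∈ S, a * b = b * a := by
    rintro _ (⟨s, rfl⟩ | ⟨s, rfl⟩) _ (⟨t, rfl⟩ | ⟨t, rfl⟩)
    · ext x
      show s * (t * (x : A)) = t * (s * x)
      have := (h1 s t x x.2).1
      rw [sub_mul, sub_eq_zero] at this
      rw [← mul_assoc, this, mul_assoc]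
    · ext x
      show s * ((x : A) * t) = (s * x) * t
      rw [mul_assoc]
    · ext x
      show (t * (x : A)) * s = t * (x * s)
      rw [mul_assoc]
    · ext x
      show ((x : A) * t) * s = (x * s) * t
      have := (h1 s t x x.2).2
      rw [mul_sub, sub_eq_zero] at this
      rw [mul_assoc, mul_assoc, this]
  let E := Subring.closure S
  have hisc : IsMulCommutative E := Subring.isMulCommutative_closure hcommS
  have hcommE : ∀ a ∈ E, ∀ b ∈ E, a * b = b * a := fun a ha b hb =>
    congrArg Subtype.val (hisc.is_comm.comm (⟨a, ha⟩ : E) ⟨b, hb⟩)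
  have hlE : ∀ s, lM M hM s ∈ E := fun s => Subring.subset_closure (Or.inl ⟨s, rfl⟩)
  have hrE : ∀ s, rM M hM s ∈ E := fun s => Subring.subset_closure (Or.inr ⟨s, rfl⟩)
  have hlpow : ∀ (s : A) (n : ℕ), (lM M hM s) ^ (n + 1) = lM M hM (pw s n) := by
    intro s n
    induction n with
    | zero => rw [pow_one]; rfl
    | succ n ih =>
      rw [pow_succ, ih]
      ext x
      show pw s n * (s * (x : A)) = pw s (n + 1) * x
      rw [pw_succ, mul_assoc]
  have hrpow : ∀ (s : A) (n : ℕ), (rM M hM s) ^ (n + 1) = rM M hM (pw s n) := by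
    intro s n
    induction n with
    | zero => rw [pow_one]; rfl
    | succ n ih =>
      rw [pow_succ', ih]
      ext x
      show ((x : A) * pw s n) * s = x * pw s (n + 1)
      rw [pw_succ, mul_assoc]
  have hpowE : ∀ t ∈ E, t ^ (m + 1) = t := by
    intro t ht
    induction ht using Subring.closure_induction with
    | mem x hx =>
      rcases hx with ⟨s, rfl⟩ | ⟨s, rfl⟩
      · rw [hlpow]
        ext x
        show pw s m * (x : A) = s * x
        have := (h2 s x x.2).1
        rwa [sub_mul, sub_eq_zero] at this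
      · rw [hrpow]
        ext x
        show (x : A) * pw s m = x * s
        have := (h2 s x x.2).2
        rwa [mul_sub, sub_eq_zero] at this
    | zero => exact zero_pow (by omega)
    | one => exact one_pow _
    | add a b ha' hb' ha hb =>
      have hc : Commute a b := hcommE a ha' b hb'
      rw [hq, add_pow_char_pow_of_commute p e hc, ← hq, ha, hb]
    | neg a ha' ha =>
      have hc : Commute a (-a) := (Commute.refl a).neg_right
      have h3 := add_pow_char_pow_of_commute p e hc
      rw [← hq, add_neg_cancel, zero_pow (by omega), ha] at h3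
      exact (neg_eq_of_add_eq_zero_right h3.symm).symm
    | mul a b ha' hb' ha hb =>
      have hc : Commute a b := hcommE a ha' b hb'
      rw [hc.mul_pow, ha, hb]
  -- ideals from E-stable pieces
  have hunit : ∀ t ∈ E, t ≠ 0 → t ^ m = 1 := by
    intro t ht ht0
    set u := t ^ m with hu
    have huE : u ∈ E := pow_mem ht m
    have huu : u * u = u := by
      obtain ⟨m', rfl⟩ : ∃ m', m = m' + 1 := ⟨m - 1, by omega⟩
      rw [hu, ← pow_add]
      have : m' + 1 + (m' + 1) = (m' + 1 + 1) + m' := by omega
      rw [this, pow_add, hpowE t ht, ← pow_succ']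
    let I1 : AddSubgroup A :=
      { carrier := {a | ∃ h : a ∈ M, u ⟨a, h⟩ = ⟨a, h⟩}
        add_mem' := by
          rintro a b ⟨ha, ha'⟩ ⟨hb, hb'⟩
          refine ⟨add_mem ha hb, ?_⟩
          have : (⟨a + b, add_mem ha hb⟩ : M) = ⟨a, ha⟩ + ⟨b, hb⟩ := rfl
          rw [this, map_add, ha', hb']
        zero_mem' := ⟨zero_mem M, map_zero u⟩
        neg_mem' := by
          rintro a ⟨ha, ha'⟩
          refine ⟨neg_mem ha, ?_⟩
          have : (⟨-a, neg_mem ha⟩ : M) = -⟨a, ha⟩ := rfl
          rw [this, map_neg, ha'] }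
    let I2 : AddSubgroup A :=
      { carrier := {a | ∃ h : a ∈ M, u ⟨a, h⟩ = 0}
        add_mem' := by
          rintro a b ⟨ha, ha'⟩ ⟨hb, hb'⟩
          refine ⟨add_mem ha hb, ?_⟩
          have : (⟨a + b, add_mem ha hb⟩ : M) = ⟨a, ha⟩ + ⟨b, hb⟩ := rfl
          rw [this, map_add, ha', hb', add_zero]
        zero_mem' := ⟨zero_mem M, map_zero u⟩
        neg_mem' := by
          rintro a ⟨ha, ha'⟩
          refine ⟨neg_mem ha, ?_⟩
          have : (⟨-a, neg_mem ha⟩ : M) = -⟨a, ha⟩ := rfl
          rw [this, map_neg, ha', neg_zero] }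
    have hcl : ∀ (s : A) (x : M), u (lM M hM s x) = lM M hM s (u x) := fun s x =>
      congrArg (fun f : R => f x) (hcommE u huE _ (hlE s))
    have hcr : ∀ (s : A) (x : M), u (rM M hM s x) = rM M hM s (u x) := fun s x =>
      congrArg (fun f : R => f x) (hcommE u huE _ (hrE s))
    have hI1 : IsIdA I1 := by
      constructor
      · rintro s a ⟨ha, ha'⟩
        refine ⟨hM.1 s a ha, ?_⟩
        have := hcl s ⟨a, ha⟩
        rw [ha'] at this
        exact this
      · rintro s a ⟨ha, ha'⟩
        refine ⟨hM.2 s a ha, ?_⟩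
        have := hcr s ⟨a, ha⟩
        rw [ha'] at this
        exact this
    have hI2 : IsIdA I2 := by
      constructor
      · rintro s a ⟨ha, ha'⟩
        refine ⟨hM.1 s a ha, ?_⟩
        have := hcl s ⟨a, ha⟩
        rw [ha', map_zero] at this
        exact this
      · rintro s a ⟨ha, ha'⟩
        refine ⟨hM.2 s a ha, ?_⟩
        have := hcr s ⟨a, ha⟩
        rw [ha', map_zero] at this
        exact this
    have hint : I1 ⊓ I2 = ⊥ := by
      rw [eq_bot_iff]
      rintro a ⟨⟨ha, ha1⟩, ⟨_, ha2⟩⟩
      rw [ha1] at ha2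
      exact congrArg Subtype.val ha2
    have huap : ∀ x : M, u (u x) = u x := fun x => congrArg (fun f : R => f x) huu
    rcases hU I1 I2 hI1 hI2 hint with h | h
    · exfalso
      apply ht0
      have hu0 : u = 0 := by
        ext x
        have h3 : ((u x : M) : A) ∈ I1 := ⟨(u x).2, huap x⟩
        rw [h] at h3
        exact h3
      have h4 : t = t * u := by
        rw [hu, ← pow_succ', hpowE t ht]
      rw [h4, hu0, mul_zero]
    · ext x
      have h3 : ((x - u x : M) : A) ∈ I2 := by
        refine ⟨(x - u x).2, ?_⟩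
        show u (x - u x) = 0
        rw [map_sub, huap, sub_self]
      rw [h] at h3
      have h4 : ((x - u x : M) : A) = 0 := h3
      have h5 : x - u x = 0 := Subtype.ext h4
      have h6 : x = u x := sub_eq_zero.1 h5
      show ((u x : M) : A) = x
      rw [← h6]
  let _ : CommRing E := { (inferInstance : Ring E) with mul_comm := hisc.is_comm.comm }
  have hntE : Nontrivial E := ⟨⟨1, 0, fun h => one_ne_zero (congrArg Subtype.val h : (1 : R) = 0)⟩⟩
  have hnzd : NoZeroDivisors E := by
    refine ⟨fun {a b} hab => ?_⟩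
    by_contra hcon
    push Not at hcon
    have ha : a ^ m = 1 := Subtype.ext (hunit a a.2 (fun h => hcon.1 (Subtype.ext h)))
    apply hcon.2
    obtain ⟨m', rfl⟩ : ∃ m', m = m' + 1 := ⟨m - 1, by omega⟩
    calc b = a ^ (m' + 1) * b := by rw [ha, one_mul]
      _ = a ^ m' * (a * b) := by rw [pow_succ, mul_assoc]
      _ = 0 := by rw [hab, mul_zero]
  have hdom : IsDomain E := NoZeroDivisors.to_isDomain E
  have hfinE : Finite E := Subtype.finite
  have hcardE : Nat.card E ≤ m + 1 := by
    have hft : Fintype E := Fintype.ofFinite E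
    have hne0 : (Polynomial.X ^ (m + 1) - Polynomial.X : Polynomial E) ≠ 0 :=
      (Polynomial.monic_X_pow_sub
        (by rw [Polynomial.degree_X]; exact_mod_cast (by omega))).ne_zero
    have hdeg : (Polynomial.X ^ (m + 1) - Polynomial.X : Polynomial E).natDegree ≤ m + 1 :=
      (Polynomial.natDegree_sub_le _ _).trans (max_le (Polynomial.natDegree_X_pow_le _)
        (Polynomial.natDegree_X_le.trans (by omega)))
    rw [Nat.card_eq_fintype_card, ← Finset.card_univ]
    calc (Finset.univ : Finset E).card
        ≤ (Polynomial.X ^ (m + 1) - Polynomial.X : Polynomial E).roots.toFinset.card := by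
          apply Finset.card_le_card
          intro t _
          rw [Multiset.mem_toFinset, Polynomial.mem_roots hne0, Polynomial.IsRoot.def]
          have : t ^ (m + 1) = t := Subtype.ext (hpowE t t.2)
          simp [this]
      _ ≤ Multiset.card (Polynomial.X ^ (m + 1) - Polynomial.X : Polynomial E).roots :=
          Multiset.toFinset_card_le _
      _ ≤ (Polynomial.X ^ (m + 1) - Polynomial.X : Polynomial E).natDegree :=
          Polynomial.card_roots' _
      _ ≤ m + 1 := hdeg
  -- orbits
  let orb : M → AddSubgroup A := fun v =>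
    { carrier := {a | ∃ t ∈ E, ((t v : M) : A) = a}
      add_mem' := by
        rintro a b ⟨t, ht, rfl⟩ ⟨t', ht', rfl⟩
        exact ⟨t + t', add_mem ht ht', rfl⟩
      zero_mem' := ⟨0, zero_mem E, rfl⟩
      neg_mem' := by
        rintro a ⟨t, ht, rfl⟩
        exact ⟨-t, neg_mem ht, rfl⟩ }
  have horb : ∀ v, IsIdA (orb v) := by
    intro v
    constructor
    · rintro s a ⟨t, ht, rfl⟩
      exact ⟨lM M hM s * t, mul_mem (hlE s) ht, rfl⟩
    · rintro s a ⟨t, ht, rfl⟩
      exact ⟨rM M hM s * t, mul_mem (hrE s) ht, rfl⟩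
  have hself : ∀ v : M, (v : A) ∈ orb v := fun v => ⟨1, one_mem E, rfl⟩
  have hcover : ∀ v : M, ∃ t ∈ E, t w = v := by
    intro v
    by_contra hcon
    push Not at hcon
    have hint : orb w ⊓ orb v = ⊥ := by
      rw [eq_bot_iff]
      rintro a ⟨⟨t, ht, hta⟩, ⟨t', ht', hta'⟩⟩
      rw [AddSubgroup.mem_bot]
      by_contra ha0
      have ht'0 : t' ≠ 0 := by
        rintro rfl
        exact ha0 hta'.symm
      have h3 : t w = t' v := Subtype.ext (hta.trans hta'.symm)
      have h4 := hunit t' ht' ht'0
      obtain ⟨m', rfl⟩ : ∃ m', m = m' + 1 := ⟨m - 1, by omega⟩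
      apply hcon (t' ^ m' * t) (mul_mem (pow_mem ht' m') ht)
      show (t' ^ m') (t w) = v
      rw [h3]
      show (t' ^ m' * t') v = v
      rw [← pow_succ, h4]; rfl
    rcases hU _ _ (horb w) (horb v) hint with h | h
    · have := hself w
      rw [h] at this
      exact hw0 (Subtype.ext this)
    · have := hself v
      rw [h] at this
      have hv0 : v = 0 := Subtype.ext this
      exact hcon 0 (zero_mem E) (by rw [hv0]; rfl)
  refine ⟨?_, E, inferInstance, hfinE, hcardE, ?_⟩
  · refine le_trans ?_ hcardE
    apply Nat.card_le_card_of_surjective (fun t : E => (t : R) w)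
    intro v
    obtain ⟨t, ht, htv⟩ := hcover v
    exact ⟨⟨t, ht⟩, htv⟩
  · refine ⟨{ toFun := fun s => (⟨lM M hM s, hlE s⟩, ⟨rM M hM s, hrE s⟩)
              map_zero' := ?_
              map_add' := ?_ }, ?_⟩
    · apply Prod.ext
      · apply Subtype.ext; ext x; exact zero_mul (x : A)
      · apply Subtype.ext; ext x; exact mul_zero (x : A)
    · intro s t
      apply Prod.ext
      · apply Subtype.ext; ext x; exact add_mul s t (x : A)
      · apply Subtype.ext; ext x; exact mul_add (x : A) s t
    · intro s hs x hx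
      have hs1 : lM M hM s = 0 := congrArg Subtype.val (congrArg Prod.fst hs)
      have hs2 : rM M hM s = 0 := congrArg Subtype.val (congrArg Prod.snd hs)
      constructor
      · exact congrArg Subtype.val (congrArg (fun f : R => f ⟨x, hx⟩) hs1)
      · exact congrArg Subtype.val (congrArg (fun f : R => f ⟨x, hx⟩) hs2)

end core

/-- Finite good rings without direct ideal decompositions are small. -/
theorem Good.card_le {A : Type} [NonUnitalRing A] [Finite A] {p e m : ℕ} (hp : p.Prime)
    (hm : 1 ≤ m) (hq : m + 1 = p ^ e) (h : Good p m A) (hU : Unif A) :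
    Nat.card A ≤ (m + 1) ^ 3 := by
  classical
  obtain ⟨I, hI, hD, hII⟩ := h.exists_ideal
  have hc : ∀ s t : A, s * t - t * s ∈ I := fun s t => hD _ (Or.inr ⟨s, t, rfl⟩)
  have hf : ∀ s : A, pw s m - s ∈ I := fun s => hD _ (Or.inl ⟨s, rfl⟩)
  have hbig : m + 1 ≤ (m + 1) ^ 3 := Nat.le_self_pow (by norm_num) _
  by_cases hI0 : I = ⊥
  · -- commutative reduced case
    by_cases htop : (⊤ : AddSubgroup A) = ⊥
    · have h1 : ∀ a : A, a = 0 := by
        intro a
        have : a ∈ (⊤ : AddSubgroup A) := trivial
        rw [htop] at this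
        exact this
      have hs : Subsingleton A := ⟨fun a b => by rw [h1 a, h1 b]⟩
      have : Nat.card A ≤ 1 := Finite.card_le_one_iff_subsingleton.2 hs
      omega
    · have h1 := card_le_core (⊤ : AddSubgroup A) ⟨fun _ _ _ => trivial, fun _ _ _ => trivial⟩
        p e m hp hm hq hU htop h.char
        (fun s t x _ => by
          have := hc s t
          rw [hI0, AddSubgroup.mem_bot] at this
          rw [this, zero_mul, mul_zero]; exact ⟨rfl, rfl⟩)
        (fun s x _ => by
          have := hf s
          rw [hI0, AddSubgroup.mem_bot] at this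
          rw [this, zero_mul, mul_zero]; exact ⟨rfl, rfl⟩)
      have h2 : Nat.card (⊤ : AddSubgroup A) = Nat.card A := AddSubgroup.card_top
      rw [h2] at h1
      exact h1.1.trans hbig
  · obtain ⟨hcardI, E, iE, hfinE, hcardE, f, hker⟩ := card_le_core I hI p e m hp hm hq hU hI0
      h.char (fun s t x hx => ⟨hII _ (hc s t) _ hx, hII _ hx _ (hc s t)⟩)
      (fun s x hx => ⟨hII _ (hf s) _ hx, hII _ hx _ (hf s)⟩)
    -- the annihilator is contained in `I`
    have hann : ∀ s : A, (∀ x ∈ I, s * x = 0 ∧ x * s = 0) → s ∈ I := by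
      intro s hs
      by_contra hsI
      have hpwann : ∀ n, ∀ x ∈ I, pw s n * x = 0 ∧ x * pw s n = 0 := by
        intro n x hx
        induction n with
        | zero => exact hs x hx
        | succ n ih =>
          rw [pw_succ]
          refine ⟨by rw [mul_assoc, (hs x hx).1, mul_zero], ?_⟩
          rw [← mul_assoc, ih.2, zero_mul]
      set e0 := pw s (m - 1) with he0
      have hse0 : s * e0 = pw s m := by
        rw [he0, ← pw_succ']; congr 1; omega
      have he0I : e0 ∉ I := by
        intro hcon
        apply hsI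
        have h1 : pw s m ∈ I := by rw [← hse0]; exact hI.1 _ _ hcon
        have h2 := sub_mem h1 (hf s)
        rwa [sub_sub_cancel] at h2
      have hdiff : e0 * e0 - e0 ∈ I := by
        rcases Nat.lt_or_ge m 2 with hm2 | hm2
        · obtain rfl : m = 1 := by omega
          exact hf s
        · have h1 : e0 * e0 = pw s m * pw s (m - 2) := by
            rw [he0, pw_mul_pw, pw_mul_pw]; congr 1; omega
          have h2 : e0 = s * pw s (m - 2) := by
            rw [he0, ← pw_succ']; congr 1; omega
          have h3 : e0 * e0 - e0 = (pw s m - s) * pw s (m - 2) := by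
            rw [sub_mul, ← h1, ← h2]
          rw [h3]; exact hI.2 _ _ (hf s)
      set i := e0 * e0 - e0 with hi
      have he0i := (hpwann (m - 1) i hdiff)
      rw [← he0] at he0i
      have hii : i * i = 0 := hII i hdiff i hdiff
      set ee := e0 * e0 with hee
      have hee' : ee = e0 + i := by rw [hi]; abel
      have hidem : ee * ee = ee := by
        calc ee * ee = (e0 + i) * (e0 + i) := by rw [hee']
          _ = e0 * e0 + e0 * i + (i * e0 + i * i) := by rw [add_mul, mul_add, mul_add]
          _ = ee := by rw [he0i.1, he0i.2, hii]; simp [hee]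
      have heeann : ∀ x ∈ I, ee * x = 0 ∧ x * ee = 0 := by
        intro x hx
        have h1 := hpwann (m - 1) x hx
        rw [← he0] at h1
        refine ⟨by rw [hee, mul_assoc, h1.1, mul_zero], by rw [hee, ← mul_assoc, h1.2, zero_mul]⟩
      have heeI : ee ∉ I := by
        intro hcon
        apply he0I
        have : e0 = ee - i := by rw [hee']; abel
        rw [this]; exact sub_mem hcon hdiff
      have hcentral : ∀ t : A, ee * t = t * ee := by
        intro t
        have h1 := heeann _ (hc ee t)
        have h2 : ee * (ee * t) = ee * (t * ee) := by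
          have := h1.1; rwa [mul_sub, sub_eq_zero] at this
        have h3 : (ee * t) * ee = (t * ee) * ee := by
          have := h1.2; rwa [sub_mul, sub_eq_zero] at this
        calc ee * t = (ee * ee) * t := by rw [hidem]
          _ = ee * (ee * t) := mul_assoc _ _ _
          _ = ee * (t * ee) := h2
          _ = (ee * t) * ee := (mul_assoc _ _ _).symm
          _ = (t * ee) * ee := h3
          _ = t * (ee * ee) := mul_assoc _ _ _
          _ = t * ee := by rw [hidem]
      let J : AddSubgroup A :=
        { carrier := {a | ee * a = a}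
          add_mem' := fun {a b} ha hb => by
            show ee * (a + b) = a + b
            rw [mul_add, show ee * a = a from ha, show ee * b = b from hb]
          zero_mem' := mul_zero ee
          neg_mem' := fun {a} ha => by
            show ee * (-a) = -a
            rw [mul_neg, show ee * a = a from ha] }
      have hJ : IsIdA J := by
        constructor
        · intro t a ha
          show ee * (t * a) = t * a
          rw [← mul_assoc, hcentral, mul_assoc, show ee * a = a from ha]
        · intro t a ha
          show ee * (a * t) = a * t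
          rw [← mul_assoc, show ee * a = a from ha]
      have hJI : J ⊓ I = ⊥ := by
        rw [eq_bot_iff]
        rintro a ⟨ha, haI⟩
        have h1 := (heeann a haI).1
        rw [show ee * a = a from ha] at h1
        exact h1
      rcases hU J I hJ hI hJI with h1 | h1
      · have h2 : ee ∈ J := hidem
        rw [h1, AddSubgroup.mem_bot] at h2
        exact heeI (by rw [h2]; exact zero_mem I)
      · exact hI0 h1
    have hkerI : Nat.card f.ker ≤ m + 1 := by
      refine le_trans ?_ hcardI
      exact Nat.card_le_card_of_injective (fun x : f.ker => (⟨x, hann x (hker x x.2)⟩ : I))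
        (fun x y hxy => Subtype.ext (congrArg Subtype.val hxy : _))
    have hrange : Nat.card (A ⧸ f.ker) ≤ (m + 1) * (m + 1) := by
      have h1 : Nat.card (A ⧸ f.ker) = Nat.card f.range :=
        Nat.card_congr (QuotientAddGroup.quotientKerEquivRange f).toEquiv
      rw [h1]
      calc Nat.card f.range ≤ Nat.card (E × E) :=
            Nat.card_le_card_of_injective (fun x : f.range => (x : E × E)) Subtype.val_injective
        _ = Nat.card E * Nat.card E := Nat.card_prod E E
        _ ≤ (m + 1) * (m + 1) := Nat.mul_le_mul hcardE hcardE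
    rw [AddSubgroup.card_eq_card_quotient_mul_card_addSubgroup f.ker]
    calc Nat.card (A ⧸ f.ker) * Nat.card f.ker ≤ ((m + 1) * (m + 1)) * (m + 1) :=
          Nat.mul_le_mul hrange hkerI
      _ = (m + 1) ^ 3 := by ring

end Pool.Agent.Helper455.Engel
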