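import Mathlib

namespace Pool.Agent.Helper455.Engel

/-- multiplication tables on `Fin m`, `m ≤ N` -/
abbrev Tab (N : ℕ) : Type :=
  Σ m : Fin (N + 1), ((Fin m → Fin m → Fin m) × (Fin m → Fin m → Fin m))

/-- `A` has addition and multiplication table `τ` -/
def Realizes {N : ℕ} (τ : Tab N) (A : Type) [NonUnitalRing A] : Prop :=
  ∃ e : A ≃ Fin τ.1, (∀ a b, e (a + b) = τ.2.1 (e a) (e b)) ∧
    (∀ a b, e (a * b) = τ.2.2 (e a) (e b))

theorem Realizes.iso {N : ℕ} {τ : Tab N} {A B : Type} [NonUnitalRing A] [NonUnitalRing B]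
    (hA : Realizes τ A) (hB : Realizes τ B) : Nonempty (A ≃+* B) := by
  obtain ⟨e, he1, he2⟩ := hA
  obtain ⟨f, hf1, hf2⟩ := hB
  refine ⟨{ e.trans f.symm with
    map_mul' := ?_
    map_add' := ?_ }⟩
  · intro a b
    show f.symm (e (a * b)) = f.symm (e a) * f.symm (e b)
    apply f.injective
    rw [hf2, f.apply_symm_apply, f.apply_symm_apply, f.apply_symm_apply, he2]
  · intro a b
    show f.symm (e (a + b)) = f.symm (e a) + f.symm (e b)
    apply f.injective
    rw [hf1, f.apply_symm_apply, f.apply_symm_apply, f.apply_symm_apply, he1]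

theorem exists_realizes {N : ℕ} (A : Type) [NonUnitalRing A] [Finite A] (h : Nat.card A ≤ N) :
    ∃ τ : Tab N, Realizes τ A := by
  let e : A ≃ Fin (Nat.card A) := Finite.equivFin A
  refine ⟨⟨⟨Nat.card A, by omega⟩, (fun i j => e (e.symm i + e.symm j)),
    (fun i j => e (e.symm i * e.symm j))⟩, e, ?_, ?_⟩
  · intro a b
    show e (a + b) = e (e.symm (e a) + e.symm (e b))
    rw [e.symm_apply_apply, e.symm_apply_apply]
  · intro a b
    show e (a * b) = e (e.symm (e a) * e.symm (e b))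
    rw [e.symm_apply_apply, e.symm_apply_apply]

/-- There are finitely many rings of bounded order up to isomorphism. -/
theorem finitely_many (N : ℕ) (Pr : ∀ (A : Type) [NonUnitalRing A], Prop) :
    ∃ (n : ℕ) (C : Fin n → Type) (inst : ∀ i, NonUnitalRing (C i)), (∀ i, Pr (C i)) ∧
      ∀ (A : Type) [NonUnitalRing A] [Finite A], Nat.card A ≤ N → Pr A →
        ∃ i, Nonempty (A ≃+* C i) := by
  classical
  let G : Tab N → Prop := fun τ => ∃ (A : Type) (_ : NonUnitalRing A), Pr A ∧ Realizes τ A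
  have hfin : Finite {τ // G τ} := Subtype.finite
  let e : {τ // G τ} ≃ Fin (Nat.card {τ // G τ}) := Finite.equivFin _
  choose A iA hA hR using fun x : {τ // G τ} => x.2
  refine ⟨Nat.card {τ // G τ}, fun i => A (e.symm i), fun i => iA (e.symm i),
    fun i => hA (e.symm i), ?_⟩
  intro B iB fB hcard hPr
  obtain ⟨τ, hτ⟩ := exists_realizes B hcard
  have hG : G τ := ⟨B, iB, hPr, hτ⟩
  refine ⟨e ⟨τ, hG⟩, ?_⟩
  have h1 : ∀ x : {τ // G τ}, x = ⟨τ, hG⟩ → Nonempty (B ≃+* A x) := by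
    rintro x rfl
    exact hτ.iso (hR ⟨τ, hG⟩)
  exact h1 _ (e.symm_apply_apply _)

end Pool.Agent.Helper455.Engel
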