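import Pool.Agent.Helper455.Engel.LocFin
import Pool.Agent.Helper455.Engel.SI
import Pool.Agent.Helper455.Engel.Tables

namespace Pool.Agent.Helper455.Engel

/-- strict upper bound on the indices of variables of a term -/
def Term.bd : Term → ℕ
  | .var i => i + 1
  | .zero => 0
  | .add s t => max s.bd t.bd
  | .neg s => s.bd
  | .mul s t => max s.bd t.bd

theorem eval_congr {A : Type*} [NonUnitalRing A] (t : Term) (v w : ℕ → A)
    (h : ∀ i < t.bd, v i = w i) : t.eval v = t.eval w := by
  induction t with
  | var i => exact h i (Nat.lt_succ_self i)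
  | zero => rfl
  | add s t hs ht =>
    simp only [Term.eval]
    rw [hs fun i hi => h i (lt_of_lt_of_le hi (le_max_left _ _)),
      ht fun i hi => h i (lt_of_lt_of_le hi (le_max_right _ _))]
  | neg s hs =>
    simp only [Term.eval]
    rw [hs h]
  | mul s t hs ht =>
    simp only [Term.eval]
    rw [hs fun i hi => h i (lt_of_lt_of_le hi (le_max_left _ _)),
      ht fun i hi => h i (lt_of_lt_of_le hi (le_max_right _ _))]

/-- quotients of rings without unit -/
theorem exists_quotA {A : Type} [NonUnitalRing A] (I : AddSubgroup A) (hI : IsIdA I) :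
    ∃ (B : Type) (_ : NonUnitalRing B) (π : A →ₙ+* B), Function.Surjective π ∧
      ∀ a, π a = 0 ↔ a ∈ I := by
  let J : TwoSidedIdeal A := TwoSidedIdeal.mk' I (zero_mem I) (fun h1 h2 => add_mem h1 h2)
    (fun h => neg_mem h) (fun h => hI.1 _ _ h) (fun h => hI.2 _ _ h)
  refine ⟨J.ringCon.Quotient, inferInstance,
    { toFun := fun a => (a : J.ringCon.Quotient)
      map_mul' := fun a b => rfl
      map_zero' := rfl
      map_add' := fun a b => rfl }, ?_, ?_⟩
  · intro b
    obtain ⟨a, rfl⟩ := Quotient.exists_rep b
    exact ⟨a, rfl⟩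
  · intro a
    have h1 : ((a : J.ringCon.Quotient) = ((0 : A) : J.ringCon.Quotient)) ↔ J.ringCon a 0 :=
      RingCon.eq J.ringCon
    show ((a : J.ringCon.Quotient) = ((0 : A) : J.ringCon.Quotient)) ↔ a ∈ I
    rw [h1, ← TwoSidedIdeal.mem_iff]
    exact TwoSidedIdeal.mem_mk' _ _ _ _ _ _ _

/-- separating a nonzero element of a finite ring in an indecomposable quotient -/
theorem exists_unif {A : Type} [NonUnitalRing A] [Finite A] (a : A) (ha : a ≠ 0) :
    ∃ (B : Type) (_ : NonUnitalRing B) (π : A →ₙ+* B), Function.Surjective π ∧ π a ≠ 0 ∧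
      Unif B := by
  classical
  let S : Set (AddSubgroup A) := {I | IsIdA I ∧ a ∉ I}
  have hfin : S.Finite := Set.toFinite S
  have hne : S.Nonempty := ⟨⊥, ⟨fun x b hb => by
    rw [AddSubgroup.mem_bot] at hb ⊢; rw [hb, mul_zero], fun x b hb => by
    rw [AddSubgroup.mem_bot] at hb ⊢; rw [hb, zero_mul]⟩, fun h => ha h⟩
  obtain ⟨P, hP⟩ := hfin.exists_maximal hne
  obtain ⟨B, iB, π, hπ, hker⟩ := exists_quotA P hP.prop.1
  refine ⟨B, iB, π, hπ, fun h => hP.prop.2 ((hker a).1 h), ?_⟩
  intro I J hI hJ hIJ
  have key : ∀ K : AddSubgroup B, IsIdA K → K ≠ ⊥ → π a ∈ K := by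
    intro K hK hK0
    by_contra hcon
    let K' : AddSubgroup A := K.comap (π : A →+ B)
    have hK' : K' ∈ S := by
      refine ⟨⟨?_, ?_⟩, hcon⟩
      · intro x b hb
        show π (x * b) ∈ K
        rw [map_mul]; exact hK.1 _ _ hb
      · intro x b hb
        show π (b * x) ∈ K
        rw [map_mul]; exact hK.2 _ _ hb
    have hle : P ≤ K' := by
      intro x hx
      show π x ∈ K
      rw [(hker x).2 hx]; exact zero_mem K
    have hge := hP.le_of_ge hK' hle
    apply hK0
    rw [eq_bot_iff]
    intro b hb
    obtain ⟨x, rfl⟩ := hπ b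
    rw [AddSubgroup.mem_bot, hker]
    exact hge hb
  by_contra hcon
  push Not at hcon
  have h1 := key I hI hcon.1
  have h2 := key J hJ hcon.2
  have h3 : π a ∈ I ⊓ J := ⟨h1, h2⟩
  rw [hIJ, AddSubgroup.mem_bot, hker] at h3
  exact hP.prop.2 h3

/-- critical rings are indecomposable -/
theorem Critical.unif {R : Type} [NonUnitalRing R] (h : Critical R) : Unif R := by
  obtain ⟨hfin, t, ht, hnt⟩ := h
  intro I J hI hJ hIJ
  by_contra hcon
  push Not at hcon
  apply hnt
  have key : ∀ K : AddSubgroup R, IsIdA K → K ≠ ⊥ → ∀ v : ℕ → R, t.eval v ∈ K := by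
    intro K hK hK0 v
    obtain ⟨B, iB, π, hπ, hker⟩ := exists_quotA K hK
    have h1 : Sat B t := by
      apply ht B
      · refine ⟨⊤, π.comp (NonUnitalSubringClass.subtype ⊤), ?_⟩
        intro b
        obtain ⟨r, rfl⟩ := hπ b
        exact ⟨⟨r, trivial⟩, rfl⟩
      · refine ⟨fun e => hK0 ?_⟩
        have h2 : Function.Surjective (fun r => e (π r)) := e.surjective.comp hπ
        have h3 : Function.Injective (fun r => e (π r)) := Finite.injective_iff_surjective.2 h2
        rw [eq_bot_iff]
        intro x hx
        rw [AddSubgroup.mem_bot]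
        apply h3
        show e (π x) = e (π 0)
        rw [(hker x).2 hx, map_zero π]
    rw [← hker, map_eval]
    exact h1 _
  intro v
  have h3 : t.eval v ∈ I ⊓ J := ⟨key I hI hcon.1 v, key J hJ hcon.2 v⟩
  rw [hIJ] at h3
  exact h3

/-- All identities of a ring. -/
def Ident (R : Type) [NonUnitalRing R] : Set Term := {t | Sat R t}

theorem inVar_Ident (R : Type) [NonUnitalRing R] : InVar (Ident R) R := fun _ ht => ht

/-- Theorem B: a good ring generates a Cross variety. -/
theorem cross_of_good {R : Type} [NonUnitalRing R] {p e m : ℕ} (hp : p.Prime) (hm : 1 ≤ m)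
    (hq : m + 1 = p ^ e) (h : Good p m R) : IsCross (Ident R) := by
  classical
  have hgood : ∀ (A : Type) [NonUnitalRing A], InVar (Ident R) A → Good p m A := by
    intro A _ hA
    rw [← good_iff]
    intro t ht
    exact hA t ((good_iff p m).2 h t ht)
  refine ⟨?_, ?_, ?_⟩
  · -- finite basis
    obtain ⟨n, C, iC, hC, hC'⟩ := finitely_many ((m + 1) ^ 3)
      (fun A _ => ¬ InVar (Ident R) A)
    have hex : ∀ i, ∃ t, Sat R t ∧ ¬ Sat (C i) t := by
      intro i
      have := hC i
      unfold InVar at this
      push Not at this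
      exact this
    choose t ht1 ht2 using hex
    refine ⟨Sig p m ∪ Set.range t, (Sig_finite p m).union (Set.finite_range t), ?_⟩
    intro A iA
    constructor
    · intro hA
      have hAgood : Good p m A := (good_iff p m).1 fun s hs => hA s (Or.inl hs)
      intro s hs
      by_contra hcon
      unfold Sat at hcon
      push Not at hcon
      obtain ⟨v, hv⟩ := hcon
      -- a finitely generated subring
      let X : Set A := v '' (Set.Iio s.bd)
      let A1 := NonUnitalSubring.closure X
      have hA1 : InVar (Sig p m ∪ Set.range t) A1 :=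
        hA.of_injective (NonUnitalSubringClass.subtype A1) Subtype.val_injective
      have hA1good : Good p m A1 := (good_iff p m).1 fun s hs => hA1 s (Or.inl hs)
      let X1 : Set A1 := Subtype.val ⁻¹' X
      have hX1 : X1.Finite := Set.Finite.preimage Subtype.val_injective.injOn
        ((Set.finite_Iio s.bd).image v)
      have hgen : NonUnitalSubring.closure X1 = ⊤ := by
        rw [eq_top_iff]
        rintro ⟨x, hx⟩ _
        induction hx using NonUnitalSubring.closure_induction with
        | mem x hx => exact NonUnitalSubring.subset_closure hx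
        | zero => exact zero_mem _
        | add a b _ _ ha hb => exact add_mem (ha trivial) (hb trivial)
        | neg a _ ha => exact neg_mem (ha trivial)
        | mul a b _ _ ha hb => exact mul_mem (ha trivial) (hb trivial)
      have hfin1 : Finite A1 := hA1good.locally_finite hp.pos hm X1 hX1 hgen
      let w : ℕ → A1 := fun i => if h : i < s.bd then
        ⟨v i, NonUnitalSubring.subset_closure ⟨i, h, rfl⟩⟩ else 0
      have hw : s.eval w ≠ 0 := by
        intro h0
        apply hv
        have h1 := map_eval (NonUnitalSubringClass.subtype A1) w s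
        rw [h0, map_zero] at h1
        rw [h1]
        apply eval_congr
        intro i hi
        simp [w, hi]
      obtain ⟨B, iB, π, hπ, hπw, hU⟩ := exists_unif (s.eval w) hw
      have hB : InVar (Sig p m ∪ Set.range t) B := hA1.of_surjective π hπ
      have hBgood : Good p m B := (good_iff p m).1 fun s hs => hB s (Or.inl hs)
      have hBfin : Finite B := Finite.of_surjective π hπ
      have hcard := hBgood.card_le hp hm hq hU
      have hBnot : ¬ InVar (Ident R) B := by
        intro hB'
        apply hπw
        rw [map_eval]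
        exact hB' s hs _
      obtain ⟨i, ⟨φ⟩⟩ := hC' B hcard hBnot
      apply ht2 i
      have h2 : Sat B (t i) := hB (t i) (Or.inr ⟨i, rfl⟩)
      exact h2.of_surjective (φ : B →ₙ+* C i) φ.surjective
    · intro hA s hs
      rcases hs with hs | ⟨i, rfl⟩
      · exact hA s ((good_iff p m).2 h s hs)
      · exact hA _ (ht1 i)
  · intro A _ hA s hs hgen
    exact (hgood A hA).locally_finite hp.pos hm s hs hgen
  · obtain ⟨n, C, iC, -, hC'⟩ := finitely_many ((m + 1) ^ 3) (fun A _ => True)
    refine ⟨n, C, iC, fun S iS hS hcrit => ?_⟩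
    have hfin : Finite S := hcrit.1
    exact hC' S ((hgood S hS).card_le hp hm hq hcrit.unif) trivial

end Pool.Agent.Helper455.Engel
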