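import Mathlib

/-!
Definitions for the theorem on minimal non-Engel varieties of associative rings.

All rings are associative and not necessarily unital (`NonUnitalRing`), in the universe `Type`.
A variety is given by a set `Γ` of ring terms; it consists of all rings in which every term of `Γ`
is identically zero.
-/

namespace Pool.Agent.Helper455.Engel

/-- The iterated commutator: `eng x y 0 = x`, `eng x y (n+1) = [eng x y n, y]`. -/
def eng {A : Type*} [NonUnitalRing A] (x y : A) : ℕ → A
  | 0 => x
  | n + 1 => eng x y n * y - y * eng x y n

/-- Ring terms in the signature `(+, -, 0, ·)` over the variables `x₀, x₁, …`. -/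
inductive Term where
  | var : ℕ → Term
  | zero : Term
  | add : Term → Term → Term
  | neg : Term → Term
  | mul : Term → Term → Term

/-- The value of a term in a ring (not necessarily unital) at a valuation of the variables. -/
def Term.eval {A : Type*} [NonUnitalRing A] (v : ℕ → A) : Term → A
  | .var i => v i
  | .zero => 0
  | .add s t => s.eval v + t.eval v
  | .neg s => -(s.eval v)
  | .mul s t => s.eval v * t.eval v

/-- `A` satisfies the polynomial identity `t = 0`. -/
def Sat (A : Type*) [NonUnitalRing A] (t : Term) : Prop := ∀ v : ℕ → A, t.eval v = 0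

/-- `A` belongs to the variety defined by the identities in `Γ`. -/
def InVar (Γ : Set Term) (A : Type*) [NonUnitalRing A] : Prop := ∀ t ∈ Γ, Sat A t

/-- The variety defined by `Γ` is Engel: for some `n ≥ 1` every ring in it satisfies
`[x,_n y] = 0`. -/
def IsEngel (Γ : Set Term) : Prop :=
  ∃ n : ℕ, 1 ≤ n ∧ ∀ (A : Type) [NonUnitalRing A], InVar Γ A → ∀ x y : A, eng x y n = 0

/-- The variety defined by `Γ` is minimal non-Engel: it is not Engel, and every proper
subvariety (given by some set `Δ` of identities) is Engel. -/
def MinimalNonEngel (Γ : Set Term) : Prop :=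
  ¬ IsEngel Γ ∧ ∀ Δ : Set Term,
    (∀ (A : Type) [NonUnitalRing A], InVar Δ A → InVar Γ A) →
    (∃ (A : Type) (_ : NonUnitalRing A), InVar Γ A ∧ ¬ InVar Δ A) → IsEngel Δ

/-- The variety defined by `Γ` can be defined by finitely many identities. -/
def FinitelyBased (Γ : Set Term) : Prop :=
  ∃ Δ : Set Term, Δ.Finite ∧ ∀ (A : Type) [NonUnitalRing A], InVar Δ A ↔ InVar Γ A

/-- Every finitely generated ring of the variety defined by `Γ` is finite. -/
def LocallyFinite (Γ : Set Term) : Prop :=
  ∀ (A : Type) [NonUnitalRing A], InVar Γ A →
    ∀ s : Set A, s.Finite → NonUnitalSubring.closure s = ⊤ → Finite A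

/-- `F` is a factor of `R`: a homomorphic image of a subring of `R`. -/
def IsFactor (F R : Type) [NonUnitalRing F] [NonUnitalRing R] : Prop :=
  ∃ (S : NonUnitalSubring R) (f : S →ₙ+* F), Function.Surjective f

/-- `R` is critical: `R` is finite and does not belong to the variety generated by its proper
factors, that is, some identity holds in all proper factors of `R` but not in `R`. -/
def Critical (R : Type) [NonUnitalRing R] : Prop :=
  Finite R ∧ ∃ t : Term,
    (∀ (F : Type) [NonUnitalRing F], IsFactor F R → IsEmpty (F ≃+* R) → Sat F t) ∧ ¬ Sat R t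

/-- The variety defined by `Γ` contains only finitely many critical rings up to isomorphism. -/
def FinManyCritical (Γ : Set Term) : Prop :=
  ∃ (n : ℕ) (C : Fin n → Type) (_ : ∀ i, NonUnitalRing (C i)),
    ∀ (R : Type) [NonUnitalRing R], InVar Γ R → Critical R → ∃ i, Nonempty (R ≃+* C i)

/-- Cross varieties. -/
def IsCross (Γ : Set Term) : Prop := FinitelyBased Γ ∧ LocallyFinite Γ ∧ FinManyCritical Γ

end Pool.Agent.Helper455.Engel
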