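import Pool.Agent.Helper455.Engel.Words2

namespace Pool.Agent.Helper455.Engel

open MulOpposite

theorem evN_map_ringHom {α V W : Type*} [Fintype α] [Ring V] [Ring W] (φ : V →+* W) (N : ℕ)
    (f : List α → ℤ) (b : α → V) : φ (evN N f b) = evN N f (fun i => φ (b i)) := by
  induction N generalizing f with
  | zero => simp [evN_zero']
  | succ N ih => simp [evN_succ, ih]

section kap
variable {D : Type*} [DivisionRing D] {K : Type*} [Field K] (ρ : K →+* Dᵐᵒᵖ) (B : AddSubgroup D)

/-- left multiplication -/
noncomputable def Lm : D →+* AddMonoid.End D := Module.toAddMonoidEnd D D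
/-- right multiplication by elements of `K` -/
noncomputable def Rm : K →+* AddMonoid.End D := (Module.toAddMonoidEnd Dᵐᵒᵖ D).comp ρ

theorem Lm_apply (a v : D) : (Lm a : AddMonoid.End D) v = a * v := rfl
theorem Rm_apply (k : K) (v : D) : (Rm ρ k : AddMonoid.End D) v = v * unop (ρ k) := rfl

theorem Lm_Rm_comm (a : D) (k : K) : (Lm a : AddMonoid.End D) * Rm ρ k = Rm ρ k * Lm a := by
  ext v
  show a * (v * unop (ρ k)) = (a * v) * unop (ρ k)
  rw [mul_assoc]

/-- the generators of the multiplication ring -/
def genE : Set (AddMonoid.End D) := {f | ∃ a ∈ B, ∃ k : K, f = Lm a * Rm ρ k}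

/-- the multiplication ring spanned by `L_a R_k` -/
def mulE : AddSubgroup (AddMonoid.End D) := AddSubgroup.closure (genE ρ B)

theorem mulE_lin {e : AddMonoid.End D} (he : e ∈ mulE ρ B) (v : D) (k : K) :
    e (v * unop (ρ k)) = e v * unop (ρ k) := by
  induction he using AddSubgroup.closure_induction with
  | mem f hf =>
    obtain ⟨a, _, k', rfl⟩ := hf
    show a * ((v * unop (ρ k)) * unop (ρ k')) = (a * (v * unop (ρ k'))) * unop (ρ k)
    have h1 : unop (ρ k) * unop (ρ k') = unop (ρ k') * unop (ρ k) := by
      rw [← unop_mul, ← unop_mul, ← map_mul, ← map_mul, mul_comm]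
    rw [mul_assoc v, h1]; simp only [mul_assoc]
  | zero => simp
  | add x y _ _ hx hy =>
    show x (v * unop (ρ k)) + y (v * unop (ρ k)) = (x v + y v) * unop (ρ k)
    rw [hx, hy, add_mul]
  | neg x _ hx =>
    show -(x (v * unop (ρ k))) = (-(x v)) * unop (ρ k)
    rw [hx, neg_mul]

theorem mulE_left (hB : ∀ a ∈ B, ∀ b ∈ B, a * b ∈ B) {a : D} (ha : a ∈ B)
    {e : AddMonoid.End D} (he : e ∈ mulE ρ B) : Lm a * e ∈ mulE ρ B := by
  induction he using AddSubgroup.closure_induction with
  | mem f hf =>
    obtain ⟨a', ha', k', rfl⟩ := hf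
    apply AddSubgroup.subset_closure
    exact ⟨a * a', hB a ha a' ha', k', by rw [map_mul, mul_assoc]⟩
  | zero => rw [mul_zero]; exact zero_mem _
  | add x y _ _ hx hy => rw [mul_add]; exact add_mem hx hy
  | neg x _ hx =>
    have h : Lm a * -x = -(Lm a * x) := by ext v; exact mul_neg a (x v)
    rw [h]; exact neg_mem hx

theorem mulE_right {e : AddMonoid.End D} (he : e ∈ mulE ρ B) (k : K) :
    Rm ρ k * e ∈ mulE ρ B := by
  induction he using AddSubgroup.closure_induction with
  | mem f hf =>
    obtain ⟨a', ha', k', rfl⟩ := hf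
    apply AddSubgroup.subset_closure
    refine ⟨a', ha', k * k', ?_⟩
    rw [← mul_assoc, ← Lm_Rm_comm, mul_assoc, ← map_mul]
  | zero => rw [mul_zero]; exact zero_mem _
  | add x y _ _ hx hy => rw [mul_add]; exact add_mem hx hy
  | neg x _ hx =>
    have h : Rm ρ k * -x = -(Rm ρ k * x) := by ext v; exact neg_mul (x v) (unop (ρ k))
    rw [h]; exact neg_mem hx

/-- the right `K`-module structure on `D` -/
@[reducible] noncomputable def modK : Module K D := Module.compHom D ρ

theorem modK_smul (k : K) (v : D) : (letI := modK ρ; k • v) = v * unop (ρ k) := rfl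

/-- `e` kills the span of what it kills -/
theorem mulE_span {e : AddMonoid.End D} (he : e ∈ mulE ρ B) (S : Set D) (hS : ∀ w ∈ S, e w = 0)
    {v : D} (hv : letI := modK ρ; v ∈ Submodule.span K S) : e v = 0 := by
  let _ := modK ρ
  induction hv using Submodule.span_induction with
  | mem x hx => exact hS x hx
  | zero => simp
  | add x y _ _ hx hy => rw [map_add, hx, hy, add_zero]
  | smul k x _ hx =>
    have : e (k • x) = e x * unop (ρ k) := mulE_lin ρ B he x k
    rw [this, hx, zero_mul]

variable (hB : ∀ a ∈ B, ∀ b ∈ B, a * b ∈ B)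
  (hfrac : ∀ d : D, ∃ s ∈ B, s ≠ 0 ∧ s * d ∈ B)
  (hK : ∀ d : D, (∀ k : K, d * unop (ρ k) = unop (ρ k) * d) → ∃ k : K, d = unop (ρ k))

include hfrac in
theorem ore_pair (a b : D) (ha : a ≠ 0) (hb : b ≠ 0) :
    ∃ r ∈ B, ∃ s ∈ B, r ≠ 0 ∧ s ≠ 0 ∧ r * a = s * b := by
  obtain ⟨s, hs, hs0, h⟩ := hfrac (a * b⁻¹)
  refine ⟨s, hs, s * (a * b⁻¹), h, hs0, mul_ne_zero hs0 (mul_ne_zero ha (inv_ne_zero hb)), ?_⟩
  rw [mul_assoc, mul_assoc, inv_mul_cancel₀ hb, mul_one]

include hB hfrac hK in
theorem weak_density (S : Finset D) :
    letI := modK ρ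
    ∀ v : D, v ∉ Submodule.span K (S : Set D) →
      ∃ e ∈ mulE ρ B, (∀ w ∈ S, e w = 0) ∧ e v ≠ 0 := by
  classical
  let _ := modK ρ
  induction S using Finset.induction_on with
  | empty =>
    intro v hv
    have hv0 : v ≠ 0 := by
      rintro rfl; exact hv (zero_mem _)
    obtain ⟨s, hs, hs0, -⟩ := hfrac 1
    refine ⟨Lm s * Rm ρ 1, AddSubgroup.subset_closure ⟨s, hs, 1, rfl⟩, by simp, ?_⟩
    rw [map_one, mul_one, Lm_apply]
    exact mul_ne_zero hs0 hv0
  | insert w S hwS ih =>
    intro v hv
    rw [Finset.coe_insert] at hv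
    by_cases hw : w ∈ Submodule.span K (S : Set D)
    · have hv' : v ∉ Submodule.span K (S : Set D) := fun h =>
        hv (Submodule.span_mono (Set.subset_insert _ _) h)
      obtain ⟨e, he, h1, h2⟩ := ih v hv'
      refine ⟨e, he, ?_, h2⟩
      intro u hu
      rcases Finset.mem_insert.1 hu with rfl | hu
      · exact mulE_span ρ B he (S : Set D) (fun w hw => h1 w hw) hw
      · exact h1 u hu
    · by_contra hcon
      push Not at hcon
      have hkill : ∀ e ∈ mulE ρ B, (∀ u ∈ S, e u = 0) → e w = 0 → e v = 0 := by
        intro e he h1 h2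
        apply hcon e he
        intro u hu
        rcases Finset.mem_insert.1 hu with rfl | hu
        · exact h2
        · exact h1 u hu
      obtain ⟨e1, he1, h11, h12⟩ := ih w hw
      set κ := (e1 w)⁻¹ * e1 v with hκ
      have hall : ∀ e ∈ mulE ρ B, (∀ u ∈ S, e u = 0) → e v = e w * κ := by
        intro e he h1
        by_cases hew : e w = 0
        · rw [hkill e he h1 hew, hew, zero_mul]
        · obtain ⟨r, hr, s, hs, hr0, hs0, hrs⟩ := ore_pair B hfrac (e w) (e1 w) hew h12
          have h3 : (Lm r * e - Lm s * e1) v = 0 := by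
            apply hkill
            · exact sub_mem (mulE_left ρ B hB hr he) (mulE_left ρ B hB hs he1)
            · intro u hu
              show r * e u - s * e1 u = 0
              rw [h1 u hu, h11 u hu]; simp
            · show r * e w - s * e1 w = 0
              rw [hrs, sub_self]
          have h4 : r * e v = s * e1 v := sub_eq_zero.1 h3
          have h5 : r * e v = r * (e w * κ) := by
            rw [h4, ← mul_assoc, hrs, hκ, mul_assoc, ← mul_assoc (e1 w), mul_inv_cancel₀ h12,
              one_mul]
          exact mul_left_cancel₀ hr0 h5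
      have hcomm : ∀ k : K, κ * unop (ρ k) = unop (ρ k) * κ := by
        intro k
        have h6 := hall (Rm ρ k * e1) (mulE_right ρ B he1 k) (by
          intro u hu
          show e1 u * unop (ρ k) = 0
          rw [h11 u hu, zero_mul])
        have h7 : e1 v * unop (ρ k) = (e1 w * unop (ρ k)) * κ := h6
        rw [hall e1 he1 h11, mul_assoc (e1 w) κ, mul_assoc (e1 w) (unop (ρ k))] at h7
        exact mul_left_cancel₀ h12 h7
      obtain ⟨k0, hk0⟩ := hK κ hcomm
      have hv' : v - w * κ ∉ Submodule.span K (S : Set D) := by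
        intro hmem
        apply hv
        have h8 : v = (v - w * κ) + k0 • w := by
          have : k0 • w = w * κ := by rw [hk0]; rfl
          rw [this, sub_add_cancel]
        rw [h8]
        refine add_mem (Submodule.span_mono (Set.subset_insert _ _) hmem) ?_
        exact Submodule.smul_mem _ _ (Submodule.subset_span (Set.mem_insert _ _))
      obtain ⟨e, he, h1, h2⟩ := ih _ hv'
      apply h2
      have : e (w * κ) = e w * κ := by rw [hk0]; exact mulE_lin ρ B he w k0
      rw [map_sub, this, hall e he h1, sub_self]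

include hB hfrac hK in
theorem growth (hinf : letI := modK ρ; ¬ Module.Finite K D) (S : Finset D) :
    letI := modK ρ
    ∀ v : D, v ∉ Submodule.span K (S : Set D) →
      ∃ e ∈ mulE ρ B, (∀ w ∈ S, e w = 0) ∧
        e v ∉ Submodule.span K (insert v (S : Set D)) := by
  let _ := modK ρ
  intro v hv
  by_contra hcon
  push Not at hcon
  apply hinf
  let U : Submodule K D :=
    { carrier := {u | ∃ e ∈ mulE ρ B, (∀ w ∈ S, e w = 0) ∧ e v = u}
      add_mem' := by
        rintro a b ⟨e, he, h1, rfl⟩ ⟨e', he', h1', rfl⟩
        refine ⟨e + e', add_mem he he', fun w hw => ?_, rfl⟩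
        show e w + e' w = 0
        rw [h1 w hw, h1' w hw, add_zero]
      zero_mem' := ⟨0, zero_mem _, fun w _ => rfl, rfl⟩
      smul_mem' := by
        rintro k a ⟨e, he, h1, rfl⟩
        refine ⟨Rm ρ k * e, mulE_right ρ B he k, fun w hw => ?_, rfl⟩
        show e w * unop (ρ k) = 0
        rw [h1 w hw, zero_mul] }
  have hUW : U ≤ Submodule.span K (insert v (S : Set D)) := by
    rintro u ⟨e, he, h1, rfl⟩
    exact hcon e he h1
  have hfin : Module.Finite K (Submodule.span K (insert v (S : Set D))) :=
    Module.Finite.span_of_finite K ((S.finite_toSet).insert v)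
  have hUfin : FiniteDimensional K U := Submodule.finiteDimensional_of_le hUW
  obtain ⟨e0, he0, h01, h02⟩ := weak_density ρ B hB hfrac hK S v hv
  have hu0 : e0 v ∈ U := ⟨e0, he0, h01, rfl⟩
  have hBU : ∀ b ∈ B, ∀ u ∈ U, b * u ∈ U := by
    rintro b hb u ⟨e, he, h1, rfl⟩
    refine ⟨Lm b * e, mulE_left ρ B hB hb he, fun w hw => ?_, rfl⟩
    show b * e w = 0
    rw [h1 w hw, mul_zero]
  have htop : U = ⊤ := by
    rw [eq_top_iff]
    intro d _
    obtain ⟨s, hs, hs0, hsd⟩ := hfrac (d * (e0 v)⁻¹)
    have h1 : s * d ∈ U := by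
      have := hBU _ hsd _ hu0
      rwa [mul_assoc, mul_assoc, inv_mul_cancel₀ h02, mul_one] at this
    let g : U →ₗ[K] U :=
      { toFun := fun u => ⟨s * u, hBU s hs u u.2⟩
        map_add' := fun a b => Subtype.ext (by simp [mul_add])
        map_smul' := fun k a => Subtype.ext (by
          show s * ((a : D) * unop (ρ k)) = (s * a) * unop (ρ k)
          rw [mul_assoc]) }
    have hginj : Function.Injective g := by
      intro a b hab
      have : s * (a : D) = s * b := congrArg Subtype.val hab
      exact Subtype.ext (mul_left_cancel₀ hs0 this)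
    have hgsurj : Function.Surjective g := LinearMap.injective_iff_surjective.1 hginj
    obtain ⟨u, hu⟩ := hgsurj ⟨s * d, h1⟩
    have h2 : s * (u : D) = s * d := congrArg Subtype.val hu
    have h3 : (u : D) = d := mul_left_cancel₀ hs0 h2
    rw [← h3]; exact u.2
  have : Module.Finite K (⊤ : Submodule K D) := by rw [← htop]; exact hUfin
  exact Module.Finite.of_surjective (⊤ : Submodule K D).subtype (fun x => ⟨⟨x, trivial⟩, rfl⟩)

include hB hfrac hK in
theorem nonvanish {α : Type*} [Fintype α] [DecidableEq α]
    (hinf : letI := modK ρ; ¬ Module.Finite K D) (w0 : List α) (hnd : w0.Nodup) :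
    letI := modK ρ
    ∀ (F : List α → ℤ), PermSupp w0 F → (F w0 : D) ≠ 0 → ∀ (S : Finset D) (v : D),
      v ∉ Submodule.span K (S : Set D) →
      ∃ e : α → AddMonoid.End D, (∀ i, e i ∈ mulE ρ B) ∧ (∀ i, ∀ w ∈ S, e i w = 0) ∧
        (evN w0.length F e) v ≠ 0 := by
  classical
  let _ := modK ρ
  have hint : ∀ (m : ℤ) (v : D), (m : AddMonoid.End D) v = (m : D) * v := by
    intro m v
    have : (m : AddMonoid.End D) = Lm (m : D) := by simp
    rw [this]; rfl
  induction w0 with
  | nil =>
    intro F hF hF0 S v hv
    have hv0 : v ≠ 0 := by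
      rintro rfl; exact hv (zero_mem _)
    refine ⟨fun _ => 0, fun _ => zero_mem _, fun _ _ _ => rfl, ?_⟩
    show (F [] : AddMonoid.End D) v ≠ 0
    rw [hint]
    exact mul_ne_zero hF0 hv0
  | cons i w1 ih =>
    intro F hF hF0 S v hv
    obtain ⟨ei, hei, h1, h2⟩ := growth ρ B hB hfrac hK hinf S v hv
    have hF' : PermSupp w1 (fun w => F (i :: w)) := by
      have := hF.cons i
      rwa [List.erase_cons_head] at this
    obtain ⟨e', he', h1', h2'⟩ := ih (List.nodup_cons.1 hnd).2 _ hF' hF0 (insert v S) (ei v)
      (by rw [Finset.coe_insert]; exact h2)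
    refine ⟨Function.update e' i ei, ?_, ?_, ?_⟩
    · intro j
      by_cases hj : j = i
      · subst hj; simpa using hei
      · rw [Function.update_of_ne hj]; exact he' j
    · intro j w hw
      by_cases hj : j = i
      · subst hj; simpa using h1 w hw
      · rw [Function.update_of_ne hj]; exact h1' j w (Finset.mem_insert_of_mem hw)
    · rw [List.length_cons, evN_succ, hF.nil (by simp), Int.cast_zero, zero_add]
      have hsum : (∑ j, evN w1.length (fun w => F (j :: w)) (Function.update e' i ei)
          * (Function.update e' i ei j)) v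
          = (evN w1.length (fun w => F (i :: w)) e') (ei v) := by
        have hap : ∀ (f : α → AddMonoid.End D), (∑ j, f j) v = ∑ j, (f j) v :=
          fun f => AddMonoidHom.finsetSum_apply _ _ _
        rw [hap]
        rw [Finset.sum_eq_single i]
        · rw [Function.update_self]
          have : evN w1.length (fun w => F (i :: w)) (Function.update e' i ei)
              = evN w1.length (fun w => F (i :: w)) e' := by
            refine evN_update_notMem _ w1 _ hF' _ _ fun k hk => ?_
            have : k ≠ i := by rintro rfl; exact (List.nodup_cons.1 hnd).1 hk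
            rw [Function.update_of_ne this]
          rw [this]; rfl
        · intro j _ hj
          rw [Function.update_of_ne hj]
          show (evN w1.length (fun w => F (j :: w)) (Function.update e' i ei)) (e' j v) = 0
          rw [h1' j v (Finset.mem_insert_self v S), map_zero]
        · intro h; exact absurd (Finset.mem_univ i) h
      rw [hsum]
      exact h2'

include hB hfrac hK in
/-- Kaplansky type theorem: finite dimensionality over a maximal subfield. -/
theorem kap_finite (d : ℕ) (F : List (Fin d) → ℤ) (hF0 : (F (List.finRange d) : D) ≠ 0)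
    (hFp : PermSupp (List.finRange d) F)
    (hFid : ∀ b : Fin d → D, (∀ i, b i ∈ B) → evN d F b = 0) :
    letI := modK ρ; Module.Finite K D := by
  let _ := modK ρ
  by_contra hinf
  obtain ⟨e, he, -, h2⟩ := nonvanish ρ B hB hfrac hK hinf (List.finRange d)
    (List.nodup_finRange d) F hFp hF0 ∅ (1 : D) (by simp)
  apply h2
  rw [List.length_finRange]
  have h3 : evN d F e = 0 := by
    refine evN_closure d (List.finRange d) (List.nodup_finRange d) F hFp (by simp)
      (genE ρ B) ?_ ?_ e he
    · intro e he
      choose a ha k hk using he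
      have : e = fun i => Lm (a i) * Rm ρ (k i) := funext hk
      rw [this]
      have h4 := evN_twist (Rm ρ : K →* AddMonoid.End D) d (List.finRange d) F hFp (by simp)
        (fun i => Lm (a i)) k (fun i κ => Lm_Rm_comm ρ (a i) κ)
      refine h4.trans ?_
      have h5 := evN_map_ringHom (Lm : D →+* AddMonoid.End D) d F a
      rw [← h5, hFid a ha, map_zero, zero_mul]
    · exact ⟨Lm 0 * Rm ρ 1, 0, zero_mem _, 1, rfl⟩
  rw [h3]; rfl

/-- Lemma M. -/
theorem lemmaM (s : Finset D)
    (hs : LinearIndependent (Subring.center D) (fun i : s => (i : D)))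
    (k : D → D) (hk : ∀ v : D, ∑ a ∈ s, a * v * k a = 0) : ∀ a ∈ s, k a = 0 := by
  classical
  obtain ⟨n, hn⟩ : ∃ n, (s.filter fun a => k a ≠ 0).card = n := ⟨_, rfl⟩
  induction n using Nat.strong_induction_on generalizing k with
  | _ n ih =>
    by_contra hcon
    push Not at hcon
    obtain ⟨a0, ha0, hk0⟩ := hcon
    let k' : D → D := fun a => k a * (k a0)⁻¹
    have hk'0 : k' a0 = 1 := mul_inv_cancel₀ hk0
    have hk' : ∀ v : D, ∑ a ∈ s, a * v * k' a = 0 := by
      intro v
      have := congrArg (fun t => t * (k a0)⁻¹) (hk v)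
      simp only [Finset.sum_mul, zero_mul, mul_assoc] at this
      simpa only [k', mul_assoc] using this
    have hcen : ∀ c : D, ∀ a ∈ s, c * k' a - k' a * c = 0 := by
      intro c
      refine ih (s.filter fun a => (c * k' a - k' a * c) ≠ 0).card ?_
        (fun a => c * k' a - k' a * c) ?_ rfl
      · rw [← hn]
        apply Finset.card_lt_card
        rw [Finset.ssubset_iff_subset_ne]
        constructor
        · intro a ha
          rw [Finset.mem_filter] at ha ⊢
          refine ⟨ha.1, fun h => ha.2 ?_⟩
          simp [k', h]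
        · intro h
          have : a0 ∈ s.filter fun a => k a ≠ 0 := by simp [ha0, hk0]
          rw [← h, Finset.mem_filter] at this
          apply this.2
          rw [hk'0]; simp
      · intro v
        have h1 := hk' (v * c)
        have h2 := congrArg (fun t => t * c) (hk' v)
        simp only [Finset.sum_mul, zero_mul] at h2
        rw [← sub_zero (0 : D)]
        nth_rewrite 1 [← h1]
        rw [← h2, ← Finset.sum_sub_distrib]
        refine Finset.sum_congr rfl fun a _ => ?_
        simp only [mul_sub, mul_assoc]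
    have hmem : ∀ a ∈ s, k' a ∈ Subring.center D := by
      intro a ha
      rw [Subring.mem_center_iff]
      intro g
      exact sub_eq_zero.1 (hcen g a ha)
    let κ : D → Subring.center D := fun a => if h : k' a ∈ Subring.center D then ⟨k' a, h⟩ else 0
    have hsum : ∑ i : s, κ i • (i : D) = 0 := by
      have h3 := hk' 1
      rw [← Finset.sum_attach] at h3
      rw [← h3]
      refine Finset.sum_congr rfl fun i _ => ?_
      have h4 : κ i = ⟨k' i, hmem i i.2⟩ := by simp [κ, hmem i i.2]
      rw [h4, mul_one]
      show k' (i : D) * (i : D) = _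
      exact ((Subring.mem_center_iff.1 (hmem i i.2)) (i : D)).symm
    have h5 := (Fintype.linearIndependent_iff.1 hs) (fun i => κ i) hsum ⟨a0, ha0⟩
    have h6 : κ a0 = ⟨k' a0, hmem a0 ha0⟩ := by simp [κ, hmem a0 ha0]
    have h7 : κ a0 = 0 := h5
    rw [h6] at h7
    have h8 : k' a0 = 0 := congrArg Subtype.val h7
    rw [hk'0] at h8
    exact one_ne_zero h8

/-- from finite dimension over `K` to finite dimension over the center -/
theorem finite_center (h : letI := modK ρ; Module.Finite K D) :
    Module.Finite (Subring.center D) D := by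
  classical
  let _ := modK ρ
  have : Module.Finite K D := h
  rw [← Module.rank_lt_aleph0_iff]
  have hle : Module.rank (Subring.center D) D
      ≤ ((Module.finrank K D * Module.finrank K D : ℕ) : Cardinal) := by
    apply rank_le
    intro s hs
    let L : s → (D →ₗ[K] D) := fun a =>
      { toFun := fun v => (a : D) * v
        map_add' := fun u v => mul_add _ _ _
        map_smul' := fun k v => by
          show (a : D) * (v * unop (ρ k)) = ((a : D) * v) * unop (ρ k)
          rw [mul_assoc] }
    have hL : LinearIndependent K L := by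
      rw [Fintype.linearIndependent_iff]
      intro g hg i
      let k : D → D := fun a => if h : a ∈ s then unop (ρ (g ⟨a, h⟩)) else 0
      have h1 : ∀ v : D, ∑ a ∈ s, a * v * k a = 0 := by
        intro v
        have h2 := congrArg (fun f : D →ₗ[K] D => f v) hg
        simp only [LinearMap.sum_apply, LinearMap.smul_apply, LinearMap.zero_apply] at h2
        rw [← Finset.sum_attach]
        rw [← h2]
        refine Finset.sum_congr rfl fun a _ => ?_
        have : k (a : D) = unop (ρ (g a)) := by simp [k]
        rw [this]; rfl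
      have h3 := lemmaM s hs k h1 i i.2
      have h4 : k (i : D) = unop (ρ (g i)) := by simp [k]
      rw [h4] at h3
      have h5 : ρ (g i) = 0 := by
        rw [← op_unop (ρ (g i)), h3]; rfl
      exact (map_eq_zero ρ).1 h5
    have h6 := hL.fintype_card_le_finrank
    rw [Module.finrank_linearMap] at h6
    simpa using h6
  exact hle.trans_lt (Cardinal.natCast_lt_aleph0)

end kap

end Pool.Agent.Helper455.Engel
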