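import Pool.Agent.Helper455.Engel.Prime
import Pool.Agent.Helper455.Engel.Kap

namespace Pool.Agent.Helper455.Engel

universe u

open Polynomial in
theorem central_roots {D : Type u} [DivisionRing D] (Q : Polynomial D)
    (G : Finset (Subring.center D)) (hcard : Q.natDegree < G.card)
    (hroot : ∀ γ ∈ G, Q.eval (γ : D) = 0) (i : ℕ) : Q.coeff i = 0 := by
  by_contra hne
  have h1 : ∃ φ : Module.Dual (Subring.center D) D, φ (Q.coeff i) ≠ 0 := by
    by_contra hcon
    push Not at hcon
    exact hne ((Module.forall_dual_apply_eq_zero_iff (Subring.center D) (Q.coeff i)).1 hcon)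
  obtain ⟨φ, hφ⟩ := h1
  let P : Polynomial (Subring.center D) :=
    ∑ j ∈ Finset.range (Q.natDegree + 1), Polynomial.monomial j (φ (Q.coeff j))
  have hdeg : P.natDegree ≤ Q.natDegree := by
    apply Polynomial.natDegree_sum_le_of_forall_le
    intro j hj
    exact (Polynomial.natDegree_monomial_le _).trans (by
      have := Finset.mem_range.1 hj; omega)
  have hP0 : P = 0 := by
    apply Polynomial.eq_zero_of_natDegree_lt_card_of_eval_eq_zero' P G
    · intro γ hγ
      have h2 := hroot γ hγ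
      rw [Polynomial.eval_eq_sum_range] at h2
      have h3 := congrArg φ h2
      rw [map_sum, map_zero] at h3
      rw [Polynomial.eval_finsetSum, ← h3]
      refine Finset.sum_congr rfl fun j _ => ?_
      rw [Polynomial.eval_monomial]
      have h4 : Q.coeff j * (γ : D) ^ j = (γ ^ j) • Q.coeff j := by
        show _ = ((γ ^ j : Subring.center D) : D) * Q.coeff j
        have h5 := Subring.mem_center_iff.1 (γ ^ j).2 (Q.coeff j)
        rw [← h5]; simp
      rw [h4, map_smul, smul_eq_mul, mul_comm]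
    · exact lt_of_le_of_lt hdeg hcard
  have hi : i ∈ Finset.range (Q.natDegree + 1) := by
    rw [Finset.mem_range]
    by_contra hlt
    exact hne (Polynomial.coeff_eq_zero_of_natDegree_lt (by omega))
  have h6 : P.coeff i = φ (Q.coeff i) := by
    simp only [P, Polynomial.finsetSum_coeff, Polynomial.coeff_monomial]
    rw [Finset.sum_ite_eq' _ i]
    simp [hi]
  rw [hP0] at h6
  exact hφ (by simpa using h6.symm)

theorem exists_deg {D : Type u} [DivisionRing D] (g : U) : ∃ N : ℕ, ∀ z y : D,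
    (ev (Polynomial.C z * Polynomial.X) (Polynomial.C y) g).natDegree ≤ N := by
  induction g using U_induction with
  | h0 m =>
    refine ⟨0, fun z y => ?_⟩
    rw [map_intCast]
    simp
  | hX =>
    refine ⟨1, fun z y => ?_⟩
    rw [ev_X]
    exact (Polynomial.natDegree_C_mul_le _ _).trans Polynomial.natDegree_X_le
  | hY =>
    refine ⟨0, fun z y => ?_⟩
    rw [ev_Y]
    simp
  | hadd p q hp hq =>
    obtain ⟨N1, h1⟩ := hp
    obtain ⟨N2, h2⟩ := hq
    refine ⟨max N1 N2, fun z y => ?_⟩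
    rw [map_add]
    exact (Polynomial.natDegree_add_le _ _).trans (max_le_max (h1 z y) (h2 z y))
  | hmul p q hp hq =>
    obtain ⟨N1, h1⟩ := hp
    obtain ⟨N2, h2⟩ := hq
    refine ⟨N1 + N2, fun z y => ?_⟩
    rw [map_mul]
    exact Polynomial.natDegree_mul_le.trans (Nat.add_le_add (h1 z y) (h2 z y))

theorem coeff_one_I2 {D : Type u} [DivisionRing D] {g : U} (hg : g ∈ I2) (z y : D) :
    (ev (Polynomial.C z * Polynomial.X) (Polynomial.C y) g).coeff 1 = 0 := by
  induction hg using AddSubgroup.closure_induction with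
  | mem x hx =>
    obtain ⟨p, q, r, rfl⟩ := hx
    simp only [map_mul, ev_X]
    generalize ev (Polynomial.C z * Polynomial.X) (Polynomial.C y) p = p'
    generalize ev (Polynomial.C z * Polynomial.X) (Polynomial.C y) q = q'
    generalize ev (Polynomial.C z * Polynomial.X) (Polynomial.C y) r = r'
    have h1 : p' * (Polynomial.C z * Polynomial.X) * q' * (Polynomial.C z * Polynomial.X) * r'
        = (p' * Polynomial.C z * q' * Polynomial.C z * r') * Polynomial.X ^ 2 := by
      have hX : ∀ q : Polynomial D, Polynomial.X * q = q * Polynomial.X :=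
        fun q => Polynomial.X_mul
      calc p' * (Polynomial.C z * Polynomial.X) * q' * (Polynomial.C z * Polynomial.X) * r'
          = p' * Polynomial.C z * (Polynomial.X * q') * Polynomial.C z
            * (Polynomial.X * r') := by simp only [mul_assoc]
        _ = p' * Polynomial.C z * q' * (Polynomial.X * (Polynomial.C z * r'))
            * Polynomial.X := by rw [hX q', hX r']; simp only [mul_assoc]
        _ = _ := by rw [hX]; simp only [mul_assoc, pow_two]
    rw [h1, Polynomial.coeff_mul_X_pow']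
    simp
  | zero => simp
  | add x y _ _ hx hy => rw [map_add, Polynomial.coeff_add, hx, hy, add_zero]
  | neg x _ hx => rw [map_neg, Polynomial.coeff_neg, hx, neg_zero]

theorem inf_center {V : Type u} [Ring V] [NoZeroDivisors V] (S : Sit V)
    (hmin : ∀ P : Set V, IsId P → (∃ a ∈ P, a ≠ 0) → ∃ n, eng S.x S.y n ∈ P)
    {D : Type u} [DivisionRing D] (ι : V →+* D) (hι : Function.Injective ι)
    (hfr : ∀ d : D, ∃ s r : V, s ≠ 0 ∧ ι s * d = ι r)
    (hF : Infinite (Subring.center D)) : False := by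
  have hx0 : S.x ≠ 0 := S.hz 0
  obtain ⟨N, hN⟩ := exists_deg (D := D) S.g
  obtain ⟨G, hG⟩ := Infinite.exists_subset_card_eq (Subring.center D) (N + 2)
  have hcen : ∀ (γ : Subring.center D) (d : D), (γ : D) * d = d * γ := fun γ d =>
    (Subring.mem_center_iff.1 γ.2 d).symm
  have hγ : ∀ γ : Subring.center D, ∃ n, ∃ b ∈ S.B, (γ : D) * ι (eng S.x S.y n) = ι b := by
    intro γ
    have hid : IsId {r : V | ∃ b ∈ S.B, (γ : D) * ι r = ι b} := by
      refine ⟨⟨0, zero_mem _, by simp⟩, ?_, ?_, ?_, ?_⟩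
      · rintro a ⟨b, hb, h⟩ a' ⟨b', hb', h'⟩
        exact ⟨b + b', add_mem hb hb', by rw [map_add, mul_add, h, h', map_add]⟩
      · rintro a ⟨b, hb, h⟩
        exact ⟨-b, neg_mem hb, by rw [map_neg, mul_neg, h, map_neg]⟩
      · rintro v a ⟨b, hb, h⟩
        refine ⟨v * b, S.hl v b hb, ?_⟩
        rw [map_mul, ← mul_assoc, hcen, mul_assoc, h, map_mul]
      · rintro v a ⟨b, hb, h⟩
        refine ⟨b * v, S.hr v b hb, ?_⟩
        rw [map_mul, ← mul_assoc, h, map_mul]
    obtain ⟨s, r, hs, hsr⟩ := hfr γ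
    obtain ⟨n, hn⟩ := hmin _ hid ⟨s * S.x, ⟨r * S.x, S.hl _ _ S.hx, by
      rw [map_mul, ← mul_assoc, hcen, hsr, map_mul]⟩, mul_ne_zero hs hx0⟩
    exact ⟨n, hn⟩
  choose nn hnn using hγ
  set k := G.sup nn with hk
  have hGk : ∀ γ ∈ G, ∃ b ∈ S.B, (γ : D) * ι (eng S.x S.y k) = ι b := by
    intro γ hγG
    have hid : IsId {r : V | ∃ b ∈ S.B, (γ : D) * ι r = ι b} := by
      refine ⟨⟨0, zero_mem _, by simp⟩, ?_, ?_, ?_, ?_⟩
      · rintro a ⟨b, hb, h⟩ a' ⟨b', hb', h'⟩
        exact ⟨b + b', add_mem hb hb', by rw [map_add, mul_add, h, h', map_add]⟩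
      · rintro a ⟨b, hb, h⟩
        exact ⟨-b, neg_mem hb, by rw [map_neg, mul_neg, h, map_neg]⟩
      · rintro v a ⟨b, hb, h⟩
        refine ⟨v * b, S.hl v b hb, ?_⟩
        rw [map_mul, ← mul_assoc, hcen, mul_assoc, h, map_mul]
      · rintro v a ⟨b, hb, h⟩
        refine ⟨b * v, S.hr v b hb, ?_⟩
        rw [map_mul, ← mul_assoc, h, map_mul]
    exact S.mem_of_le hid (Finset.le_sup hγG) (hnn γ)
  set z := eng S.x S.y k with hz
  let Q : Polynomial D := Polynomial.C (ι (eng z S.y S.n0)) * Polynomial.X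
    - ev (Polynomial.C (ι z) * Polynomial.X) (Polynomial.C (ι S.y)) S.g
  have hQdeg : Q.natDegree ≤ N + 1 := by
    refine (Polynomial.natDegree_sub_le _ _).trans (max_le ?_ ?_)
    · exact ((Polynomial.natDegree_C_mul_le _ _).trans Polynomial.natDegree_X_le).trans (by omega)
    · exact (hN _ _).trans (by omega)
  have hQroot : ∀ γ ∈ G, Q.eval (γ : D) = 0 := by
    intro γ hγG
    obtain ⟨b, hb, hγb⟩ := hGk γ hγG
    let φ : Polynomial D →+* D := Polynomial.eval₂RingHom' (RingHom.id D) (γ : D)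
      (fun a => (hcen γ a).symm)
    have hφ : ∀ q : Polynomial D, φ q = q.eval (γ : D) := fun q => rfl
    rw [← hφ]
    simp only [Q, map_sub, map_mul, map_ev]
    simp only [hφ, Polynomial.eval_C, Polynomial.eval_X]
    have h1 : ι z * (γ : D) = ι b := by rw [← hcen, hγb]
    rw [h1, ← map_ev, ← S.h b hb S.y S.hy]
    have h2 : ι (eng b S.y S.n0) = eng (ι b) (ι S.y) S.n0 :=
      map_eng (ι : V →ₙ+* D) b S.y S.n0
    have h3 : ι (eng z S.y S.n0) = eng (ι z) (ι S.y) S.n0 :=
      map_eng (ι : V →ₙ+* D) z S.y S.n0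
    rw [h2, h3, ← hγb, eng_central (γ : D) _ _ (hcen γ), hcen, sub_self]
  have h1 := central_roots Q G (by omega) hQroot 1
  have h2 : Q.coeff 1 = ι (eng z S.y S.n0) := by
    simp only [Q, Polynomial.coeff_sub, coeff_one_I2 S.hg, sub_zero]
    simp
  rw [h2, hz, ← eng_add] at h1
  exact S.hz _ (hι (by rw [h1, map_zero]))

open MulOpposite in
theorem fin_center {V : Type u} [Ring V] [NoZeroDivisors V] (S : Sit V)
    {D : Type u} [DivisionRing D] (ι : V →+* D) (hι : Function.Injective ι)
    (hfr : ∀ d : D, ∃ s r : V, s ≠ 0 ∧ ι s * d = ι r)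
    (hF : Finite (Subring.center D)) : False := by
  have hx0 : S.x ≠ 0 := S.hz 0
  -- a maximal commuting set
  obtain ⟨M, -, hM⟩ := zorn_subset_nonempty {M : Set D | ∀ a ∈ M, ∀ b ∈ M, a * b = b * a} (by
    intro c hc hchain _
    refine ⟨⋃₀ c, ?_, fun s hs => Set.subset_sUnion_of_mem hs⟩
    rintro a ⟨s, hs, ha⟩ b ⟨t, ht, hb⟩
    rcases hchain.total hs ht with h | h
    · exact hc ht a (h ha) b hb
    · exact hc hs a ha b (h hb)) ∅ (by intro a ha; exact absurd ha (Set.notMem_empty a))
  have hcomm : ∀ a ∈ M, ∀ b ∈ M, a * b = b * a := hM.prop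
  have hcent : ∀ c : D, (∀ a ∈ M, c * a = a * c) → c ∈ M := by
    intro c hc
    have h1 : insert c M ∈ {M : Set D | ∀ a ∈ M, ∀ b ∈ M, a * b = b * a} := by
      intro a ha b hb
      rcases Set.mem_insert_iff.1 ha with ha1 | ha1
      · rcases Set.mem_insert_iff.1 hb with hb1 | hb1
        · rw [ha1, hb1]
        · rw [ha1]; exact hc b hb1
      · rcases Set.mem_insert_iff.1 hb with hb1 | hb1
        · rw [hb1]; exact (hc a ha1).symm
        · exact hcomm a ha1 b hb1
    have h2 := hM.eq_of_subset h1 (Set.subset_insert c M)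
    rw [h2]; exact Set.mem_insert c M
  let K0 : Subfield D :=
    { carrier := M
      mul_mem' := fun {a b} ha hb => hcent _ fun c hc => by
        rw [mul_assoc, hcomm b hb c hc, ← mul_assoc, hcomm a ha c hc, mul_assoc]
      one_mem' := hcent _ fun c _ => by simp
      add_mem' := fun {a b} ha hb => hcent _ fun c hc => by
        rw [add_mul, mul_add, hcomm a ha c hc, hcomm b hb c hc]
      zero_mem' := hcent _ fun c _ => by simp
      neg_mem' := fun {a} ha => hcent _ fun c hc => by
        rw [neg_mul, mul_neg, hcomm a ha c hc]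
      inv_mem' := fun a ha => hcent _ fun c hc => by
        exact ((Commute.inv_left₀ (hcomm a ha c hc : Commute a c))) }
  let instF : Field K0 := { (inferInstance : DivisionRing K0) with
    mul_comm := fun a b => Subtype.ext (hcomm a a.2 b b.2) }
  let ρ : K0 →+* Dᵐᵒᵖ :=
    { toFun := fun k => op (k : D)
      map_one' := rfl
      map_mul' := fun a b => by
        show op ((a : D) * b) = op (a : D) * op (b : D)
        rw [← op_mul, hcomm a a.2 b b.2]
      map_zero' := rfl
      map_add' := fun a b => rfl }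
  have hK : ∀ d : D, (∀ k : K0, d * unop (ρ k) = unop (ρ k) * d) → ∃ k : K0, d = unop (ρ k) := by
    intro d hd
    exact ⟨⟨d, hcent d fun a ha => hd ⟨a, ha⟩⟩, rfl⟩
  let B : AddSubgroup D := S.B.map ι.toAddMonoidHom
  have hB : ∀ a ∈ B, ∀ b ∈ B, a * b ∈ B := by
    rintro _ ⟨a, _, rfl⟩ _ ⟨b, hb, rfl⟩
    exact ⟨a * b, S.hl a b hb, map_mul ι a b⟩
  have hfrac : ∀ d : D, ∃ s ∈ B, s ≠ 0 ∧ s * d ∈ B := by
    intro d
    obtain ⟨s, r, hs, hsr⟩ := hfr d
    refine ⟨ι (S.x * s), ⟨S.x * s, S.hr _ _ S.hx, rfl⟩, ?_, ?_⟩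
    · rw [Ne, map_eq_zero_iff ι hι]
      exact mul_ne_zero hx0 hs
    · exact ⟨S.x * r, S.hr _ _ S.hx, by
        show ι (S.x * r) = ι (S.x * s) * d
        rw [map_mul, map_mul, mul_assoc, hsr]⟩
  obtain ⟨N, c, hc⟩ := exists_coeff.{u} (eng X Y S.n0 - S.g)
  obtain ⟨d, F, hF0, hFp, hFid⟩ := multilin B N c (by
    intro x hx
    obtain ⟨a, ha, ha'⟩ := hx true
    obtain ⟨b, hb, hb'⟩ := hx false
    have h1 : x = fun i => bif i then x true else x false := by
      ext i; cases i <;> rfl
    rw [h1, ← hc, map_sub, ev_eng]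
    have h2 : x true = ι a := ha'.symm
    have h3 : x false = ι b := hb'.symm
    rw [h2, h3, ← map_ev, ← S.h a ha b hb]
    have h4 : ι (eng a b S.n0) = eng (ι a) (ι b) S.n0 := map_eng (ι : V →ₙ+* D) a b S.n0
    rw [h4, sub_self]) (coeff_ne S.n0 S.g S.hg N c hc D)
  have hfin := finite_center ρ (kap_finite ρ B hB hfrac hK d F hF0 hFp hFid)
  have hDfin : Finite D := Module.finite_of_finite (Subring.center D)
  have hcommD : ∀ a b : D, a * b = b * a := fun a b =>
    (littleWedderburn D).mul_comm a b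
  apply S.hz 1
  apply hι
  rw [eng_succ, eng_zero, map_sub, map_mul, map_mul, hcommD, sub_self, map_zero]

/-- There is no situation as in `Sit`: a ring (with an ideal) satisfying `[a,_n b] = g(a,b)`,
`g` of degree at least two in `a`, has all sequences `[x,_n y]` eventually zero. -/
theorem no_sit {V : Type u} [Ring V] (S : Sit V) : False := by
  obtain ⟨W, iW, T, hmin⟩ := exists_min S
  have hnt : Nontrivial W := ⟨⟨T.x, 0, T.hz 0⟩⟩
  have hnzd : NoZeroDivisors W := ⟨fun {a b} h => no_zero_div T hmin a b h⟩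
  obtain ⟨D, iD, ι, hι, hfr⟩ := exists_frac (left_ore T hmin)
  rcases finite_or_infinite (Subring.center D) with hF | hF
  · exact fin_center T ι hι hfr hF
  · exact inf_center T hmin ι hι hfr hF

end Pool.Agent.Helper455.Engel
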