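import Pool.Agent.Helper455.Engel.Alpha
import Pool.Agent.Helper455.Engel.Main1

namespace Pool.Agent.Helper455.Engel

theorem ev_eval {V : Type*} [Ring V] (a b : V) (u : ℕ → U) (t : Term) :
    ev a b (t.eval u) = t.eval (fun i => ev a b (u i)) :=
  map_eval (((ev a b).toRingHom : U →+* V) : U →ₙ+* V) u t

/-- the embedding of a ring into its unitization -/
def inrHom (A : Type) [NonUnitalRing A] : A →ₙ+* Unitization ℤ A where
  toFun a := (a : Unitization ℤ A)
  map_mul' a b := Unitization.inr_mul ℤ a b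
  map_zero' := Unitization.inr_zero ℤ
  map_add' a b := Unitization.inr_add ℤ a b

/-- In the presence of an identity `[a,_n b] = g(a,b)` with `g` of degree `≥ 2` in `a`, every
sequence `[x,_m y]` reaches zero. -/
theorem eng_zero_of_id {A : Type} [NonUnitalRing A] (n0 : ℕ) (g : U) (hg : g ∈ I2)
    (h : ∀ a b : A, eng (a : Unitization ℤ A) (b : Unitization ℤ A) n0
      = ev (a : Unitization ℤ A) (b : Unitization ℤ A) g) (x y : A) :
    ∃ m, eng x y m = 0 := by
  by_contra hcon
  push Not at hcon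
  have hinj : Function.Injective (fun a : A => (a : Unitization ℤ A)) :=
    Unitization.inr_injective
  let B : AddSubgroup (Unitization ℤ A) :=
    { carrier := {v | ∃ a : A, v = (a : Unitization ℤ A)}
      add_mem' := by
        rintro _ _ ⟨a, rfl⟩ ⟨b, rfl⟩
        exact ⟨a + b, (Unitization.inr_add ℤ a b).symm⟩
      zero_mem' := ⟨0, (Unitization.inr_zero ℤ).symm⟩
      neg_mem' := by
        rintro _ ⟨a, rfl⟩
        exact ⟨-a, (Unitization.inr_neg ℤ a).symm⟩ }
  refine no_sit (V := Unitization ℤ A)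
    { B := B
      hl := ?_
      hr := ?_
      n0 := n0
      g := g
      hg := hg
      h := ?_
      x := x
      y := y
      hx := ⟨x, rfl⟩
      hy := ⟨y, rfl⟩
      hz := ?_ }
  · rintro v _ ⟨b, rfl⟩
    refine ⟨v.fst • b + v.snd * b, ?_⟩
    apply Unitization.ext
    · rw [Unitization.fst_mul]; simp
    · rw [Unitization.snd_mul]
      show v.fst • b + (0 : ℤ) • v.snd + v.snd * b = v.fst • b + v.snd * b
      rw [zero_smul, add_zero]
  · rintro v _ ⟨b, rfl⟩
    refine ⟨v.fst • b + b * v.snd, ?_⟩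
    apply Unitization.ext
    · rw [Unitization.fst_mul]; simp
    · rw [Unitization.snd_mul]
      show (0 : ℤ) • v.snd + v.fst • b + b * v.snd = v.fst • b + b * v.snd
      rw [zero_smul, zero_add]
  · rintro _ ⟨a, rfl⟩ _ ⟨b, rfl⟩
    exact h a b
  · intro n hn
    apply hcon n
    apply hinj
    have h1 := map_eng (B := Unitization ℤ A) (inrHom A) x y n
    show inrHom A (eng x y n) = inrHom A 0
    rw [h1, map_zero]
    exact hn

theorem engel_of_id (Γ : Set Term) (n0 : ℕ) (g : U) (hg : g ∈ I2)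
    (h : ∀ (A : Type) [NonUnitalRing A], InVar Γ A → ∀ a b : A,
      eng (a : Unitization ℤ A) (b : Unitization ℤ A) n0
      = ev (a : Unitization ℤ A) (b : Unitization ℤ A) g) : IsEngel Γ := by
  by_contra hcon
  unfold IsEngel at hcon
  push Not at hcon
  have h1 : ∀ n : ℕ, ∃ (A : Type) (_ : NonUnitalRing A), InVar Γ A ∧ ∃ x y : A,
      eng x y (n + 1) ≠ 0 := by
    intro n
    obtain ⟨A, iA, hA, x, y, hxy⟩ := hcon (n + 1) (by omega)
    exact ⟨A, iA, hA, x, y, hxy⟩
  choose A iA hA x y hxy using h1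
  let P := ∀ n, A n
  have hP : InVar Γ P := by
    intro t ht v
    ext n
    have := map_eval (Pi.evalNonUnitalRingHom A n) v t
    have h2 : t.eval v n = t.eval (fun i => v i n) := this
    rw [h2, hA n t ht]
    rfl
  obtain ⟨m, hm⟩ := eng_zero_of_id n0 g hg (h P hP) (fun n => x n) (fun n => y n)
  have h3 : eng (fun n => x n : P) (fun n => y n) (m + 1) = 0 := by
    rw [eng_succ, hm]; simp
  have h4 := map_eng (Pi.evalNonUnitalRingHom A m) (fun n => x n : P) (fun n => y n) (m + 1)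
  rw [h3, map_zero] at h4
  exact hxy m h4.symm

/-- the matrix `diag(α, β)` -/
def Ymat {k : Type} [Field k] (α β : k) : Matrix (Fin 2) (Fin 2) k := !![α, 0; 0, β]
/-- the matrix unit `E₁₂` -/
def Zmat {k : Type} [Field k] : Matrix (Fin 2) (Fin 2) k := !![0, 1; 0, 0]

/-- The ring of `2 × 2` matrices generated by `diag(α, β)` and `E₁₂`. -/
abbrev R0 (k : Type) [Field k] (α β : k) : Type :=
  NonUnitalSubring.closure ({Ymat α β, Zmat} : Set (Matrix (Fin 2) (Fin 2) k))

/-- Every non-Engel variety contains one of the rings `R0 k α β`, `α ≠ β`, `k` finite. -/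
theorem exists_R0 (Γ : Set Term) (hΓ : ¬ IsEngel Γ) :
    ∃ (k : Type) (_ : Field k) (_ : Finite k) (α β : k), α ≠ β ∧ InVar Γ (R0 k α β) := by
  classical
  let J : Set U := {f | ∃ g ∈ I2, ∀ (A : Type) [NonUnitalRing A], InVar Γ A → ∀ a b : A,
    ev (a : Unitization ℤ A) (b : Unitization ℤ A) f
      = ev (a : Unitization ℤ A) (b : Unitization ℤ A) g}
  have hJ : IsId J := by
    refine ⟨⟨0, zero_mem _, fun A _ _ a b => rfl⟩, ?_, ?_, ?_, ?_⟩
    · rintro f ⟨g, hg, h⟩ f' ⟨g', hg', h'⟩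
      exact ⟨g + g', add_mem hg hg', fun A _ hA a b => by
        rw [map_add, map_add, h A hA, h' A hA]⟩
    · rintro f ⟨g, hg, h⟩
      exact ⟨-g, neg_mem hg, fun A _ hA a b => by rw [map_neg, map_neg, h A hA]⟩
    · rintro v f ⟨g, hg, h⟩
      exact ⟨v * g, I2_left hg v, fun A _ hA a b => by rw [map_mul, map_mul, h A hA]⟩
    · rintro v f ⟨g, hg, h⟩
      exact ⟨g * v, I2_right hg v, fun A _ hA a b => by rw [map_mul, map_mul, h A hA]⟩
  have hnJ : ∀ n, eng X Y n ∉ J := by
    rintro n ⟨g, hg, h⟩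
    apply hΓ
    refine engel_of_id Γ n g hg fun A _ hA a b => ?_
    rw [← h A hA, ev_eng]
  obtain ⟨V, iV, π, hπ, hker⟩ := exists_quot J hJ
  have hz : ∀ v, π X * v * π X = 0 := by
    intro v
    obtain ⟨u, rfl⟩ := hπ v
    rw [← map_mul, ← map_mul, hker]
    refine ⟨X * u * X, AddSubgroup.subset_closure ⟨1, u, 1, by simp⟩, fun A _ _ a b => rfl⟩
  have hn : ∀ n, eng (π X) (π Y) n ≠ 0 := by
    intro n h
    apply hnJ n
    rw [← hker]
    have h1 : π (eng X Y n) = eng (π X) (π Y) n := map_eng (π : U →ₙ+* V) X Y n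
    rw [h1, h]
  obtain ⟨k, ik, ifk, α, β, hαβ, hid⟩ := alpha (π Y) (π X) hz hn
  refine ⟨k, ik, ifk, α, β, hαβ, ?_⟩
  intro t ht w
  apply Subtype.ext
  have h1 : ((t.eval w : R0 k α β) : Matrix (Fin 2) (Fin 2) k) = t.eval (fun i => (w i).1) :=
    map_eval (NonUnitalSubringClass.subtype
      (NonUnitalSubring.closure ({Ymat α β, Zmat} : Set (Matrix (Fin 2) (Fin 2) k)))) w t
  rw [h1]
  refine hid t ?_ _ (fun i => (w i).2)
  intro v hv
  -- lift to the free algebra
  have hlift : ∀ m ∈ NonUnitalSubring.closure {π Y, π X}, ∃ u : U, π u = m ∧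
      ∀ (A : Type) [NonUnitalRing A] (a b : A), ∃ c : A,
        ev (a : Unitization ℤ A) (b : Unitization ℤ A) u = (c : Unitization ℤ A) := by
    intro m hm
    induction hm using NonUnitalSubring.closure_induction with
    | mem m hm =>
      rcases hm with rfl | rfl
      · exact ⟨Y, rfl, fun A _ a b => ⟨b, ev_Y _ _⟩⟩
      · exact ⟨X, rfl, fun A _ a b => ⟨a, ev_X _ _⟩⟩
    | zero => exact ⟨0, map_zero π, fun A _ a b => ⟨0, by simp⟩⟩
    | add m m' _ _ h h' =>
      obtain ⟨u, rfl, h⟩ := h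
      obtain ⟨u', rfl, h'⟩ := h'
      refine ⟨u + u', map_add π u u', fun A _ a b => ?_⟩
      obtain ⟨c, hc⟩ := h A a b
      obtain ⟨c', hc'⟩ := h' A a b
      exact ⟨c + c', by rw [map_add, hc, hc', Unitization.inr_add]⟩
    | neg m _ h =>
      obtain ⟨u, rfl, h⟩ := h
      refine ⟨-u, map_neg π u, fun A _ a b => ?_⟩
      obtain ⟨c, hc⟩ := h A a b
      exact ⟨-c, by rw [map_neg, hc, Unitization.inr_neg]⟩
    | mul m m' _ _ h h' =>
      obtain ⟨u, rfl, h⟩ := h
      obtain ⟨u', rfl, h'⟩ := h'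
      refine ⟨u * u', map_mul π u u', fun A _ a b => ?_⟩
      obtain ⟨c, hc⟩ := h A a b
      obtain ⟨c', hc'⟩ := h' A a b
      exact ⟨c * c', by rw [map_mul, hc, hc', Unitization.inr_mul]⟩
  choose u hu1 hu2 using fun i => hlift (v i) (hv i)
  have h2 : v = fun i => π (u i) := by ext i; rw [hu1]
  have h3 : π (t.eval u) = t.eval (fun i => π (u i)) := map_eval (π : U →ₙ+* V) u t
  rw [h2, ← h3, hker]
  refine ⟨0, zero_mem _, fun A _ hA a b => ?_⟩
  choose c hc using fun i => hu2 i A a b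
  have h4 := ev_eval (a : Unitization ℤ A) (b : Unitization ℤ A) u t
  have h5 : t.eval (fun i => ev (a : Unitization ℤ A) (b : Unitization ℤ A) (u i))
      = t.eval (fun i => (c i : Unitization ℤ A)) := by
    congr 1; ext1 i; exact hc i
  have h6 := map_eval (B := Unitization ℤ A) (inrHom A) c t
  rw [hA t ht c, map_zero] at h6
  rw [h4, h5, map_zero]
  exact h6.symm

end Pool.Agent.Helper455.Engel
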