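import Pool.Agent.Helper455.Engel.CrossB

namespace Pool.Agent.Helper455.Engel

section R0
variable {k : Type} [Field k] {α β : k}

theorem R0_lower (x : R0 k α β) : (x : Matrix (Fin 2) (Fin 2) k) 1 0 = 0 := by
  obtain ⟨x, hx⟩ := x
  show x 1 0 = 0
  induction hx using NonUnitalSubring.closure_induction with
  | mem x hx =>
    rcases hx with rfl | rfl
    · simp [Ymat]
    · simp [Zmat]
  | zero => rfl
  | add a b _ _ ha hb => rw [Matrix.add_apply, ha, hb, add_zero]
  | neg a _ ha => rw [Matrix.neg_apply, ha, neg_zero]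
  | mul a b _ _ ha hb => rw [Matrix.mul_apply, Fin.sum_univ_two, ha, hb]; simp

/-- first diagonal entry -/
def d0 : R0 k α β →ₙ+* k where
  toFun x := (x : Matrix (Fin 2) (Fin 2) k) 0 0
  map_mul' x y := by
    show ((x : Matrix (Fin 2) (Fin 2) k) * (y : Matrix (Fin 2) (Fin 2) k)) 0 0 = _
    rw [Matrix.mul_apply, Fin.sum_univ_two, R0_lower y, mul_zero, add_zero]
  map_zero' := rfl
  map_add' x y := rfl

/-- second diagonal entry -/
def d1 : R0 k α β →ₙ+* k where
  toFun x := (x : Matrix (Fin 2) (Fin 2) k) 1 1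
  map_mul' x y := by
    show ((x : Matrix (Fin 2) (Fin 2) k) * (y : Matrix (Fin 2) (Fin 2) k)) 1 1 = _
    rw [Matrix.mul_apply, Fin.sum_univ_two, R0_lower x, zero_mul, zero_add]
  map_zero' := rfl
  map_add' x y := rfl

variable [Finite k]

theorem Dd_field (m : ℕ) (hm : m + 1 = Nat.card k) (f : R0 k α β →ₙ+* k) (u : R0 k α β)
    (hu : Dd m u) : f u = 0 := by
  have : Fintype k := Fintype.ofFinite k
  rcases hu with ⟨x, rfl⟩ | ⟨x, y, rfl⟩
  · rw [map_sub, map_pw, pw_eq_pow, hm, Nat.card_eq_fintype_card, FiniteField.pow_card, sub_self]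
  · rw [map_sub, map_mul, map_mul, mul_comm, sub_self]

theorem R0_good (p m : ℕ) (hm : m + 1 = Nat.card k) [CharP k p] : Good p m (R0 k α β) := by
  have hform : ∀ u : R0 k α β, Dd m u → (u : Matrix (Fin 2) (Fin 2) k) 0 0 = 0 ∧
      (u : Matrix (Fin 2) (Fin 2) k) 1 1 = 0 ∧ (u : Matrix (Fin 2) (Fin 2) k) 1 0 = 0 :=
    fun u hu => ⟨Dd_field m hm d0 u hu, Dd_field m hm d1 u hu, R0_lower u⟩
  refine ⟨?_, ?_, ?_⟩
  · intro x
    apply Subtype.ext
    show p • (x : Matrix (Fin 2) (Fin 2) k) = 0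
    ext i j
    rw [Matrix.smul_apply, nsmul_eq_mul, CharP.cast_eq_zero, zero_mul]; rfl
  · intro u v hu hv
    obtain ⟨u0, u1, u2⟩ := hform u hu
    obtain ⟨v0, v1, v2⟩ := hform v hv
    apply Subtype.ext
    show (u : Matrix (Fin 2) (Fin 2) k) * (v : Matrix (Fin 2) (Fin 2) k) = 0
    ext i j
    rw [Matrix.mul_apply, Fin.sum_univ_two]
    fin_cases i <;> fin_cases j <;> simp [u0, u1, u2, v0, v1, v2]
  · intro u t v hu hv
    obtain ⟨u0, u1, u2⟩ := hform u hu
    obtain ⟨v0, v1, v2⟩ := hform v hv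
    have ht := R0_lower t
    apply Subtype.ext
    show (u : Matrix (Fin 2) (Fin 2) k) * (t : Matrix (Fin 2) (Fin 2) k)
      * (v : Matrix (Fin 2) (Fin 2) k) = 0
    ext i j
    rw [Matrix.mul_apply, Fin.sum_univ_two, Matrix.mul_apply, Matrix.mul_apply, Fin.sum_univ_two,
      Fin.sum_univ_two]
    fin_cases i <;> fin_cases j <;> simp [u0, u1, u2, v0, v1, v2, ht]

end R0

theorem R0_not_engel {k : Type} [Field k] {α β : k} (h : α ≠ β) (Γ : Set Term)
    (hΓ : InVar Γ (R0 k α β)) : ¬ IsEngel Γ := by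
  rintro ⟨n, _, hn⟩
  let y : R0 k α β := ⟨Ymat α β, NonUnitalSubring.subset_closure (by simp)⟩
  let z : R0 k α β := ⟨Zmat, NonUnitalSubring.subset_closure (by simp)⟩
  have h1 := hn (R0 k α β) hΓ z y
  have h2 : ∀ n : ℕ, ((eng z y n : R0 k α β) : Matrix (Fin 2) (Fin 2) k)
      = !![0, (β - α) ^ n; 0, 0] := by
    intro n
    induction n with
    | zero =>
      show (Zmat : Matrix (Fin 2) (Fin 2) k) = _
      rw [pow_zero]; rfl
    | succ n ih =>
      have h3 : ((eng z y (n + 1) : R0 k α β) : Matrix (Fin 2) (Fin 2) k)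
          = (eng z y n : R0 k α β) * (Ymat α β) - (Ymat α β) * (eng z y n : R0 k α β) := rfl
      rw [h3, ih]
      ext i j
      fin_cases i <;> fin_cases j <;> simp [Ymat]
      ring
  have h4 := h2 n
  rw [h1] at h4
  have h5 := congrFun (congrFun h4 0) 1
  have h6 : (0 : k) = (β - α) ^ n := by simpa using h5
  exact pow_ne_zero n (sub_ne_zero.2 h.symm) h6.symm

end Pool.Agent.Helper455.Engel
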