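import Pool.Agent.Helper455.Engel.Basic

namespace Pool.Agent.Helper455.Engel

/-- `pw x n = x ^ (n + 1)`, powers in a ring without unit. -/
def pw {A : Type*} [NonUnitalRing A] (x : A) : ℕ → A
  | 0 => x
  | n + 1 => pw x n * x

section
variable {A B : Type*} [NonUnitalRing A] [NonUnitalRing B]

theorem pw_zero (x : A) : pw x 0 = x := rfl
theorem pw_succ (x : A) (n : ℕ) : pw x (n + 1) = pw x n * x := rfl

theorem map_pw (f : A →ₙ+* B) (x : A) (n : ℕ) : f (pw x n) = pw (f x) n := by
  induction n with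
  | zero => rfl
  | succ n ih => rw [pw_succ, map_mul, ih, pw_succ]

theorem pw_mul_pw (x : A) (a b : ℕ) : pw x a * pw x b = pw x (a + b + 1) := by
  induction b with
  | zero => rfl
  | succ b ih =>
    rw [pw_succ, ← mul_assoc, ih]; rfl

theorem pw_succ' (x : A) (n : ℕ) : pw x (n + 1) = x * pw x n := by
  have := pw_mul_pw x 0 n
  rw [pw_zero, Nat.zero_add] at this
  exact this.symm

end

theorem pw_eq_pow {A : Type*} [Ring A] (x : A) (n : ℕ) : pw x n = x ^ (n + 1) := by
  induction n with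
  | zero => simp [pw_zero]
  | succ n ih => rw [pw_succ, ih, ← pow_succ]

/-- `u` is of the form `x^(m+1) - x` or `[x, y]`. -/
def Dd (m : ℕ) {A : Type*} [NonUnitalRing A] (u : A) : Prop :=
  (∃ x, u = pw x m - x) ∨ ∃ x y, u = x * y - y * x

/-- The rings satisfying `p x = 0`, `u v = 0`, `u t v = 0` for `u, v` of the form
`x^(m+1) - x` or `[x,y]`. -/
structure Good (p m : ℕ) (A : Type*) [NonUnitalRing A] : Prop where
  char : ∀ x : A, p • x = 0
  mul2 : ∀ u v : A, Dd m u → Dd m v → u * v = 0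
  mul3 : ∀ u t v : A, Dd m u → Dd m v → u * t * v = 0

namespace Term

/-- natural multiples of a term -/
def nsm (t : Term) : ℕ → Term
  | 0 => .zero
  | n + 1 => .add (nsm t n) t

/-- powers of a term -/
def pwT (t : Term) : ℕ → Term
  | 0 => t
  | n + 1 => .mul (pwT t n) t

theorem eval_nsm {A : Type*} [NonUnitalRing A] (v : ℕ → A) (t : Term) (n : ℕ) :
    (t.nsm n).eval v = n • t.eval v := by
  induction n with
  | zero => simp [nsm, eval]
  | succ n ih => simp [nsm, eval, ih, succ_nsmul]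

theorem eval_pwT {A : Type*} [NonUnitalRing A] (v : ℕ → A) (t : Term) (n : ℕ) :
    (t.pwT n).eval v = pw (t.eval v) n := by
  induction n with
  | zero => rfl
  | succ n ih => simp [pwT, eval, ih, pw_succ]

end Term

/-- the term `x_i^(m+1) - x_i` -/
def tF (m i : ℕ) : Term := .add ((Term.var i).pwT m) (.neg (.var i))
/-- the term `[x_i, x_j]` -/
def tC (i j : ℕ) : Term := .add (.mul (.var i) (.var j)) (.neg (.mul (.var j) (.var i)))

/-- A finite set of identities defining the class `Good p m`. -/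
def Sig (p m : ℕ) : Set Term :=
  {(Term.var 0).nsm p,
    .mul (tF m 0) (tF m 2), .mul (tF m 0) (tC 2 3), .mul (tC 0 1) (tF m 2), .mul (tC 0 1) (tC 2 3),
    .mul (.mul (tF m 0) (.var 4)) (tF m 2), .mul (.mul (tF m 0) (.var 4)) (tC 2 3),
    .mul (.mul (tC 0 1) (.var 4)) (tF m 2), .mul (.mul (tC 0 1) (.var 4)) (tC 2 3)}

theorem Sig_finite (p m : ℕ) : (Sig p m).Finite := by
  unfold Sig; exact Set.toFinite _

theorem eval_tF {A : Type*} [NonUnitalRing A] (v : ℕ → A) (m i : ℕ) :
    (tF m i).eval v = pw (v i) m - v i := by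
  simp [tF, Term.eval, Term.eval_pwT, sub_eq_add_neg]

theorem eval_tC {A : Type*} [NonUnitalRing A] (v : ℕ → A) (i j : ℕ) :
    (tC i j).eval v = v i * v j - v j * v i := by
  simp [tC, Term.eval, sub_eq_add_neg]

theorem good_iff {A : Type*} [NonUnitalRing A] (p m : ℕ) : InVar (Sig p m) A ↔ Good p m A := by
  constructor
  · intro h
    have hv : ∀ (t : Term), t ∈ Sig p m → ∀ x y z w s : A,
        t.eval (fun i => if i = 0 then x else if i = 1 then y else if i = 2 then z else
          if i = 3 then w else s) = 0 := fun t ht x y z w s => h t ht _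
    refine ⟨?_, ?_, ?_⟩
    · intro x
      have := hv ((Term.var 0).nsm p) (by simp [Sig]) x x x x x
      rw [Term.eval_nsm] at this
      simpa [Term.eval] using this
    · rintro u v (⟨x, rfl⟩ | ⟨x, y, rfl⟩) (⟨z, rfl⟩ | ⟨z, w, rfl⟩)
      · have := hv (.mul (tF m 0) (tF m 2)) (by simp [Sig]) x x z z x
        simpa [Term.eval, eval_tF, eval_tC] using this
      · have := hv (.mul (tF m 0) (tC 2 3)) (by simp [Sig]) x x z w x
        simpa [Term.eval, eval_tF, eval_tC] using this
      · have := hv (.mul (tC 0 1) (tF m 2)) (by simp [Sig]) x y z z x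
        simpa [Term.eval, eval_tF, eval_tC] using this
      · have := hv (.mul (tC 0 1) (tC 2 3)) (by simp [Sig]) x y z w x
        simpa [Term.eval, eval_tF, eval_tC] using this
    · rintro u t v (⟨x, rfl⟩ | ⟨x, y, rfl⟩) (⟨z, rfl⟩ | ⟨z, w, rfl⟩)
      · have := hv (.mul (.mul (tF m 0) (.var 4)) (tF m 2)) (by simp [Sig]) x x z z t
        simpa [Term.eval, eval_tF, eval_tC] using this
      · have := hv (.mul (.mul (tF m 0) (.var 4)) (tC 2 3)) (by simp [Sig]) x x z w t
        simpa [Term.eval, eval_tF, eval_tC] using this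
      · have := hv (.mul (.mul (tC 0 1) (.var 4)) (tF m 2)) (by simp [Sig]) x y z z t
        simpa [Term.eval, eval_tF, eval_tC] using this
      · have := hv (.mul (.mul (tC 0 1) (.var 4)) (tC 2 3)) (by simp [Sig]) x y z w t
        simpa [Term.eval, eval_tF, eval_tC] using this
  · intro h t ht v
    have hF : ∀ i, Dd m ((tF m i).eval v) := fun i => Or.inl ⟨v i, eval_tF v m i⟩
    have hC : ∀ i j, Dd m ((tC i j).eval v) := fun i j => Or.inr ⟨v i, v j, eval_tC v i j⟩
    simp only [Sig, Set.mem_insert_iff, Set.mem_singleton_iff] at ht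
    rcases ht with rfl | rfl | rfl | rfl | rfl | rfl | rfl | rfl | rfl
    · rw [Term.eval_nsm]; exact h.char _
    · exact h.mul2 _ _ (hF 0) (hF 2)
    · exact h.mul2 _ _ (hF 0) (hC 2 3)
    · exact h.mul2 _ _ (hC 0 1) (hF 2)
    · exact h.mul2 _ _ (hC 0 1) (hC 2 3)
    · exact h.mul3 _ _ _ (hF 0) (hF 2)
    · exact h.mul3 _ _ _ (hF 0) (hC 2 3)
    · exact h.mul3 _ _ _ (hC 0 1) (hF 2)
    · exact h.mul3 _ _ _ (hC 0 1) (hC 2 3)

/-- two-sided ideals of a ring without unit, as additive subgroups -/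
def IsIdA {A : Type*} [NonUnitalRing A] (I : AddSubgroup A) : Prop :=
  (∀ a, ∀ b ∈ I, a * b ∈ I) ∧ ∀ a, ∀ b ∈ I, b * a ∈ I

/-- In a good ring there is an ideal of square zero containing all `x^(m+1) - x`, `[x,y]`. -/
theorem Good.exists_ideal {A : Type*} [NonUnitalRing A] {p m : ℕ} (h : Good p m A) :
    ∃ I : AddSubgroup A, IsIdA I ∧ (∀ u, Dd m u → u ∈ I) ∧ ∀ x ∈ I, ∀ y ∈ I, x * y = 0 := by
  let N : AddSubgroup A :=
    { carrier := {x | ∀ v, Dd m v → x * v = 0 ∧ ∀ t, x * t * v = 0}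
      add_mem' := fun {a b} ha hb v hv => by
        refine ⟨by rw [add_mul, (ha v hv).1, (hb v hv).1, add_zero], fun t => ?_⟩
        rw [add_mul, add_mul, (ha v hv).2, (hb v hv).2, add_zero]
      zero_mem' := fun v _ => ⟨zero_mul _, fun t => by rw [zero_mul, zero_mul]⟩
      neg_mem' := fun {a} ha v hv => by
        refine ⟨by rw [neg_mul, (ha v hv).1, neg_zero], fun t => ?_⟩
        rw [neg_mul, neg_mul, (ha v hv).2, neg_zero] }
  have hN : IsIdA N := by
    constructor
    · intro a b hb v hv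
      refine ⟨by rw [mul_assoc, (hb v hv).1, mul_zero], fun t => ?_⟩
      rw [mul_assoc a, mul_assoc a, (hb v hv).2, mul_zero]
    · intro a b hb v hv
      refine ⟨(hb v hv).2 a, fun t => ?_⟩
      rw [mul_assoc b a t]; exact (hb v hv).2 _
  have hND : ∀ u, Dd m u → u ∈ N := fun u hu v hv => ⟨h.mul2 u v hu hv, fun t => h.mul3 u t v hu hv⟩
  let N' : AddSubgroup A :=
    { carrier := {y | ∀ x ∈ N, x * y = 0}
      add_mem' := fun {a b} ha hb x hx => by rw [mul_add, ha x hx, hb x hx, add_zero]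
      zero_mem' := fun x _ => mul_zero x
      neg_mem' := fun {a} ha x hx => by rw [mul_neg, ha x hx, neg_zero] }
  refine ⟨N ⊓ N', ⟨?_, ?_⟩, ?_, ?_⟩
  · rintro a b ⟨hb, hb'⟩
    refine ⟨hN.1 a b hb, fun x hx => ?_⟩
    rw [← mul_assoc]; exact hb' _ (hN.2 a x hx)
  · rintro a b ⟨hb, hb'⟩
    refine ⟨hN.2 a b hb, fun x hx => ?_⟩
    rw [← mul_assoc, hb' x hx, zero_mul]
  · intro u hu
    exact ⟨hND u hu, fun x hx => (hx u hu).1⟩
  · rintro x ⟨hx, _⟩ y ⟨_, hy⟩
    exact hy x hx

end Pool.Agent.Helper455.Engel
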