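import Pool.Agent.Helper455.Engel.Basic

namespace Pool.Agent.Helper455.Engel

section pow
variable {V : Type*} [Ring V]

theorem pow_split (A C : V) (h : C * A = 0) (m : ℕ) :
    (A + C) ^ (m + 1) = A ^ (m + 1) + (A + C) ^ m * C := by
  have h1 : ∀ m : ℕ, (A + C) ^ m * A = A ^ (m + 1) := by
    intro m
    induction m with
    | zero => simp
    | succ m ih =>
      rw [pow_succ', mul_assoc, ih, add_mul, ← pow_succ', pow_succ' A m, ← mul_assoc C, h,
        zero_mul, add_zero]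
  rw [pow_succ, mul_add, h1]

theorem pow_tail (A C : V) (h : C * A = 0) (j : ℕ) (hj : C ^ (j + 1) = 0) (m : ℕ) :
    (A + C) ^ m * C ^ j = A ^ m * C ^ j := by
  induction m with
  | zero => simp
  | succ m ih =>
    rw [pow_succ', mul_assoc, ih, add_mul, ← mul_assoc, ← pow_succ']
    have : C * (A ^ m * C ^ j) = 0 := by
      cases m with
      | zero => simp [← pow_succ', hj]
      | succ m => rw [pow_succ', ← mul_assoc, ← mul_assoc, h]; simp
    rw [this, add_zero]

end pow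

/-- Levitzki type lemma in prime rings. -/
theorem levitzki {V : Type*} [Ring V]
    (hprime : ∀ a b : V, (∀ v, a * v * b = 0) → a = 0 ∨ b = 0)
    (w : V) (k : ℕ) (hk : ∀ r, w * (r * w) ^ k = 0) : w = 0 := by
  classical
  by_contra hw
  have base : ∀ u : V, u ≠ 0 → ¬ (∀ r, u * (r * u) ^ 1 = 0) := by
    intro u hu h
    rcases hprime u u (fun v => by simpa [mul_assoc] using h v) with h | h <;> exact hu h
  -- minimal exponent for w
  have hex : ∃ k, ∀ r, w * (r * w) ^ k = 0 := ⟨k, hk⟩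
  obtain ⟨k, hk, hmin⟩ : ∃ k, (∀ r, w * (r * w) ^ k = 0) ∧
      ∀ j < k, ¬ (∀ r, w * (r * w) ^ j = 0) :=
    ⟨Nat.find hex, Nat.find_spec hex, fun j hj => Nat.find_min hex hj⟩
  have hk2 : 2 ≤ k := by
    rcases Nat.lt_or_ge k 2 with h | h
    · interval_cases k
      · exact absurd (by simpa using hk 0) hw
      · exact absurd hk (base w hw)
    · exact h
  obtain ⟨k, rfl⟩ : ∃ m, k = m + 2 := ⟨k - 2, by omega⟩
  obtain ⟨r0, hr0⟩ : ∃ r0, w * (r0 * w) ^ (k + 1) ≠ 0 := by
    by_contra hcon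
    push Not at hcon
    exact hmin (k + 1) (by omega) hcon
  set b := w * (r0 * w) ^ (k + 1) with hb
  have hb' : b = (w * r0) ^ (k + 1) * w := by
    rw [hb, mul_pow_mul]
  have hbn : ∀ r, b * (r * b) ^ (k + 2) = 0 := by
    intro r
    have h1 : r * b = (r * (w * r0) ^ (k + 1)) * w := by rw [hb', mul_assoc]
    rw [h1]
    conv_lhs => rw [hb', mul_assoc]
    rw [hk, mul_zero]
  have hex' : ∃ k, ∀ r, b * (r * b) ^ k = 0 := ⟨_, hbn⟩
  obtain ⟨l, hl, hlmin⟩ : ∃ k, (∀ r, b * (r * b) ^ k = 0) ∧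
      ∀ j < k, ¬ (∀ r, b * (r * b) ^ j = 0) :=
    ⟨Nat.find hex', Nat.find_spec hex', fun j hj => Nat.find_min hex' hj⟩
  have hl2 : 2 ≤ l := by
    rcases Nat.lt_or_ge l 2 with h | h
    · interval_cases l
      · exact absurd (by simpa using hl 0) hr0
      · exact absurd hl (base b hr0)
    · exact h
  obtain ⟨l, rfl⟩ : ∃ m, l = m + 2 := ⟨l - 2, by omega⟩
  refine hlmin (l + 1) (by omega) ?_
  intro r
  set A := r0 * w with hA
  set C := r * b with hC
  have hbA : b * A = 0 := by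
    rw [hb, hA, mul_assoc, ← pow_succ]
    exact hk r0
  have hCA : C * A = 0 := by rw [hC, mul_assoc, hbA, mul_zero]
  have hCn : C ^ (l + 2 + 1) = 0 := by
    rw [pow_succ', hC, mul_assoc, hl, mul_zero]
  have hsum : w * (A + C) ^ (k + 2) = 0 := by
    have : A + C = (r0 + r * (w * r0) ^ (k + 1)) * w := by
      rw [hA, hC, hb', add_mul, mul_assoc]
    rw [this]; exact hk _
  have hexp : (A + C) ^ (k + 2) * C ^ l =
      A ^ (k + 2) * C ^ l + A ^ (k + 1) * C ^ (l + 1) + A ^ k * C ^ (l + 2) := by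
    have e1 : (A + C) ^ (k + 2) = A ^ (k + 2) + (A ^ (k + 1) + (A + C) ^ k * C) * C := by
      rw [← pow_split A C hCA k]; exact pow_split A C hCA (k + 1)
    have e2 : C * C ^ l = C ^ (l + 1) := (pow_succ' C l).symm
    have e3 : C * C ^ (l + 1) = C ^ (l + 2) := (pow_succ' C (l + 1)).symm
    rw [e1, add_mul, add_mul, add_mul, mul_assoc (A ^ (k + 1)), e2, mul_assoc _ C (C ^ l), e2,
      mul_assoc _ C (C ^ (l + 1)), e3, pow_tail A C hCA (l + 2) hCn k, add_assoc]
  have hwA : w * A ^ (k + 2) = 0 := hk r0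
  have h0 : w * A ^ (k + 1) * C ^ (l + 1) + w * A ^ k * C ^ (l + 2) = 0 := by
    have := congrArg (fun t => w * t) hexp
    simp only [mul_add, ← mul_assoc] at this
    rw [hsum, hwA, zero_mul, zero_add] at this
    exact this.symm
  have hY : w * A ^ (k + 1) * C ^ (l + 1) = b * C ^ (l + 1) := by rw [hb]
  set Y := b * C ^ (l + 1) with hYdef
  have hY2 : w * A ^ k * C ^ (l + 2) = (w * (A ^ k * r)) * Y := by
    rw [pow_succ' C (l + 1), hYdef]
    nth_rewrite 1 [hC]
    simp only [mul_assoc]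
  rw [hY, hY2] at h0
  have hYs : Y = (-(w * (A ^ k * r))) * Y := by
    rw [neg_mul]; exact eq_neg_of_add_eq_zero_left h0
  have hiter : ∀ n : ℕ, Y = (-(w * (A ^ k * r))) ^ n * Y := by
    intro n
    induction n with
    | zero => simp
    | succ n ih =>
      rw [pow_succ, mul_assoc, ← hYs]; exact ih
  have hs : (-(w * (A ^ k * r))) ^ (k + 2 + 1) = 0 := by
    rw [neg_pow, pow_succ (w * (A ^ k * r)), ← mul_assoc (_ ^ _) w]
    rw [mul_pow_mul w (A ^ k * r) (k + 2)]
    rw [hk]; simp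
  have := hiter (k + 2 + 1)
  rw [hs, zero_mul] at this
  exact this

end Pool.Agent.Helper455.Engel
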