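import Pool.Agent.Helper455.Engel.Words

namespace Pool.Agent.Helper455.Engel

section free
variable {V : Type*} [Ring V] [NoZeroDivisors V]

/-- In a domain, two nonzero elements `a, b` with `Va ∩ Vb = 0` generate a free algebra. -/
theorem evN_free (x : Bool → V) (hx : ∀ i, x i ≠ 0)
    (hore : ∀ r s : V, r * x true = s * x false → r * x true = 0)
    (N : ℕ) (f : List Bool → ℤ) (h : evN N f x = 0) :
    ∀ w, w.length ≤ N → (f w : V) = 0 := by
  have key : ∀ r s : V, r * x true + s * x false = 0 → r = 0 ∧ s = 0 := by
    intro r s hrs
    have h1 : r * x true = (-s) * x false := by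
      rw [neg_mul]; exact eq_neg_of_add_eq_zero_left hrs
    have h2 := hore _ _ h1
    have h3 : s * x false = 0 := by rw [h2, zero_add] at hrs; exact hrs
    exact ⟨(mul_eq_zero.1 h2).resolve_right (hx _), (mul_eq_zero.1 h3).resolve_right (hx _)⟩
  induction N generalizing f with
  | zero =>
    intro w hw
    obtain rfl : w = [] := List.length_eq_zero_iff.1 (by omega)
    exact h
  | succ N ih =>
    rw [evN_succ] at h
    simp only [Fintype.univ_bool, Finset.mem_singleton, Bool.true_eq_false, not_false_eq_true,
      Finset.sum_insert, Finset.sum_singleton] at h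
    set fa := evN N (fun w => f (true :: w)) x
    set fb := evN N (fun w => f (false :: w)) x
    have hcomm : ∀ v : V, v * (f [] : V) = (f [] : V) * v := fun v => (Int.cast_commute _ v).symm.eq
    have ha : ((f [] : V) + x true * fa) * x true + (x true * fb) * x false = 0 := by
      have := congrArg (fun t => x true * t) h
      simp only [mul_add, mul_zero, hcomm, ← mul_assoc] at this
      rw [add_mul]
      rw [← add_assoc] at this
      exact this
    have hb : (x false * fa) * x true + ((f [] : V) + x false * fb) * x false = 0 := by
      have := congrArg (fun t => x false * t) h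
      simp only [mul_add, mul_zero, hcomm, ← mul_assoc] at this
      rw [add_mul, ← this]
      abel
    obtain ⟨-, h2⟩ := key _ _ ha
    obtain ⟨h3, -⟩ := key _ _ hb
    have hfb : fb = 0 := (mul_eq_zero.1 h2).resolve_left (hx _)
    have hfa : fa = 0 := (mul_eq_zero.1 h3).resolve_left (hx _)
    have hc : (f [] : V) = 0 := by
      rw [hfa, hfb] at h; simpa using h
    intro w hw
    cases w with
    | nil => exact hc
    | cons i w =>
      have hw' : w.length ≤ N := by simpa using hw
      cases i with
      | true => exact ih (fun w => f (true :: w)) hfa w hw'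
      | false => exact ih (fun w => f (false :: w)) hfb w hw'

end free

section multilin
variable {V : Type*} [Ring V]

/-- From a nontrivial identity in two variables on an additive subgroup `B`, a multilinear
identity whose coefficient function is supported on permutations of `0, …, d-1`. -/
theorem multilin (B : AddSubgroup V) (N : ℕ) (c : List Bool → ℤ)
    (hid : ∀ x : Bool → V, (∀ i, x i ∈ B) → evN N c x = 0)
    (hne : ∃ w : List Bool, w.length ≤ N ∧ (c w : V) ≠ 0) :
    ∃ (d : ℕ) (F : List (Fin d) → ℤ), (F (List.finRange d) : V) ≠ 0 ∧
      (∀ w, F w ≠ 0 → w.Perm (List.finRange d)) ∧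
      ∀ b : Fin d → V, (∀ i, b i ∈ B) → evN d F b = 0 := by
  classical
  -- choose a word of maximal length
  obtain ⟨w0, hw0N, hw0, hmax⟩ : ∃ w0 : List Bool, w0.length ≤ N ∧ (c w0 : V) ≠ 0 ∧
      ∀ w : List Bool, w0.length < w.length → w.length ≤ N → (c w : V) = 0 := by
    obtain ⟨w, hw⟩ := hne
    have hP : ∃ m, ∃ w : List Bool, w.length = N - m ∧ m ≤ N ∧ (c w : V) ≠ 0 :=
      ⟨N - w.length, w, by omega, by omega, hw.2⟩
    obtain ⟨w0, h1, h1', h2⟩ := Nat.find_spec hP
    refine ⟨w0, by omega, h2, fun w' hw' hN => ?_⟩
    by_contra hcon
    exact Nat.find_min hP (m := N - w'.length) (by omega) ⟨w', by omega, by omega, hcon⟩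
  set d := w0.length with hd
  let τ : Fin d → Bool := fun i => w0.get i
  let f : List (Fin d) → ℤ := fun w => c (w.map τ)
  have hf : ∀ b : Fin d → V, (∀ i, b i ∈ B) → evN N f b = 0 := by
    intro b hb
    rw [evN_map N c τ b]
    exact hid _ fun j => B.sum_mem fun i _ => hb i
  let G : List (Fin d) → ℤ := fun w => if (∀ i, i ∈ w) then f w else 0
  have hG : ∀ b : Fin d → V, (∀ i, b i ∈ B) → evN N G b = 0 := by
    intro b hb
    have h1 : evN N G b = evN N (fun w => ∑ J ∈ (Finset.univ : Finset (Fin d)).powerset,
        (-1) ^ J.card * (if (∀ i ∈ w, i ∉ J) then f w else 0)) b := by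
      congr 1
      ext w
      have h2 : ∑ J ∈ (Finset.univ : Finset (Fin d)).powerset,
          (-1) ^ J.card * (if (∀ i ∈ w, i ∉ J) then f w else 0)
          = (∑ J ∈ (w.toFinsetᶜ).powerset, (-1 : ℤ) ^ J.card) * f w := by
        rw [Finset.sum_mul]
        symm
        apply Finset.sum_subset_zero_on_sdiff
        · intro J _
          simp
        · intro J hJ
          rw [Finset.mem_sdiff, Finset.mem_powerset, Finset.mem_powerset] at hJ
          rw [if_neg, mul_zero]
          intro hcon
          apply hJ.2
          intro i hi
          rw [Finset.mem_compl, List.mem_toFinset]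
          exact fun hiw => hcon i hiw hi
        · intro J hJ
          rw [Finset.mem_powerset] at hJ
          rw [if_pos]
          intro i hi hiJ
          have := hJ hiJ
          rw [Finset.mem_compl, List.mem_toFinset] at this
          exact this hi
      rw [h2, Finset.sum_powerset_neg_one_pow_card]
      by_cases hall : ∀ i, i ∈ w
      · have : w.toFinsetᶜ = ∅ := by
          ext i; simp [hall i]
        simp [G, hall, this]
      · have : w.toFinsetᶜ ≠ ∅ := by
          intro hcon
          apply hall
          intro i
          have : i ∉ w.toFinsetᶜ := by rw [hcon]; simp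
          rw [Finset.mem_compl, not_not, List.mem_toFinset] at this
          exact this
        simp [G, hall, this]
    rw [h1, evN_sum]
    refine Finset.sum_eq_zero fun J _ => ?_
    have h3 := evN_mul_left_int N ((-1) ^ J.card)
      (fun w => if (∀ i ∈ w, i ∉ J) then f w else 0) b
    have h4 : evN N (fun w => if (∀ i ∈ w, i ∉ J) then f w else 0) b = 0 := by
      have h5 : evN N f (fun i => if i ∈ J then 0 else b i) = 0 := by
        apply hf
        intro i
        by_cases hi : i ∈ J
        · simp [hi]
        · simp [hi, hb i]
      rw [← h5, ← evN_restrict]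
      refine evN_congr N _ _ b fun w _ => ?_
      by_cases hh : (∀ i ∈ w, i ∉ J)
      · rw [if_pos hh, if_pos hh]
      · rw [if_neg hh, if_neg hh]
    rw [h3, h4, mul_zero]
  let F : List (Fin d) → ℤ := fun w => if w.Perm (List.finRange d) then f w else 0
  have hFG : ∀ w : List (Fin d), w.length ≤ N → (G w : V) = (F w : V) := by
    intro w hwN
    by_cases hall : ∀ i, i ∈ w
    · have hlen : d ≤ w.length := by
        have h1 : (Finset.univ : Finset (Fin d)) ⊆ w.toFinset := by
          intro i _; rw [List.mem_toFinset]; exact hall i
        have h2 := Finset.card_le_card h1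
        rw [Finset.card_univ, Fintype.card_fin] at h2
        exact h2.trans (List.toFinset_card_le w)
      rcases Nat.lt_or_ge d w.length with hlt | hge
      · have hz : (f w : V) = 0 := hmax _ (by simpa using hlt) (by simpa using hwN)
        have hnp : ¬ w.Perm (List.finRange d) := by
          intro hp
          have := hp.length_eq
          rw [List.length_finRange] at this
          omega
        simp [G, F, hall, hnp, hz]
      · have hperm : w.Perm (List.finRange d) := by
          have hnd : w.Nodup := by
            have h1 : (Finset.univ : Finset (Fin d)) ⊆ w.toFinset := by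
              intro i _; rw [List.mem_toFinset]; exact hall i
            have h2 := Finset.card_le_card h1
            rw [Finset.card_univ, Fintype.card_fin] at h2
            have h3 := List.toFinset_card_le w
            have h4 : w.toFinset.card = w.length := by omega
            rw [List.card_toFinset] at h4
            have h5 : w.dedup = w := (List.dedup_sublist w).eq_of_length h4
            rw [← h5]; exact List.nodup_dedup w
          rw [List.perm_ext_iff_of_nodup hnd (List.nodup_finRange d)]
          intro i
          simp [hall i]
        simp [G, F, hall, hperm]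
    · have hnp : ¬ w.Perm (List.finRange d) := by
        intro hp
        apply hall
        intro i
        rw [hp.mem_iff]
        exact List.mem_finRange i
      simp [G, F, hall, hnp]
  refine ⟨d, F, ?_, ?_, ?_⟩
  · simp only [F, List.Perm.refl, if_true, f]
    have : (List.finRange d).map τ = w0 := by
      simp only [τ]
      exact List.map_get_finRange w0
    rw [this]
    exact hw0
  · intro w hw
    by_contra hcon
    exact hw (by simp [F, hcon])
  · intro b hb
    have h1 := hG b hb
    rw [evN_congr N G F b hFG] at h1
    rw [← evN_stable d N hw0N F b, h1]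
    intro w hw
    have hnp : ¬ w.Perm (List.finRange d) := by
      intro hp
      have := hp.length_eq
      rw [List.length_finRange] at this
      omega
    simp [F, hnp]

end multilin

section perm
variable {α R : Type*} [Fintype α] [DecidableEq α] [Ring R]

/-- `F` is supported on permutations of `w0`. -/
def PermSupp (w0 : List α) (F : List α → ℤ) : Prop := ∀ w, F w ≠ 0 → w.Perm w0

omit [Fintype α] in
theorem PermSupp.cons {w0 : List α} {F : List α → ℤ} (h : PermSupp w0 F) (i : α) :
    PermSupp (w0.erase i) (fun w => F (i :: w)) := by
  intro w hw
  have h1 := h _ hw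
  have h2 := h1.erase i
  rwa [List.erase_cons_head] at h2

omit [Fintype α] [DecidableEq α] in
theorem PermSupp.zero_of_notMem {w0 : List α} {F : List α → ℤ} (h : PermSupp w0 F) (i : α)
    (hi : i ∉ w0) (w : List α) : F (i :: w) = 0 := by
  by_contra hcon
  exact hi ((h _ hcon).mem_iff.1 (by simp))

omit [Fintype α] [DecidableEq α] in
theorem PermSupp.nil {w0 : List α} {F : List α → ℤ} (h : PermSupp w0 F) (hw : w0 ≠ []) :
    F [] = 0 := by
  by_contra hcon
  exact hw (h _ hcon).symm.eq_nil

/-- Values outside `w0` do not matter. -/
theorem evN_update_notMem (N : ℕ) (w0 : List α) (F : List α → ℤ) (hF : PermSupp w0 F)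
    (e e' : α → R) (h : ∀ i ∈ w0, e i = e' i) : evN N F e = evN N F e' := by
  induction N generalizing w0 F with
  | zero => rfl
  | succ N ih =>
    rw [evN_succ, evN_succ]
    congr 1
    refine Finset.sum_congr rfl fun i _ => ?_
    by_cases hi : i ∈ w0
    · rw [h i hi, ih (w0.erase i) _ (hF.cons i) fun j hj => h j (List.mem_of_mem_erase hj)]
    · rw [evN_eq_zero N _ e fun w _ => by simp [hF.zero_of_notMem i hi],
        evN_eq_zero N _ e' fun w _ => by simp [hF.zero_of_notMem i hi]]
      simp

/-- additivity in each variable -/
theorem evN_update_add (N : ℕ) (w0 : List α) (hnd : w0.Nodup) (F : List α → ℤ)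
    (hF : PermSupp w0 F) (hN : w0.length ≤ N) (e : α → R) (j : α) (hj : j ∈ w0) (u v : R) :
    evN N F (Function.update e j (u + v))
      = evN N F (Function.update e j u) + evN N F (Function.update e j v) := by
  induction N generalizing w0 F with
  | zero =>
    have : w0 = [] := List.length_eq_zero_iff.1 (by omega)
    subst this; simp at hj
  | succ N ih =>
    rw [evN_succ, evN_succ, evN_succ]
    have hw0 : w0 ≠ [] := List.ne_nil_of_mem hj
    rw [hF.nil hw0]
    simp only [Int.cast_zero, zero_add]
    rw [← Finset.sum_add_distrib]
    refine Finset.sum_congr rfl fun i _ => ?_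
    by_cases hij : i = j
    · subst hij
      have hsub : ∀ t : R, evN N (fun w => F (i :: w)) (Function.update e i t)
          = evN N (fun w => F (i :: w)) e := by
        intro t
        refine evN_update_notMem N (w0.erase i) _ (hF.cons i) _ _ fun k hk => ?_
        have : k ≠ i := by
          rintro rfl
          exact (List.Nodup.not_mem_erase hnd) hk
        rw [Function.update_of_ne this]
      rw [hsub, hsub, hsub]
      simp [mul_add]
    · have hj' : j ∈ w0.erase i := by
        rw [List.mem_erase_of_ne (Ne.symm hij)]; exact hj
      by_cases hi : i ∈ w0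
      · have hlen : (w0.erase i).length ≤ N := by
          rw [List.length_erase_of_mem hi]; omega
        rw [ih (w0.erase i) (hnd.erase i) _ (hF.cons i) hlen hj']
        rw [Function.update_of_ne hij, Function.update_of_ne hij, Function.update_of_ne hij,
          add_mul]
      · rw [evN_eq_zero N _ _ fun w _ => by simp [hF.zero_of_notMem i hi],
          evN_eq_zero N _ _ fun w _ => by simp [hF.zero_of_notMem i hi],
          evN_eq_zero N _ _ fun w _ => by simp [hF.zero_of_notMem i hi]]
        simp

/-- twisting by commuting elements coming from a commutative monoid -/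
theorem evN_twist {K : Type*} [CommMonoid K] (ρ : K →* R) (N : ℕ) (w0 : List α)
    (F : List α → ℤ) (hF : PermSupp w0 F) (hN : w0.length ≤ N) (A : α → R) (k : α → K)
    (hc : ∀ i κ, A i * ρ κ = ρ κ * A i) :
    evN N F (fun i => A i * ρ (k i)) = evN N F A * ρ ((w0.map k).prod) := by
  induction N generalizing w0 F with
  | zero =>
    have : w0 = [] := List.length_eq_zero_iff.1 (by omega)
    subst this; simp [evN_zero']
  | succ N ih =>
    rw [evN_succ, evN_succ, add_mul, Finset.sum_mul]
    congr 1
    · by_cases hw0 : w0 = []
      · subst hw0; simp
      · rw [hF.nil hw0]; simp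
    · refine Finset.sum_congr rfl fun i _ => ?_
      by_cases hi : i ∈ w0
      · have hlen : (w0.erase i).length ≤ N := by
          rw [List.length_erase_of_mem hi]; omega
        rw [ih (w0.erase i) _ (hF.cons i) hlen]
        have hp : (w0.map k).prod = ((w0.erase i).map k).prod * k i := by
          have h1 : w0.Perm (i :: w0.erase i) := List.perm_cons_erase hi
          rw [(h1.map k).prod_eq, List.map_cons, List.prod_cons, mul_comm]
        rw [hp, map_mul]
        simp only [mul_assoc]
        congr 1
        rw [← mul_assoc, ← hc, mul_assoc]
      · rw [evN_eq_zero N _ _ fun w _ => by simp [hF.zero_of_notMem i hi],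
          evN_eq_zero N _ _ fun w _ => by simp [hF.zero_of_notMem i hi]]
        simp

/-- extension from generators to the additive subgroup they span -/
theorem evN_closure (N : ℕ) (w0 : List α) (hnd : w0.Nodup) (F : List α → ℤ)
    (hF : PermSupp w0 F) (hN : w0.length ≤ N) (S : Set R)
    (hS : ∀ e : α → R, (∀ i, e i ∈ S) → evN N F e = 0)
    (hne : S.Nonempty)
    (e : α → R) (he : ∀ i, e i ∈ AddSubgroup.closure S) : evN N F e = 0 := by
  classical
  obtain ⟨s0, hs0⟩ := hne
  suffices H : ∀ (T : Finset α) (e : α → R), (∀ i ∈ T, e i ∈ AddSubgroup.closure S) →
      (∀ i, i ∉ T → e i ∈ S) → evN N F e = 0 from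
    H Finset.univ e (fun i _ => he i) (fun i hi => absurd (Finset.mem_univ i) hi)
  intro T
  induction T using Finset.induction_on with
  | empty => intro e _ h2; exact hS e fun i => h2 i (by simp)
  | insert j T hjT ih =>
    intro e h1 h2
    by_cases hj : j ∈ w0
    · have key : ∀ x ∈ AddSubgroup.closure S, evN N F (Function.update e j x) = 0 := by
        intro x hx
        induction hx using AddSubgroup.closure_induction with
        | mem x hx =>
          apply ih
          · intro i hi
            have : i ≠ j := by rintro rfl; exact hjT hi
            rw [Function.update_of_ne this]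
            exact h1 i (Finset.mem_insert_of_mem hi)
          · intro i hi
            by_cases hij : i = j
            · subst hij; simpa using hx
            · rw [Function.update_of_ne hij]
              exact h2 i (by simp [hij, hi])
        | zero =>
          have := evN_update_add N w0 hnd F hF hN e j hj 0 0
          rw [add_zero] at this
          simpa using this
        | add x y _ _ hx hy => rw [evN_update_add N w0 hnd F hF hN e j hj, hx, hy, add_zero]
        | neg x _ hx =>
          have h0 := evN_update_add N w0 hnd F hF hN e j hj x (-x)
          have h00 := evN_update_add N w0 hnd F hF hN e j hj 0 0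
          rw [add_zero] at h00
          rw [add_neg_cancel, hx, zero_add] at h0
          rw [← h0]
          simpa using h00
      have := key (e j) (h1 j (Finset.mem_insert_self j T))
      rwa [Function.update_eq_self] at this
    · have h3 : evN N F e = evN N F (Function.update e j s0) := by
        refine evN_update_notMem N w0 F hF _ _ fun i hi => ?_
        have : i ≠ j := by rintro rfl; exact hj hi
        rw [Function.update_of_ne this]
      rw [h3]
      apply ih
      · intro i hi
        have : i ≠ j := by rintro rfl; exact hjT hi
        rw [Function.update_of_ne this]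
        exact h1 i (Finset.mem_insert_of_mem hi)
      · intro i hi
        by_cases hij : i = j
        · subst hij; simpa using hs0
        · rw [Function.update_of_ne hij]
          exact h2 i (by simp [hij, hi])

end perm

end Pool.Agent.Helper455.Engel
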