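import Pool.Agent.Helper455.Engel.Alg
import Pool.Agent.Helper455.Engel.Words2

namespace Pool.Agent.Helper455.Engel

universe u

/-- two-sided ideals as sets -/
structure IsId {V : Type*} [Ring V] (P : Set V) : Prop where
  zero : (0 : V) ∈ P
  add : ∀ a ∈ P, ∀ b ∈ P, a + b ∈ P
  neg : ∀ a ∈ P, -a ∈ P
  left : ∀ v, ∀ a ∈ P, v * a ∈ P
  right : ∀ v, ∀ a ∈ P, a * v ∈ P

theorem exists_quot {V : Type u} [Ring V] (P : Set V) (hP : IsId P) :
    ∃ (W : Type u) (_ : Ring W) (π : V →+* W), Function.Surjective π ∧ ∀ a, π a = 0 ↔ a ∈ P := by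
  let I : TwoSidedIdeal V := TwoSidedIdeal.mk' P hP.zero (fun h1 h2 => hP.add _ h1 _ h2)
    (fun h => hP.neg _ h) (fun h => hP.left _ _ h) (fun h => hP.right _ _ h)
  refine ⟨I.ringCon.Quotient, inferInstance, I.ringCon.mk', ?_, ?_⟩
  · exact RingCon.mk'_surjective _
  · intro a
    have h1 : I.ringCon.mk' a = 0 ↔ I.ringCon a 0 := by
      rw [← map_zero I.ringCon.mk']
      exact RingCon.eq I.ringCon
    rw [h1, ← TwoSidedIdeal.mem_iff]
    exact TwoSidedIdeal.mem_mk' _ _ _ _ _ _ _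

/-- A ring with an ideal `B` satisfying `[a,_n b] = g(a,b)` but in which some sequence
`[x,_n y]` never vanishes. -/
structure Sit (V : Type u) [Ring V] where
  B : AddSubgroup V
  hl : ∀ v, ∀ b ∈ B, v * b ∈ B
  hr : ∀ v, ∀ b ∈ B, b * v ∈ B
  n0 : ℕ
  g : U
  hg : g ∈ I2
  h : ∀ a ∈ B, ∀ b ∈ B, eng a b n0 = ev a b g
  x : V
  y : V
  hx : x ∈ B
  hy : y ∈ B
  hz : ∀ n, eng x y n ≠ 0

namespace Sit
variable {V : Type u} [Ring V] (S : Sit V)

theorem eng_mem (n : ℕ) : eng S.x S.y n ∈ S.B := by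
  cases n with
  | zero => exact S.hx
  | succ n => exact sub_mem (S.hl _ _ S.hy) (S.hr _ _ S.hy)

theorem mem_of_le {P : Set V} (hP : IsId P) {m n : ℕ} (hmn : m ≤ n)
    (hm : eng S.x S.y m ∈ P) : eng S.x S.y n ∈ P := by
  induction n, hmn using Nat.le_induction with
  | base => exact hm
  | succ n _ ih =>
    rw [eng_succ, sub_eq_add_neg]
    exact hP.add _ (hP.right _ _ ih) _ (hP.neg _ (hP.left _ _ ih))

/-- no `z = [x,_m y]` satisfies `z V z = 0` -/
theorem not_sq (m : ℕ) : ∃ v, eng S.x S.y m * v * eng S.x S.y m ≠ 0 := by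
  by_contra hcon
  push Not at hcon
  have h1 := S.h _ (S.eng_mem m) _ S.hy
  rw [ev_I2 (fun q => hcon _) S.hg, ← eng_add] at h1
  exact S.hz _ h1

/-- pushing a situation to a quotient -/
def map {W : Type u} [Ring W] (π : V →+* W) (hπ : Function.Surjective π)
    (hn : ∀ n, π (eng S.x S.y n) ≠ 0) : Sit W where
  B := S.B.map π.toAddMonoidHom
  hl := by
    rintro v _ ⟨b, hb, rfl⟩
    obtain ⟨v, rfl⟩ := hπ v
    exact ⟨v * b, S.hl v b hb, map_mul π _ _⟩
  hr := by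
    rintro v _ ⟨b, hb, rfl⟩
    obtain ⟨v, rfl⟩ := hπ v
    exact ⟨b * v, S.hr v b hb, map_mul π _ _⟩
  n0 := S.n0
  g := S.g
  hg := S.hg
  h := by
    rintro _ ⟨a, ha, rfl⟩ _ ⟨b, hb, rfl⟩
    have h1 := congrArg π (S.h a ha b hb)
    rw [map_ev] at h1
    rw [show π (eng a b S.n0) = eng (π a) (π b) S.n0 from map_eng (π : V →ₙ+* W) a b S.n0] at h1
    exact h1
  x := π S.x
  y := π S.y
  hx := ⟨_, S.hx, rfl⟩
  hy := ⟨_, S.hy, rfl⟩
  hz := by
    intro n h1
    apply hn n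
    rw [show π (eng S.x S.y n) = eng (π S.x) (π S.y) n from map_eng (π : V →ₙ+* W) _ _ n]
    exact h1

end Sit

/-- Zorn: pass to a quotient in which every nonzero ideal contains some `[x,_n y]`. -/
theorem exists_min {V : Type u} [Ring V] (S : Sit V) :
    ∃ (W : Type u) (_ : Ring W) (T : Sit W), ∀ P : Set W, IsId P → (∃ a ∈ P, a ≠ 0) →
      ∃ n, eng T.x T.y n ∈ P := by
  obtain ⟨P, hP⟩ := zorn_subset_nonempty {P : Set V | IsId P ∧ ∀ n, eng S.x S.y n ∉ P} (by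
    intro c hc hchain hne
    refine ⟨⋃₀ c, ⟨⟨?_, ?_, ?_, ?_, ?_⟩, ?_⟩, fun s hs => Set.subset_sUnion_of_mem hs⟩
    · obtain ⟨s, hs⟩ := hne
      exact ⟨s, hs, (hc hs).1.zero⟩
    · rintro a ⟨s, hs, ha⟩ b ⟨t, ht, hb⟩
      rcases hchain.total hs ht with h | h
      · exact ⟨t, ht, (hc ht).1.add _ (h ha) _ hb⟩
      · exact ⟨s, hs, (hc hs).1.add _ ha _ (h hb)⟩
    · rintro a ⟨s, hs, ha⟩
      exact ⟨s, hs, (hc hs).1.neg _ ha⟩
    · rintro v a ⟨s, hs, ha⟩
      exact ⟨s, hs, (hc hs).1.left _ _ ha⟩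
    · rintro v a ⟨s, hs, ha⟩
      exact ⟨s, hs, (hc hs).1.right _ _ ha⟩
    · rintro n ⟨s, hs, ha⟩
      exact (hc hs).2 n ha) {0} (by
    refine ⟨⟨rfl, ?_, ?_, ?_, ?_⟩, ?_⟩
    · rintro a rfl b rfl; simp
    · rintro a rfl; simp
    · rintro v a rfl; simp
    · rintro v a rfl; simp
    · intro n h; exact S.hz n h)
  obtain ⟨-, hmax⟩ := hP
  obtain ⟨W, iW, π, hπ, hker⟩ := exists_quot P hmax.prop.1
  refine ⟨W, iW, S.map π hπ (fun n h => hmax.prop.2 n ((hker _).1 h)), ?_⟩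
  intro Q hQ ⟨a, haQ, ha0⟩
  by_contra hcon
  push Not at hcon
  have hmem : π ⁻¹' Q ∈ {P : Set V | IsId P ∧ ∀ n, eng S.x S.y n ∉ P} := by
    refine ⟨⟨?_, ?_, ?_, ?_, ?_⟩, ?_⟩
    · show π 0 ∈ Q
      rw [map_zero]; exact hQ.zero
    · intro a ha b hb
      show π (a + b) ∈ Q
      rw [map_add]; exact hQ.add _ ha _ hb
    · intro a ha
      show π (-a) ∈ Q
      rw [map_neg]; exact hQ.neg _ ha
    · intro v a ha
      show π (v * a) ∈ Q
      rw [map_mul]; exact hQ.left _ _ ha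
    · intro v a ha
      show π (a * v) ∈ Q
      rw [map_mul]; exact hQ.right _ _ ha
    · intro n hn
      apply hcon n
      have h1 : π (eng S.x S.y n) = eng (π S.x) (π S.y) n := map_eng (π : V →ₙ+* W) _ _ n
      have h2 : π (eng S.x S.y n) ∈ Q := hn
      rw [h1] at h2
      exact h2
  have hsub : P ⊆ π ⁻¹' Q := by
    intro b hb
    show π b ∈ Q
    rw [(hker b).2 hb]; exact hQ.zero
  have heq := hmax.eq_of_subset hmem hsub
  obtain ⟨b, rfl⟩ := hπ a
  apply ha0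
  rw [hker, heq]
  exact haQ

section dom
variable {V : Type u} [Ring V] (S : Sit V)
  (hmin : ∀ P : Set V, IsId P → (∃ a ∈ P, a ≠ 0) → ∃ n, eng S.x S.y n ∈ P)

include S hmin

theorem is_prime (a b : V) (hab : ∀ v, a * v * b = 0) : a = 0 ∨ b = 0 := by
  by_contra hcon
  push Not at hcon
  obtain ⟨ha, hb⟩ := hcon
  have hJ2 : IsId {c : V | ∀ v, a * v * c = 0} := by
    refine ⟨fun v => by simp, ?_, ?_, ?_, ?_⟩
    · intro c hc d hd v; rw [mul_add, hc v, hd v, add_zero]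
    · intro c hc v; rw [mul_neg, hc v, neg_zero]
    · intro u c hc v
      rw [← mul_assoc, mul_assoc a v u]; exact hc _
    · intro u c hc v
      rw [← mul_assoc, hc v, zero_mul]
  obtain ⟨n, hn⟩ := hmin _ hJ2 ⟨b, hab, hb⟩
  have hJ1 : IsId {c : V | ∀ v, c * v * eng S.x S.y n = 0} := by
    refine ⟨fun v => by simp, ?_, ?_, ?_, ?_⟩
    · intro c hc d hd v; rw [add_mul, add_mul, hc v, hd v, add_zero]
    · intro c hc v; rw [neg_mul, neg_mul, hc v, neg_zero]
    · intro u c hc v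
      rw [mul_assoc u, mul_assoc u, hc v, mul_zero]
    · intro u c hc v
      rw [mul_assoc c]; exact hc _
  obtain ⟨m, hm⟩ := hmin _ hJ1 ⟨a, hn, ha⟩
  have h1 : ∀ v, eng S.x S.y (max m n) * v * eng S.x S.y n = 0 :=
    S.mem_of_le hJ1 (le_max_left m n) hm
  have hJ3 : IsId {c : V | ∀ v, eng S.x S.y (max m n) * v * c = 0} := by
    refine ⟨fun v => by simp, ?_, ?_, ?_, ?_⟩
    · intro c hc d hd v; rw [mul_add, hc v, hd v, add_zero]
    · intro c hc v; rw [mul_neg, hc v, neg_zero]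
    · intro u c hc v
      rw [← mul_assoc, mul_assoc (eng _ _ _) v u]; exact hc _
    · intro u c hc v
      rw [← mul_assoc, hc v, zero_mul]
  have h2 : ∀ v, eng S.x S.y (max m n) * v * eng S.x S.y (max m n) = 0 :=
    S.mem_of_le hJ3 (le_max_right m n) h1
  obtain ⟨v, hv⟩ := S.not_sq (max m n)
  exact hv (h2 v)

theorem red_B (w : V) (hw : w ∈ S.B) (hw2 : w * w = 0) : w = 0 := by
  apply levitzki (is_prime S hmin) w S.n0
  intro r
  have h1 := S.h w hw (r * w) (S.hl r w hw)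
  rw [eng_wrw hw2, ev_I2_wrw hw2 S.hg] at h1
  exact h1

theorem red (w : V) (hw2 : w * w = 0) : w = 0 := by
  have hx0 : S.x ≠ 0 := S.hz 0
  have h1 : ∀ b ∈ S.B, w * b * w = 0 := by
    intro b hb
    apply red_B S hmin _ (S.hr w _ (S.hl w b hb))
    calc w * b * w * (w * b * w) = w * b * (w * w) * b * w := by simp only [mul_assoc]
      _ = 0 := by rw [hw2]; simp
  by_contra hw0
  have h2 : ∀ v', S.x * v' * w = 0 := by
    intro v'
    have h3 : ∀ v, w * v * (S.x * v' * w) = 0 := by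
      intro v
      have := h1 (v * S.x * v') (S.hr v' _ (S.hl v _ S.hx))
      simpa only [mul_assoc] using this
    exact (is_prime S hmin _ _ h3).resolve_left hw0
  rcases is_prime S hmin _ _ h2 with h | h
  · exact hx0 h
  · exact hw0 h

theorem no_zero_div (a b : V) (hab : a * b = 0) : a = 0 ∨ b = 0 := by
  have h1 : ∀ v, b * v * a = 0 := by
    intro v
    apply red S hmin
    calc b * v * a * (b * v * a) = b * v * (a * b) * v * a := by simp only [mul_assoc]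
      _ = 0 := by rw [hab]; simp
  exact (is_prime S hmin _ _ h1).symm

theorem left_ore (a b : V) (ha : a ≠ 0) (hb : b ≠ 0) : ∃ r s, r * a = s * b ∧ r ≠ 0 := by
  have hx0 : S.x ≠ 0 := S.hz 0
  have hnt : Nontrivial V := ⟨⟨S.x, 0, hx0⟩⟩
  have hnzd : NoZeroDivisors V := ⟨fun {a b} h => no_zero_div S hmin a b h⟩
  by_contra hcon
  push Not at hcon
  obtain ⟨N, c, hc⟩ := exists_coeff.{u} (eng X Y S.n0 - S.g)
  obtain ⟨w, hw1, hw2⟩ := coeff_ne S.n0 S.g S.hg N c hc V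
  apply hw2
  refine evN_free (fun i => bif i then S.x * a else S.x * b) ?_ ?_ N c ?_ w hw1
  · intro i
    cases i
    · exact mul_ne_zero hx0 hb
    · exact mul_ne_zero hx0 ha
  · intro r s hrs
    simp only [cond_true, cond_false, ← mul_assoc] at hrs ⊢
    rw [hcon _ _ hrs, zero_mul]
  · rw [← hc, map_sub, ev_eng, S.h _ (S.hr _ _ S.hx) _ (S.hr _ _ S.hx), sub_self]

end dom

open nonZeroDivisors in
/-- Ore localization of a left Ore domain. -/
theorem exists_frac {V : Type u} [Ring V] [Nontrivial V] [NoZeroDivisors V]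
    (hore : ∀ a b : V, a ≠ 0 → b ≠ 0 → ∃ r s, r * a = s * b ∧ r ≠ 0) :
    ∃ (D : Type u) (_ : DivisionRing D) (ι : V →+* D), Function.Injective ι ∧
      ∀ d : D, ∃ s r : V, s ≠ 0 ∧ ι s * d = ι r := by
  have hne : Nonempty (OreLocalization.OreSet V⁰) := by
    rw [OreLocalization.nonempty_oreSet_iff_of_noZeroDivisors]
    intro r s
    by_cases hr : r = 0
    · exact ⟨0, 1, by simp [hr]⟩
    · obtain ⟨p, q, h1, h2⟩ := hore r s hr (nonZeroDivisors.ne_zero s.2)
      exact ⟨q, ⟨p, mem_nonZeroDivisors_of_ne_zero h2⟩, h1⟩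
  obtain ⟨inst⟩ := hne
  refine ⟨OreLocalization V⁰ V, inferInstance, OreLocalization.numeratorRingHom, ?_, ?_⟩
  · exact OreLocalization.numeratorHom_inj inf_le_left
  · intro d
    induction d using OreLocalization.ind with
    | _ r s =>
      refine ⟨s, r, nonZeroDivisors.ne_zero s.2, ?_⟩
      show ((s : V) /ₒ 1) * (r /ₒ s) = r /ₒ 1
      exact OreLocalization.mul_cancel

end Pool.Agent.Helper455.Engel
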