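import Pool.Agent.Helper455.Engel.Good
import Pool.Agent.Helper455.Engel.Prime
import Pool.Agent.Helper455.Engel.Dich

namespace Pool.Agent.Helper455.Engel

/-- finite generation as an additive group -/
theorem fg_of_struct {R : Type} [Ring R] (X : Set R) (hX : X.Finite)
    (hgen : Subring.closure X = ⊤) (J : Set R) (hJ : IsId J)
    (hJJ : ∀ a ∈ J, ∀ b ∈ J, a * b = 0) (hcomm : ∀ a b : R, a * b - b * a ∈ J)
    (m : ℕ) (hm : 1 ≤ m) (hpow : ∀ x ∈ X, x ^ (m + 1) - x ∈ J) : Module.Finite ℤ R := by
  classical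
  obtain ⟨W, iW, π, hπ, hker⟩ := exists_quot J hJ
  let _ : CommRing W := { iW with
    mul_comm := by
      intro a b
      obtain ⟨a, rfl⟩ := hπ a
      obtain ⟨b, rfl⟩ := hπ b
      have h1 := (hker _).2 (hcomm a b)
      rw [map_sub, map_mul, map_mul] at h1
      exact sub_eq_zero.1 h1 }
  have hint : ∀ x ∈ π '' X, IsIntegral ℤ x := by
    rintro _ ⟨x, hx, rfl⟩
    refine ⟨Polynomial.X ^ (m + 1) - Polynomial.X, ?_, ?_⟩
    · exact Polynomial.monic_X_pow_sub (by rw [Polynomial.degree_X]; exact_mod_cast (by omega))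
    · have h1 := (hker _).2 (hpow x hx)
      rw [map_sub, map_pow] at h1
      simpa using h1
  have hfg := fg_adjoin_of_finite (R := ℤ) (hX.image π) hint
  have htop : Algebra.adjoin ℤ (π '' X) = ⊤ := by
    have hall : ∀ r : R, π r ∈ Algebra.adjoin ℤ (π '' X) := by
      intro r
      have hr : r ∈ Subring.closure X := by rw [hgen]; trivial
      induction hr using Subring.closure_induction with
      | mem x hx => exact Algebra.subset_adjoin ⟨x, hx, rfl⟩
      | zero => rw [map_zero]; exact zero_mem _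
      | one => rw [map_one]; exact one_mem _
      | add a b _ _ ha hb => rw [map_add]; exact add_mem ha hb
      | neg a _ ha => rw [map_neg]; exact neg_mem ha
      | mul a b _ _ ha hb => rw [map_mul]; exact mul_mem ha hb
    rw [eq_top_iff]
    intro w _
    obtain ⟨r, rfl⟩ := hπ w
    exact hall r
  rw [htop] at hfg
  obtain ⟨T, hT⟩ := hfg
  let rep : W → R := Function.surjInv hπ
  have hrep : ∀ w, π (rep w) = w := Function.surjInv_eq hπ
  let V : Submodule ℤ R := Submodule.span ℤ ((T.image rep : Finset R) ∪ X ∪ {1} : Set R)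
  have hVfg : V.FG := Submodule.fg_span ((((T.image rep).finite_toSet).union hX).union
    (Set.finite_singleton 1))
  let JJ : Submodule ℤ R :=
    { carrier := J
      add_mem' := fun {a b} ha hb => hJ.add a ha b hb
      zero_mem' := hJ.zero
      smul_mem' := fun c a ha => by
        rw [zsmul_eq_mul]; exact hJ.left _ _ ha }
  have hVJ : V ⊔ JJ = ⊤ := by
    rw [eq_top_iff]
    intro r _
    have hr : π r ∈ Submodule.span ℤ (T : Set W) := by rw [hT]; trivial
    have hex : ∃ v ∈ V, π v = π r := by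
      generalize π r = w at hr
      induction hr using Submodule.span_induction with
      | mem x hx =>
        refine ⟨rep x, Submodule.subset_span ?_, hrep x⟩
        left; left
        rw [Finset.coe_image]
        exact ⟨x, hx, rfl⟩
      | zero => exact ⟨0, zero_mem _, map_zero π⟩
      | add a b _ _ ha hb =>
        obtain ⟨v, hv, rfl⟩ := ha
        obtain ⟨v', hv', rfl⟩ := hb
        exact ⟨v + v', add_mem hv hv', map_add π _ _⟩
      | smul c a _ ha =>
        obtain ⟨v, hv, rfl⟩ := ha
        exact ⟨c • v, V.smul_mem c hv, map_zsmul π _ _⟩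
    obtain ⟨v, hv, hvr⟩ := hex
    have h1 : r - v ∈ JJ := by
      apply (hker _).1
      rw [map_sub, hvr, sub_self]
    have h2 : r = v + (r - v) := by abel
    rw [h2]
    exact Submodule.add_mem_sup hv h1
  let G : Submodule ℤ R := (V ⊔ V * V) ⊓ JJ
  have hGfg : G.FG := Submodule.FG.of_le (hVfg.sup (hVfg.mul hVfg)) inf_le_left
  have hVV : V * V ≤ V ⊔ G := by
    have h1 : V ⊔ G = (V ⊔ JJ) ⊓ (V ⊔ V * V) := by
      rw [sup_inf_assoc_of_le JJ (le_sup_left : V ≤ V ⊔ V * V), inf_comm JJ]
    rw [h1, hVJ, top_inf_eq]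
    exact le_sup_right
  have hGG : G * G = ⊥ := by
    rw [eq_bot_iff, Submodule.mul_le]
    rintro a ⟨_, ha⟩ b ⟨_, hb⟩
    rw [Submodule.mem_bot]; exact hJJ a ha b hb
  let H : Submodule ℤ R := G ⊔ V * G ⊔ G * V ⊔ V * G * V
  have hHfg : H.FG := ((hGfg.sup (hVfg.mul hGfg)).sup (hGfg.mul hVfg)).sup
    ((hVfg.mul hGfg).mul hVfg)
  have hGH : G ≤ H := le_sup_left.trans (le_sup_left.trans le_sup_left)
  have hVGH : V * G ≤ H := le_sup_right.trans (le_sup_left.trans le_sup_left)
  have hGVH : G * V ≤ H := le_sup_right.trans le_sup_left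
  have hVGVH : V * G * V ≤ H := le_sup_right
  have hVVG : V * V * G ≤ V * G := by
    calc V * V * G ≤ (V ⊔ G) * G := mul_le_mul' hVV le_rfl
      _ = V * G ⊔ G * G := Submodule.sup_mul _ _ _
      _ = V * G := by rw [hGG, sup_bot_eq]
  have hVH : V * (V ⊔ H) ≤ V ⊔ H := by
    rw [Submodule.mul_sup]
    apply sup_le
    · exact hVV.trans (sup_le_sup_left hGH V)
    · refine le_trans ?_ le_sup_right
      rw [Submodule.mul_sup, Submodule.mul_sup, Submodule.mul_sup]
      refine sup_le (sup_le (sup_le hVGH ?_) ?_) ?_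
      · rw [← mul_assoc]; exact hVVG.trans hVGH
      · rw [← mul_assoc]; exact hVGVH
      · rw [← mul_assoc, ← mul_assoc]
        exact (mul_le_mul' hVVG le_rfl).trans hVGVH
  have hall : ∀ r : R, ∀ w ∈ V ⊔ H, r * w ∈ V ⊔ H := by
    intro r
    have hr : r ∈ Subring.closure X := by rw [hgen]; trivial
    induction hr using Subring.closure_induction with
    | mem x hx =>
      intro w hw
      exact hVH (Submodule.mul_mem_mul (Submodule.subset_span (by left; right; exact hx)) hw)
    | zero => intro w _; rw [zero_mul]; exact zero_mem _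
    | one => intro w hw; rw [one_mul]; exact hw
    | add a b _ _ ha hb => intro w hw; rw [add_mul]; exact add_mem (ha w hw) (hb w hw)
    | neg a _ ha => intro w hw; rw [neg_mul]; exact neg_mem (ha w hw)
    | mul a b _ _ ha hb => intro w hw; rw [mul_assoc]; exact ha _ (hb w hw)
  have h1V : (1 : R) ∈ V ⊔ H := le_sup_left (a := V) (Submodule.subset_span (by right; rfl))
  have htop' : V ⊔ H = ⊤ := by
    rw [eq_top_iff]
    intro r _
    have := hall r 1 h1V
    rwa [mul_one] at this
  exact ⟨htop' ▸ hVfg.sup hHfg⟩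

theorem mem_inrHom_mul {A : Type} [NonUnitalRing A] (v : Unitization ℤ A) (b : A) :
    v * inrHom A b = inrHom A (v.fst • b + v.snd * b) := by
  apply Unitization.ext
  · show v.fst * (0 : ℤ) = 0
    rw [mul_zero]
  · rw [Unitization.snd_mul]
    show v.fst • b + (0 : ℤ) • v.snd + v.snd * b = v.fst • b + v.snd * b
    rw [zero_smul, add_zero]

theorem mem_mul_inrHom {A : Type} [NonUnitalRing A] (v : Unitization ℤ A) (b : A) :
    inrHom A b * v = inrHom A (v.fst • b + b * v.snd) := by
  apply Unitization.ext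
  · show (0 : ℤ) * v.fst = 0
    rw [zero_mul]
  · rw [Unitization.snd_mul]
    show (0 : ℤ) • v.snd + v.fst • b + b * v.snd = v.fst • b + b * v.snd
    rw [zero_smul, zero_add]

/-- Local finiteness. -/
theorem Good.locally_finite {A : Type} [NonUnitalRing A] {p m : ℕ} (hp : 0 < p) (hm : 1 ≤ m)
    (h : Good p m A) (s : Set A) (hs : s.Finite) (hgen : NonUnitalSubring.closure s = ⊤) :
    Finite A := by
  classical
  obtain ⟨I, hI, hD, hII⟩ := h.exists_ideal
  let ι := inrHom A
  have hinj : Function.Injective ι := Unitization.inr_injective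
  let J : Set (Unitization ℤ A) := ι '' I
  have hJ : IsId J := by
    refine ⟨⟨0, zero_mem I, map_zero ι⟩, ?_, ?_, ?_, ?_⟩
    · rintro _ ⟨a, ha, rfl⟩ _ ⟨b, hb, rfl⟩
      exact ⟨a + b, add_mem ha hb, map_add ι a b⟩
    · rintro _ ⟨a, ha, rfl⟩
      exact ⟨-a, neg_mem ha, map_neg ι a⟩
    · rintro v _ ⟨a, ha, rfl⟩
      rw [mem_inrHom_mul]
      exact ⟨_, add_mem (zsmul_mem ha _) (hI.1 _ _ ha), rfl⟩
    · rintro v _ ⟨a, ha, rfl⟩
      rw [mem_mul_inrHom]
      exact ⟨_, add_mem (zsmul_mem ha _) (hI.2 _ _ ha), rfl⟩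
  have hgen' : Subring.closure (ι '' s) = ⊤ := by
    rw [eq_top_iff]
    intro v _
    have h1 : ∀ a : A, ι a ∈ Subring.closure (ι '' s) := by
      intro a
      have ha : a ∈ NonUnitalSubring.closure s := by rw [hgen]; trivial
      induction ha using NonUnitalSubring.closure_induction with
      | mem x hx => exact Subring.subset_closure ⟨x, hx, rfl⟩
      | zero => rw [map_zero]; exact zero_mem _
      | add a b _ _ ha hb => rw [map_add]; exact add_mem ha hb
      | neg a _ ha => rw [map_neg]; exact neg_mem ha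
      | mul a b _ _ ha hb => rw [map_mul]; exact mul_mem ha hb
    have h2 : v = ((v.fst : ℤ) : Unitization ℤ A) + ι v.snd := by
      have h3 : ((v.fst : ℤ) : Unitization ℤ A) = Unitization.inl v.fst := by
        have := map_intCast (Unitization.inlRingHom ℤ A) v.fst
        rw [Int.cast_id] at this
        exact this.symm
      rw [h3]
      exact (Unitization.inl_fst_add_inr_snd_eq v).symm
    rw [h2]
    exact add_mem (intCast_mem _ _) (h1 _)
  have hfin : Module.Finite ℤ (Unitization ℤ A) := by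
    refine fg_of_struct (ι '' s) (hs.image ι) hgen' J hJ ?_ ?_ m hm ?_
    · rintro _ ⟨a, ha, rfl⟩ _ ⟨b, hb, rfl⟩
      rw [← map_mul, hII a ha b hb, map_zero]
    · intro a b
      refine ⟨a.snd * b.snd - b.snd * a.snd, hD _ (Or.inr ⟨_, _, rfl⟩), ?_⟩
      apply Unitization.ext
      · show (0 : ℤ) = (a * b).fst - (b * a).fst
        rw [Unitization.fst_mul, Unitization.fst_mul, mul_comm, sub_self]
      · show a.snd * b.snd - b.snd * a.snd = (a * b).snd - (b * a).snd
        rw [Unitization.snd_mul, Unitization.snd_mul]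
        abel
    · rintro _ ⟨x, _, rfl⟩
      refine ⟨pw x m - x, hD _ (Or.inl ⟨x, rfl⟩), ?_⟩
      rw [map_sub, map_pw (B := Unitization ℤ A), pw_eq_pow]
  let ιl : A →ₗ[ℤ] Unitization ℤ A := (ι : A →+ Unitization ℤ A).toIntLinearMap
  have hfinA : Module.Finite ℤ A := Module.Finite.of_injective ιl hinj
  apply Module.finite_of_fg_torsion
  intro x
  exact ⟨⟨(p : ℤ), mem_nonZeroDivisors_of_ne_zero (by exact_mod_cast hp.ne')⟩, by
    show (p : ℤ) • x = 0
    rw [natCast_zsmul]; exact h.char x⟩

end Pool.Agent.Helper455.Engel
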