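import Pool.Agent.Helper455.Engel.Final

namespace Pool.Agent.Helper455.Engel

/-- the ring generated by `E₂₂` and `E₁₂` over `ZMod 2` -/
abbrev A2 : Type := R0 (ZMod 2) 0 1

theorem A2_zero (x : A2) : (x : Matrix (Fin 2) (Fin 2) (ZMod 2)) 0 0 = 0 := by
  obtain ⟨x, hx⟩ := x
  have h0 : ∀ y ∈ NonUnitalSubring.closure ({Ymat 0 1, Zmat} :
      Set (Matrix (Fin 2) (Fin 2) (ZMod 2))), y 1 0 = 0 := fun y hy => R0_lower ⟨y, hy⟩
  show x 0 0 = 0
  induction hx using NonUnitalSubring.closure_induction with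
  | mem x hx =>
    rcases hx with rfl | rfl
    · simp [Ymat]
    · simp [Zmat]
  | zero => rfl
  | add a b _ _ ha hb => rw [Matrix.add_apply, ha, hb, add_zero]
  | neg a _ ha => rw [Matrix.neg_apply, ha, neg_zero]
  | mul a b _ hb' ha hb => rw [Matrix.mul_apply, Fin.sum_univ_two, ha, h0 b hb']; simp

theorem A2_mul (x w : A2) (hw : (w : Matrix (Fin 2) (Fin 2) (ZMod 2)) 1 1 = 0) : x * w = 0 := by
  apply Subtype.ext
  show (x : Matrix (Fin 2) (Fin 2) (ZMod 2)) * (w : Matrix (Fin 2) (Fin 2) (ZMod 2)) = 0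
  have h1 := R0_lower x
  have h2 := R0_lower w
  have h3 := A2_zero x
  have h4 := A2_zero w
  ext i j
  rw [Matrix.mul_apply, Fin.sum_univ_two]
  fin_cases i <;> fin_cases j <;> simp [h1, h2, h3, h4, hw]

/-- Minimal non-Engel varieties exist: the four-element ring `A2` generates one. -/
theorem minimalNonEngel_A2 : MinimalNonEngel (Ident A2) := by
  refine ⟨R0_not_engel (by decide) _ (inVar_Ident _), ?_⟩
  intro Δ hsub ⟨A, iA, hA, hnA⟩
  by_contra hne
  obtain ⟨k, ik, ifk, α, β, hαβ, hR⟩ := exists_R0 Δ hne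
  have hR' : InVar (Ident A2) (R0 k α β) := hsub _ hR
  have hfield : ∀ a : ZMod 2, a * a - a = 0 := by decide
  have t1 : Sat A2 ((Term.var 0).nsm 2) := by
    intro v
    rw [Term.eval_nsm]
    apply Subtype.ext
    show 2 • ((v 0 : A2) : Matrix (Fin 2) (Fin 2) (ZMod 2)) = 0
    ext i j
    rw [Matrix.smul_apply, nsmul_eq_mul]
    have h2 : ((2 : ℕ) : ZMod 2) = 0 := by decide
    rw [h2, zero_mul]; rfl
  have t2 : Sat A2 (.mul (.var 0) (tF 1 1)) := by
    intro v
    show v 0 * (tF 1 1).eval v = 0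
    apply A2_mul
    rw [eval_tF]
    show d1 (pw (v 1) 1 - v 1) = 0
    rw [map_sub, map_pw]
    exact hfield _
  have t3 : Sat A2 (.mul (.var 0) (tC 1 2)) := by
    intro v
    show v 0 * (tC 1 2).eval v = 0
    apply A2_mul
    rw [eval_tC]
    show d1 (v 1 * v 2 - v 2 * v 1) = 0
    rw [map_sub, map_mul, map_mul, mul_comm, sub_self]
  let y : R0 k α β := ⟨Ymat α β, NonUnitalSubring.subset_closure (by simp)⟩
  let z : R0 k α β := ⟨Zmat, NonUnitalSubring.subset_closure (by simp)⟩
  have e1 := hR' _ t1 (fun _ => z)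
  have e2 := hR' _ t2 (fun i => if i = 0 then z else y)
  have e3 := hR' _ t3 (fun i => if i = 0 then y else if i = 1 then z else y)
  have hchar : (2 : k) = 0 := by
    rw [Term.eval_nsm] at e1
    have h1 : (2 • (Zmat : Matrix (Fin 2) (Fin 2) k)) = 0 := congrArg Subtype.val e1
    have h2 := congrFun (congrFun h1 0) 1
    simpa [Zmat] using h2
  have hβ : β * β - β = 0 := by
    have h0 : z * (tF 1 1).eval (fun i => if i = 0 then z else y) = 0 := e2
    rw [eval_tF] at h0
    have h1 : (Zmat : Matrix (Fin 2) (Fin 2) k) * (Ymat α β * Ymat α β - Ymat α β) = 0 :=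
      congrArg Subtype.val h0
    have h2 := congrFun (congrFun h1 0) 1
    simpa [Zmat, Ymat, Matrix.mul_apply, Fin.sum_univ_two] using h2
  have hα : α * (β - α) = 0 := by
    have h0 : y * (tC 1 2).eval (fun i => if i = 0 then y else if i = 1 then z else y) = 0 := e3
    rw [eval_tC] at h0
    have h1 : (Ymat α β : Matrix (Fin 2) (Fin 2) k) * (Zmat * Ymat α β - Ymat α β * Zmat) = 0 :=
      congrArg Subtype.val h0
    have h2 := congrFun (congrFun h1 0) 1
    simpa [Zmat, Ymat, Matrix.mul_apply, Fin.sum_univ_two] using h2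
  have hα0 : α = 0 := (mul_eq_zero.1 hα).resolve_right (sub_ne_zero.2 hαβ.symm)
  have hβ1 : β = 1 := by
    have h1 : β * (β - 1) = 0 := by rw [mul_sub, mul_one]; exact hβ
    rcases mul_eq_zero.1 h1 with h | h
    · exact absurd (hα0.trans h.symm) hαβ
    · exact sub_eq_zero.1 h
  subst hα0 hβ1
  -- embed `A2`
  have hc2 : CharP k 2 := CharTwo.of_one_ne_zero_of_two_eq_zero one_ne_zero hchar
  let φ : ZMod 2 →+* k := ZMod.castHom (dvd_refl 2) k
  let Φ : Matrix (Fin 2) (Fin 2) (ZMod 2) →+* Matrix (Fin 2) (Fin 2) k := φ.mapMatrix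
  have hΦY : Φ (Ymat 0 1) = Ymat 0 1 := by
    ext i j
    fin_cases i <;> fin_cases j <;> simp [Φ, Ymat]
  have hΦZ : Φ Zmat = Zmat := by
    ext i j
    fin_cases i <;> fin_cases j <;> simp [Φ, Zmat]
  have hmem : ∀ x ∈ NonUnitalSubring.closure ({Ymat 0 1, Zmat} :
      Set (Matrix (Fin 2) (Fin 2) (ZMod 2))), Φ x ∈ NonUnitalSubring.closure ({Ymat 0 1, Zmat} :
      Set (Matrix (Fin 2) (Fin 2) k)) := by
    intro x hx
    induction hx using NonUnitalSubring.closure_induction with
    | mem x hx =>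
      rcases hx with rfl | rfl
      · rw [hΦY]; exact NonUnitalSubring.subset_closure (by simp)
      · rw [hΦZ]; exact NonUnitalSubring.subset_closure (by simp)
    | zero => rw [map_zero]; exact zero_mem _
    | add a b _ _ ha hb => rw [map_add]; exact add_mem ha hb
    | neg a _ ha => rw [map_neg]; exact neg_mem ha
    | mul a b _ _ ha hb => rw [map_mul]; exact mul_mem ha hb
  let Ψ : A2 →ₙ+* R0 k 0 1 :=
    { toFun := fun x => ⟨Φ x, hmem x x.2⟩
      map_mul' := fun a b => Subtype.ext (map_mul Φ _ _)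
      map_zero' := Subtype.ext (map_zero Φ)
      map_add' := fun a b => Subtype.ext (map_add Φ _ _) }
  have hΨ : Function.Injective Ψ := by
    intro a b hab
    apply Subtype.ext
    have h1 : Φ a = Φ b := congrArg Subtype.val hab
    ext i j
    have h2 : φ ((a : Matrix (Fin 2) (Fin 2) (ZMod 2)) i j)
        = φ ((b : Matrix (Fin 2) (Fin 2) (ZMod 2)) i j) := congrFun (congrFun h1 i) j
    exact φ.injective h2
  have hA2 : InVar Δ A2 := hR.of_injective Ψ hΨ
  exact hnA fun t ht => hA t (hA2 t ht)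

end Pool.Agent.Helper455.Engel
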