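import Pool.Agent.Helper455.Engel.Levitzki

namespace Pool.Agent.Helper455.Engel

/-- Evaluate an integer coefficient function on words of length at most `N`. The head of a
list is the rightmost factor of the word. -/
def evN {α V : Type*} [Fintype α] [Ring V] : ℕ → (List α → ℤ) → (α → V) → V
  | 0, f, _ => (f [] : V)
  | N + 1, f, b => (f [] : V) + ∑ i, evN N (fun w => f (i :: w)) b * b i

section
variable {α V : Type*} [Fintype α] [Ring V]

theorem evN_zero' (f : List α → ℤ) (b : α → V) : evN 0 f b = (f [] : V) := rfl

theorem evN_succ (N : ℕ) (f : List α → ℤ) (b : α → V) :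
    evN (N + 1) f b = (f [] : V) + ∑ i, evN N (fun w => f (i :: w)) b * b i := rfl

theorem evN_congr (N : ℕ) (f g : List α → ℤ) (b : α → V)
    (h : ∀ w, w.length ≤ N → (f w : V) = (g w : V)) : evN N f b = evN N g b := by
  induction N generalizing f g with
  | zero => exact h [] (by simp)
  | succ N ih =>
    rw [evN_succ, evN_succ, h [] (by simp)]
    congr 1
    refine Finset.sum_congr rfl fun i _ => ?_
    rw [ih (fun w => f (i :: w)) (fun w => g (i :: w)) fun w hw => h _ (by simpa using hw)]

theorem evN_eq_zero (N : ℕ) (f : List α → ℤ) (b : α → V)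
    (h : ∀ w, w.length ≤ N → (f w : V) = 0) : evN N f b = 0 := by
  induction N generalizing f with
  | zero => exact h [] (by simp)
  | succ N ih =>
    rw [evN_succ, h [] (by simp), zero_add]
    refine Finset.sum_eq_zero fun i _ => ?_
    rw [ih (fun w => f (i :: w)) fun w hw => h _ (by simpa using hw), zero_mul]

theorem evN_add (N : ℕ) (f g : List α → ℤ) (b : α → V) :
    evN N (fun w => f w + g w) b = evN N f b + evN N g b := by
  induction N generalizing f g with
  | zero => simp [evN_zero']
  | succ N ih =>
    rw [evN_succ, evN_succ, evN_succ]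
    simp only [ih, add_mul, Finset.sum_add_distrib, Int.cast_add]
    abel

theorem evN_mul_left_int (N : ℕ) (m : ℤ) (f : List α → ℤ) (b : α → V) :
    evN N (fun w => m * f w) b = (m : V) * evN N f b := by
  induction N generalizing f with
  | zero => simp [evN_zero']
  | succ N ih =>
    rw [evN_succ, evN_succ]
    simp only [ih, Int.cast_mul, mul_add, Finset.mul_sum, mul_assoc]

theorem evN_sum {ι : Type*} (s : Finset ι) (N : ℕ) (f : ι → List α → ℤ) (b : α → V) :
    evN N (fun w => ∑ j ∈ s, f j w) b = ∑ j ∈ s, evN N (f j) b := by
  classical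
  induction s using Finset.induction_on with
  | empty =>
    simp only [Finset.sum_empty]
    exact evN_eq_zero N _ b fun w _ => by simp
  | insert a s ha ih =>
    simp only [Finset.sum_insert ha]
    rw [evN_add, ih]

/-- stability in the length bound -/
theorem evN_stable (N M : ℕ) (hNM : N ≤ M) (f : List α → ℤ) (b : α → V)
    (h : ∀ w, N < w.length → (f w : V) = 0) : evN M f b = evN N f b := by
  induction N generalizing f M with
  | zero =>
    cases M with
    | zero => rfl
    | succ M =>
      rw [evN_succ, evN_zero']
      have : ∑ i, evN M (fun w => f (i :: w)) b * b i = 0 := by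
        refine Finset.sum_eq_zero fun i _ => ?_
        rw [evN_eq_zero M _ b fun w _ => h _ (by simp), zero_mul]
      rw [this, add_zero]
  | succ N ih =>
    obtain ⟨M, rfl⟩ : ∃ M', M = M' + 1 := ⟨M - 1, by omega⟩
    rw [evN_succ, evN_succ]
    congr 1
    refine Finset.sum_congr rfl fun i _ => ?_
    rw [ih M (by omega) (fun w => f (i :: w)) fun w hw => h _ (by simpa using hw)]

/-- substitution of sums of letters -/
theorem evN_map {β : Type*} [Fintype β] [DecidableEq β] (N : ℕ) (c : List β → ℤ) (τ : α → β)
    (b : α → V) :
    evN N (fun w => c (w.map τ)) b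
      = evN N c (fun j => ∑ i ∈ Finset.univ.filter (fun i => τ i = j), b i) := by
  induction N generalizing c with
  | zero => rfl
  | succ N ih =>
    rw [evN_succ, evN_succ]
    congr 1
    have h1 : ∀ i, evN N (fun w => c ((i :: w).map τ)) b
        = evN N (fun w => c (τ i :: w))
          (fun j => ∑ i ∈ Finset.univ.filter (fun i => τ i = j), b i) := by
      intro i
      rw [← ih (fun w => c (τ i :: w))]
      rfl
    simp only [h1, Finset.mul_sum]
    symm
    rw [← Finset.sum_fiberwise (s := Finset.univ) (g := τ)]
    refine Finset.sum_congr rfl fun j _ => ?_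
    refine Finset.sum_congr rfl fun i hi => ?_
    rw [(Finset.mem_filter.1 hi).2]

/-- setting some letters to zero -/
theorem evN_restrict [DecidableEq α] (N : ℕ) (f : List α → ℤ) (J : Finset α) (b : α → V) :
    evN N (fun w => if (∀ i ∈ w, i ∉ J) then f w else 0) b
      = evN N f (fun i => if i ∈ J then 0 else b i) := by
  induction N generalizing f with
  | zero => simp [evN_zero']
  | succ N ih =>
    rw [evN_succ, evN_succ]
    congr 1
    · simp
    · refine Finset.sum_congr rfl fun i _ => ?_
      by_cases hi : i ∈ J
      · simp [hi]
        rw [evN_eq_zero N _ b fun w _ => by simp, zero_mul]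
      · simp only [hi, if_false]
        rw [← ih]
        congr 2
        ext w
        simp [hi]

end

end Pool.Agent.Helper455.Engel
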